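import Pool.Agent.H332B.Defs2

open Complex Filter Topology Set MeasureTheory
open scoped BigOperators

namespace H332B

namespace Cell

/-- the bound for the kernel in terms of the difference of the cells -/
noncomputable def G (d : ℤ) : ℝ := 1 / (1 + (max 0 (|(d : ℝ)| - 1)) ^ 2)

theorem G_nonneg (d : ℤ) : 0 ≤ G d := by unfold G; positivity

theorem G_le_one (d : ℤ) : G d ≤ 1 := by
  unfold G
  rw [div_le_one (by positivity)]
  have : 0 ≤ (max 0 (|(d : ℝ)| - 1)) ^ 2 := by positivity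
  linarith

theorem G_neg (d : ℤ) : G (-d) = G d := by unfold G; push_cast; rw [abs_neg]

theorem G_succ (N : ℕ) : G ((N : ℤ) + 1) = 1 / (1 + (N : ℝ) ^ 2) := by
  unfold G
  push_cast
  have h : |(N : ℝ) + 1| = N + 1 := abs_of_nonneg (by positivity)
  rw [h, add_sub_cancel_right, max_eq_right (Nat.cast_nonneg N)]

theorem sum_G (N : ℕ) : ∑ d ∈ Finset.Icc (-((N : ℤ) + 1)) ((N : ℤ) + 1), G d ≤
    7 - 4 / ((N : ℝ) + 1) := by
  induction N with
  | zero =>
    have h : Finset.Icc (-(((0 : ℕ) : ℤ) + 1)) (((0 : ℕ) : ℤ) + 1) = {-1, 0, 1} := by decide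
    rw [h]
    have h1 := G_le_one (-1)
    have h2 := G_le_one 0
    have h3 := G_le_one 1
    rw [Finset.sum_insert (by decide), Finset.sum_insert (by decide), Finset.sum_singleton]
    norm_num
    linarith
  | succ N ih =>
    have h : Finset.Icc (-(((N + 1 : ℕ) : ℤ) + 1)) (((N + 1 : ℕ) : ℤ) + 1) =
        insert (((N + 1 : ℕ) : ℤ) + 1) (insert (-(((N + 1 : ℕ) : ℤ) + 1))
          (Finset.Icc (-((N : ℤ) + 1)) ((N : ℤ) + 1))) := by
      ext d
      simp only [Finset.mem_insert, Finset.mem_Icc]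
      push_cast
      omega
    rw [h, Finset.sum_insert, Finset.sum_insert, G_neg, G_succ]
    · push_cast
      have hN : (0 : ℝ) ≤ N := Nat.cast_nonneg N
      have h1 : 1 / (1 + ((N : ℝ) + 1) ^ 2) + 1 / (1 + ((N : ℝ) + 1) ^ 2) ≤
          4 / ((N : ℝ) + 1) - 4 / ((N : ℝ) + 1 + 1) := by
        have e : 4 / ((N : ℝ) + 1) - 4 / ((N : ℝ) + 1 + 1) = 4 / (((N : ℝ) + 1) * (N + 1 + 1)) := by
          field_simp
          ring
        rw [e, ← add_div, div_le_div_iff₀ (by positivity) (by positivity)]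
        nlinarith
      linarith
    · simp only [Finset.mem_Icc, not_and, not_le]
      push_cast
      omega
    · simp only [Finset.mem_insert, Finset.mem_Icc, not_or, not_and, not_le]
      push_cast
      constructor
      · omega
      · omega

theorem sum_G_le (D : Finset ℤ) : ∑ d ∈ D, G d ≤ 7 := by
  set N := D.sup Int.natAbs with hN
  have hsub : D ⊆ Finset.Icc (-((N : ℤ) + 1)) ((N : ℤ) + 1) := by
    intro d hd
    have h1 : d.natAbs ≤ N := Finset.le_sup (f := Int.natAbs) hd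
    rw [Finset.mem_Icc]
    omega
  have h1 := Finset.sum_le_sum_of_subset_of_nonneg hsub (f := G) (fun d _ _ => G_nonneg d)
  have h2 := sum_G N
  have h3 : (0 : ℝ) ≤ 4 / ((N : ℝ) + 1) := by positivity
  linarith

theorem sum_G_sub (J : Finset ℤ) (k : ℤ) : ∑ k' ∈ J, G (k - k') ≤ 7 := by
  have h : ∑ k' ∈ J, G (k - k') = ∑ d ∈ J.image (fun k' => k - k'), G d := by
    rw [Finset.sum_image]
    intro a _ b _ hab
    have : k - a = k - b := hab
    omega
  rw [h]
  exact sum_G_le _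

theorem group (Z : Finset ℂ) (j : ℂ → ℤ) (J : Finset ℤ) (hJ : ∀ s ∈ Z, j s ∈ J) (m : ℂ → ℝ)
    (F : ℤ → ℝ) : ∑ s ∈ Z, m s * F (j s) =
      ∑ k ∈ J, (∑ s ∈ Z with j s = k, m s) * F k := by
  rw [← Finset.sum_fiberwise_of_maps_to hJ]
  refine Finset.sum_congr rfl fun k _ => ?_
  rw [Finset.sum_mul]
  refine Finset.sum_congr rfl fun s hs => ?_
  rw [(Finset.mem_filter.1 hs).2]

theorem near (w : ℝ) (a b : ℝ) :
    max 0 (|(((⌊a / w⌋ - ⌊b / w⌋ : ℤ)) : ℝ)| - 1) ≤ |(a - b) / w| := by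
  apply max_le (abs_nonneg _)
  have h1 := Int.floor_le (a / w)
  have h2 := Int.lt_floor_add_one (a / w)
  have h3 := Int.floor_le (b / w)
  have h4 := Int.lt_floor_add_one (b / w)
  have e : (a - b) / w = a / w - b / w := by ring
  rw [e]
  push_cast
  have h5 : |(⌊a / w⌋ : ℝ) - ⌊b / w⌋| ≤ |a / w - b / w| + 1 := by
    rw [abs_le]
    have h6 := neg_abs_le (a / w - b / w)
    have h7 := le_abs_self (a / w - b / w)
    constructor <;> linarith
  linarith

end Cell

theorem cell : S_CELL := by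
  classical
  intro Z m w g hw hm hg
  set j : ℂ → ℤ := fun s => ⌊s.im / w⌋ with hj
  set J := Z.image j with hJ
  have hJm : ∀ s ∈ Z, j s ∈ J := fun s hs => Finset.mem_image_of_mem _ hs
  set n : ℤ → ℝ := fun k => ∑ s ∈ Z with j s = k, m s with hn
  have hn0 : ∀ k, 0 ≤ n k := fun k => Finset.sum_nonneg fun s _ => hm s
  -- lower bound of the right hand side
  have hR : ∑ k ∈ J, n k * n k ≤
      ∑ s ∈ Z, ∑ s' ∈ Z, (if |s.im - s'.im| ≤ w then m s * m s' else 0) := by
    have e1 := Cell.group Z j J hJm m n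
    rw [← e1]
    refine Finset.sum_le_sum fun s _ => ?_
    rw [hn, Finset.mul_sum, Finset.sum_filter]
    refine Finset.sum_le_sum fun s' _ => ?_
    by_cases h : j s' = j s
    · rw [if_pos h, if_pos]
      have h1 : ⌊s'.im / w⌋ = ⌊s.im / w⌋ := h
      have h2 := Int.floor_le (s.im / w)
      have h3 := Int.lt_floor_add_one (s.im / w)
      have h4 := Int.floor_le (s'.im / w)
      have h5 := Int.lt_floor_add_one (s'.im / w)
      rw [h1] at h4 h5
      have h6 : |s.im / w - s'.im / w| ≤ 1 := by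
        rw [abs_le]; constructor <;> linarith
      have h7 : s.im / w - s'.im / w = (s.im - s'.im) / w := by ring
      rw [h7, abs_div, abs_of_pos hw, div_le_one hw] at h6
      exact h6
    · rw [if_neg h]
      split_ifs
      · exact mul_nonneg (hm s) (hm s')
      · exact le_rfl
  -- upper bound of the left hand side
  have hL : ∑ s ∈ Z, ∑ s' ∈ Z, m s * m s' * g ((s.im - s'.im) / w) ≤
      ∑ k ∈ J, n k * ∑ k' ∈ J, n k' * Cell.G (k - k') := by
    have e1 : ∀ k : ℤ, ∑ s' ∈ Z, m s' * Cell.G (k - j s') = ∑ k' ∈ J, n k' * Cell.G (k - k') :=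
      fun k => Cell.group Z j J hJm m (fun k' => Cell.G (k - k'))
    have e2 := Cell.group Z j J hJm m (fun k => ∑ k' ∈ J, n k' * Cell.G (k - k'))
    rw [← e2]
    refine Finset.sum_le_sum fun s _ => ?_
    rw [← e1, Finset.mul_sum]
    refine Finset.sum_le_sum fun s' _ => ?_
    rw [mul_assoc]
    refine mul_le_mul_of_nonneg_left ?_ (hm s)
    refine mul_le_mul_of_nonneg_left ?_ (hm s')
    refine (hg _).2.trans ?_
    unfold Cell.G
    apply one_div_le_one_div_of_le (by positivity)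
    have h1 := Cell.near w s.im s'.im
    have h2 := pow_le_pow_left₀ (le_max_left _ _) h1 2
    rw [sq_abs] at h2
    have h3 : ((j s - j s' : ℤ) : ℝ) = ((⌊s.im / w⌋ - ⌊s'.im / w⌋ : ℤ) : ℝ) := rfl
    rw [h3]
    linarith
  refine hL.trans ?_
  have hA : ∑ k ∈ J, n k * ∑ k' ∈ J, n k' * Cell.G (k - k') ≤
      ∑ k ∈ J, ∑ k' ∈ J, ((n k * n k) * Cell.G (k - k') / 2 +
        (n k' * n k') * Cell.G (k' - k) / 2) := by
    refine Finset.sum_le_sum fun k _ => ?_
    rw [Finset.mul_sum]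
    refine Finset.sum_le_sum fun k' _ => ?_
    have h1 : Cell.G (k' - k) = Cell.G (k - k') := by
      rw [← Cell.G_neg]; congr 1; ring
    rw [h1]
    have h2 := Cell.G_nonneg (k - k')
    have h3 : 0 ≤ (n k - n k') ^ 2 * Cell.G (k - k') := by positivity
    nlinarith
  refine hA.trans ?_
  have hB : ∑ k ∈ J, ∑ k' ∈ J, ((n k * n k) * Cell.G (k - k') / 2 +
        (n k' * n k') * Cell.G (k' - k) / 2) =
      ∑ k ∈ J, (n k * n k) * ∑ k' ∈ J, Cell.G (k - k') := by
    have h1 : ∑ k ∈ J, ∑ k' ∈ J, (n k' * n k') * Cell.G (k' - k) / 2 =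
        ∑ k ∈ J, ∑ k' ∈ J, (n k * n k) * Cell.G (k - k') / 2 := by
      rw [Finset.sum_comm]
    have h2 : ∑ k ∈ J, ∑ k' ∈ J, ((n k * n k) * Cell.G (k - k') / 2 +
        (n k' * n k') * Cell.G (k' - k) / 2) =
        ∑ k ∈ J, ∑ k' ∈ J, (n k * n k) * Cell.G (k - k') / 2 +
        ∑ k ∈ J, ∑ k' ∈ J, (n k' * n k') * Cell.G (k' - k) / 2 := by
      rw [← Finset.sum_add_distrib]
      exact Finset.sum_congr rfl fun k _ => Finset.sum_add_distrib
    have h3 : ∑ k ∈ J, (n k * n k) * ∑ k' ∈ J, Cell.G (k - k') =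
        ∑ k ∈ J, ∑ k' ∈ J, (n k * n k) * Cell.G (k - k') :=
      Finset.sum_congr rfl fun k _ => Finset.mul_sum _ _ _
    have h4 : ∑ k ∈ J, ∑ k' ∈ J, (n k * n k) * Cell.G (k - k') / 2 =
        (∑ k ∈ J, ∑ k' ∈ J, (n k * n k) * Cell.G (k - k')) / 2 := by
      rw [Finset.sum_div]
      exact Finset.sum_congr rfl fun k _ => (Finset.sum_div _ _ _).symm
    rw [h2, h1, h3, h4]
    ring
  rw [hB]
  have hC : ∑ k ∈ J, (n k * n k) * ∑ k' ∈ J, Cell.G (k - k') ≤ ∑ k ∈ J, (n k * n k) * 7 := by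
    refine Finset.sum_le_sum fun k _ => ?_
    exact mul_le_mul_of_nonneg_left (Cell.sum_G_sub J k) (mul_nonneg (hn0 k) (hn0 k))
  refine hC.trans ?_
  rw [← Finset.sum_mul]
  have hD : (0 : ℝ) ≤ ∑ k ∈ J, n k * n k :=
    Finset.sum_nonneg fun k _ => mul_nonneg (hn0 k) (hn0 k)
  linarith

end H332B
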