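import Pool.Agent.H332B.Defs

/-! # Pair correlation: dyadic iteration -/

open Complex Filter Topology Set MeasureTheory
open scoped BigOperators

namespace H332B

namespace Iter

theorem mem_Z0 (T : ℝ) (s : ℂ) : s ∈ H343.ZSide.Z0 T ↔
    0 < s.re ∧ s.re < 1 ∧ 0 < s.im ∧ s.im ≤ T ∧ riemannZeta s = 0 := by
  unfold H343.ZSide.Z0
  rw [Set.Finite.mem_toFinset]
  rfl

theorem mz_nonneg (s : ℂ) : 0 ≤ H343.ZSide.mz s := by
  unfold H343.ZSide.mz
  exact Nat.cast_nonneg _

theorem Wc_nonneg (T a b : ℝ) : 0 ≤ Wc T a b := by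
  unfold Wc
  exact Finset.sum_nonneg (fun s _ => mz_nonneg s)

/-- total number of zeros -/
noncomputable def tot (T : ℝ) : ℝ := ∑ s ∈ H343.ZSide.Z0 T, H343.ZSide.mz s

theorem tot_nonneg (T : ℝ) : 0 ≤ tot T := Finset.sum_nonneg (fun s _ => mz_nonneg s)

theorem tot_mono {T T' : ℝ} (h : T ≤ T') : tot T ≤ tot T' := by
  unfold tot
  refine Finset.sum_le_sum_of_subset_of_nonneg ?_ (fun s _ _ => mz_nonneg s)
  intro s hs
  rw [mem_Z0] at hs ⊢
  exact ⟨hs.1, hs.2.1, hs.2.2.1, hs.2.2.2.1.trans h, hs.2.2.2.2⟩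

theorem N2_le_tot (T w : ℝ) : N2 T w ≤ (tot T) ^ 2 := by
  unfold N2 tot
  rw [sq, Finset.sum_mul_sum]
  refine Finset.sum_le_sum (fun s _ => Finset.sum_le_sum (fun s' _ => ?_))
  have := mul_nonneg (mz_nonneg s) (mz_nonneg s')
  split_ifs
  · exact le_rfl
  · exact this

theorem X_le {V T : ℝ} (hV : 1 ≤ V) (hVT : V ≤ T) :
    X V ≤ V * (Real.log T / (2 * Real.pi)) := by
  unfold X
  have hpi := Real.pi_pos
  rw [mul_div_assoc]
  have h1 : Real.log V ≤ Real.log T := Real.log_le_log (by linarith) hVT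
  gcongr

end Iter

open Iter in
theorem iter : S_ITER := by
  rintro ⟨C, T0, hC, hT0, hWC⟩ hstep w K V0 hK hV0 hyp η hη
  set V1 : ℝ := max V0 (max T0 20) with hV1
  have v0 : V0 ≤ V1 := le_max_left _ _
  have v1 : T0 ≤ V1 := (le_max_left _ _).trans (le_max_right _ _)
  have v2 : (20 : ℝ) ≤ V1 := (le_max_right _ _).trans (le_max_right _ _)
  have hpi := Real.pi_pos
  -- one step
  have one : ∀ T T' : ℝ, T' ≤ T → V1 ≤ T' / 2 →
      N2 T' (w T) ≤ N2 (T' / 2) (w T) + K * (T' / 2 * (Real.log T / (2 * Real.pi))) +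
        2 * (C * Real.log T) ^ 2 := by
    intro T T' hTT hVT
    obtain ⟨w0, w1, U1, U2, hR, hB⟩ := hyp T (T' / 2) (v0.trans hVT) (by linarith)
    have h1 := hstep T' (w T) U1 U2 (by linarith) w0 w1 hR
    have hlog : Real.log T' ≤ Real.log T := Real.log_le_log (by linarith) hTT
    have hlog0 : 0 ≤ Real.log T' := Real.log_nonneg (by linarith)
    have h2 : Wc T' (T' / 2 - 1) (T' / 2 + 2) ≤ C * Real.log T :=
      (hWC T' (T' / 2 - 1) (T' / 2 + 2) (by linarith) (by linarith) (by linarith)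
        (by linarith)).trans (by gcongr)
    have h3 : Wc T' (T' - 2) T' ≤ C * Real.log T :=
      (hWC T' (T' - 2) T' (by linarith) (by linarith) (by linarith) le_rfl).trans (by gcongr)
    have h4 : (Wc T' (T' / 2 - 1) (T' / 2 + 2)) ^ 2 ≤ (C * Real.log T) ^ 2 :=
      pow_le_pow_left₀ (Wc_nonneg _ _ _) h2 2
    have h5 : (Wc T' (T' - 2) T') ^ 2 ≤ (C * Real.log T) ^ 2 :=
      pow_le_pow_left₀ (Wc_nonneg _ _ _) h3 2
    have h6 : K * X (T' / 2) ≤ K * (T' / 2 * (Real.log T / (2 * Real.pi))) :=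
      mul_le_mul_of_nonneg_left (X_le (by linarith) (by linarith)) hK
    linarith
  -- iteration
  have it : ∀ T : ℝ, 0 < T → ∀ j : ℕ, V1 ≤ T / 2 ^ j →
      N2 T (w T) ≤ N2 (T / 2 ^ j) (w T) + K * ((T - T / 2 ^ j) * (Real.log T / (2 * Real.pi))) +
        (j : ℝ) * (2 * (C * Real.log T) ^ 2) := by
    intro T hT j
    induction j with
    | zero =>
      intro _
      simp
    | succ j ih =>
      intro hj
      have e1 : T / 2 ^ (j + 1) = T / 2 ^ j / 2 := by
        rw [pow_succ]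
        field_simp
      rw [e1] at hj ⊢
      have hj' : V1 ≤ T / 2 ^ j := by linarith
      have h1 := ih hj'
      have h2 := one T (T / 2 ^ j) (div_le_self hT.le (one_le_pow₀ (by norm_num))) hj
      push_cast
      nlinarith [h1, h2]
  -- the end
  set K0 : ℝ := (tot (2 * V1)) ^ 2 with hK0
  have hK0n : 0 ≤ K0 := by positivity
  have lim : Tendsto (fun T : ℝ => K0 / T + 4 * C ^ 2 * (Real.log T ^ 3 / T)) atTop (𝓝 0) := by
    have l1 : Tendsto (fun T : ℝ => K0 / T) atTop (𝓝 0) := tendsto_const_nhds.div_atTop tendsto_id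
    have l2 : Tendsto (fun T : ℝ => Real.log T ^ 3 / T) atTop (𝓝 0) :=
      (Real.isLittleO_pow_log_id_atTop (n := 3)).tendsto_div_nhds_zero
    have l3 := l1.add (l2.const_mul (4 * C ^ 2))
    simpa using l3
  have hev : ∀ᶠ T : ℝ in atTop, K0 / T + 4 * C ^ 2 * (Real.log T ^ 3 / T) ≤ η / (2 * Real.pi) :=
    (lim.eventually_lt_const (by positivity)).mono (fun T hT => hT.le)
  obtain ⟨T2, hT2⟩ := eventually_atTop.1 hev
  refine ⟨max T2 (V1 + 3), fun T hT => ?_⟩
  have hTa : T2 ≤ T := (le_max_left _ _).trans hT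
  have hTb : V1 + 3 ≤ T := (le_max_right _ _).trans hT
  have hTpos : 0 < T := by linarith
  obtain ⟨J, hJ1, hJ2⟩ := exists_nat_pow_near (x := T / V1) (y := 2)
    (by rw [one_le_div (by linarith)]; linarith) (by norm_num)
  have hV1pos : 0 < V1 := by linarith
  have h2J : (0 : ℝ) < 2 ^ J := by positivity
  have k1 : V1 ≤ T / 2 ^ J := by
    rw [le_div_iff₀ h2J, mul_comm]
    rw [le_div_iff₀ hV1pos] at hJ1
    exact hJ1
  have k2 : T / 2 ^ J ≤ 2 * V1 := by
    rw [div_le_iff₀ h2J]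
    rw [div_lt_iff₀ hV1pos, pow_succ] at hJ2
    nlinarith
  have hlogT : 1 ≤ Real.log T := by
    rw [Real.le_log_iff_exp_le hTpos]
    have := Real.exp_one_lt_d9
    linarith
  have k3 : (J : ℝ) ≤ 2 * Real.log T := by
    have a1 : (2 : ℝ) ^ J ≤ T := by
      rw [le_div_iff₀ hV1pos] at hJ1
      nlinarith
    have a2 : (J : ℝ) * Real.log 2 ≤ Real.log T := by
      have := Real.log_le_log h2J a1
      rwa [Real.log_pow] at this
    have a3 := Real.log_two_gt_d9
    have a4 : (0 : ℝ) ≤ J := Nat.cast_nonneg _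
    nlinarith
  have k4 := it T hTpos J k1
  have k5 : N2 (T / 2 ^ J) (w T) ≤ K0 :=
    (N2_le_tot _ _).trans (pow_le_pow_left₀ (tot_nonneg _) (tot_mono k2) 2)
  have k6 : K * ((T - T / 2 ^ J) * (Real.log T / (2 * Real.pi))) ≤ K * X T := by
    refine mul_le_mul_of_nonneg_left ?_ hK
    unfold X
    rw [mul_div_assoc]
    have : 0 ≤ T / 2 ^ J := by positivity
    have hL : 0 ≤ Real.log T / (2 * Real.pi) := by positivity
    nlinarith
  have k7 : (J : ℝ) * (2 * (C * Real.log T) ^ 2) ≤ 4 * C ^ 2 * Real.log T ^ 3 := by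
    have a1 : (0 : ℝ) ≤ 2 * (C * Real.log T) ^ 2 := by positivity
    calc (J : ℝ) * (2 * (C * Real.log T) ^ 2) ≤ (2 * Real.log T) * (2 * (C * Real.log T) ^ 2) :=
          mul_le_mul_of_nonneg_right k3 a1
      _ = 4 * C ^ 2 * Real.log T ^ 3 := by ring
  have k8 : K0 + 4 * C ^ 2 * Real.log T ^ 3 ≤ η * X T := by
    have a1 := hT2 T hTa
    have a2 : K0 + 4 * C ^ 2 * Real.log T ^ 3 =
        T * (K0 / T + 4 * C ^ 2 * (Real.log T ^ 3 / T)) := by
      field_simp
    rw [a2]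
    have a3 : T * (K0 / T + 4 * C ^ 2 * (Real.log T ^ 3 / T)) ≤ T * (η / (2 * Real.pi)) :=
      mul_le_mul_of_nonneg_left a1 hTpos.le
    have a4 : T * (η / (2 * Real.pi)) ≤ η * X T := by
      unfold X
      have a5 : η * (T * Real.log T / (2 * Real.pi)) = T * (η / (2 * Real.pi)) * Real.log T := by
        field_simp
      rw [a5]
      exact le_mul_of_one_le_right (by positivity) hlogT
    linarith
  have k9 : (K + η) * X T = K * X T + η * X T := by ring
  rw [k9]
  linarith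

end H332B
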