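import Pool.Agent.H332B.Defs

/-! # Pair correlation: one dyadic step for pairs -/

open Complex Filter Topology Set MeasureTheory
open scoped BigOperators

namespace H332B

namespace Step

theorem mem_Z0 (T : ℝ) (s : ℂ) : s ∈ H343.ZSide.Z0 T ↔
    0 < s.re ∧ s.re < 1 ∧ 0 < s.im ∧ s.im ≤ T ∧ riemannZeta s = 0 := by
  unfold H343.ZSide.Z0
  rw [Set.Finite.mem_toFinset]
  rfl

theorem mem_Zb (U1 U2 : ℝ) (hU : 1 ≤ U1) (s : ℂ) : s ∈ Zb U1 U2 ↔
    0 < s.re ∧ s.re < 1 ∧ U1 < s.im ∧ s.im ≤ U2 ∧ riemannZeta s = 0 := by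
  unfold Zb
  rw [H370.mem_Zf H370.good_zeta hU]
  rfl

theorem mz_nonneg (s : ℂ) : 0 ≤ H343.ZSide.mz s := by
  unfold H343.ZSide.mz
  exact Nat.cast_nonneg _

/-- `x` if `P` holds and `0` otherwise -/
noncomputable def ind (P : Prop) (x : ℝ) : ℝ := by
  classical
  exact if P then x else 0

theorem ind_pos {P : Prop} (h : P) (x : ℝ) : ind P x = x := by
  unfold ind
  exact if_pos h

theorem ind_neg {P : Prop} (h : ¬ P) (x : ℝ) : ind P x = 0 := by
  unfold ind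
  exact if_neg h

theorem ind_nonneg (P : Prop) {x : ℝ} (hx : 0 ≤ x) : 0 ≤ ind P x := by
  by_cases h : P
  · rw [ind_pos h]; exact hx
  · rw [ind_neg h]

theorem ite_eq_ind (P : Prop) [Decidable P] (x : ℝ) : (if P then x else 0) = ind P x := by
  by_cases h : P
  · rw [ind_pos h, if_pos h]
  · rw [ind_neg h, if_neg h]

theorem sum_filter2 (Z : Finset ℂ) (P : ℂ → Prop) [DecidablePred P] (f : ℂ → ℂ → ℝ) :
    ∑ s ∈ Z.filter P, ∑ s' ∈ Z.filter P, f s s' =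
      ∑ s ∈ Z, ∑ s' ∈ Z, ind (P s ∧ P s') (f s s') := by
  rw [Finset.sum_filter]
  refine Finset.sum_congr rfl (fun s _ => ?_)
  by_cases h : P s
  · rw [if_pos h, Finset.sum_filter]
    refine Finset.sum_congr rfl (fun s' _ => ?_)
    rw [ite_eq_ind]
    simp only [h, true_and]
  · rw [if_neg h]
    symm
    refine Finset.sum_eq_zero (fun s' _ => ?_)
    rw [ind_neg (fun hh => h hh.1)]

end Step

open Step in
open Classical in
theorem step : S_STEP := by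
  intro T w U1 U2 hT hw0 hw1 hR
  obtain ⟨r1, r2, r3, r4⟩ := hR
  set Z := H343.ZSide.Z0 T with hZ
  set m := H343.ZSide.mz with hm
  have e1 : H343.ZSide.Z0 (T / 2) = Z.filter (fun s => s.im ≤ T / 2) := by
    ext s
    rw [Finset.mem_filter, mem_Z0, hZ, mem_Z0]
    constructor
    · rintro ⟨a1, a2, a3, a4, a5⟩
      exact ⟨⟨a1, a2, a3, by linarith, a5⟩, a4⟩
    · rintro ⟨⟨a1, a2, a3, -, a5⟩, a4⟩
      exact ⟨a1, a2, a3, a4, a5⟩
  have e2 : Zb U1 U2 = Z.filter (fun s => U1 < s.im ∧ s.im ≤ U2) := by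
    ext s
    rw [Finset.mem_filter, mem_Zb U1 U2 (by linarith), hZ, mem_Z0]
    constructor
    · rintro ⟨a1, a2, a3, a4, a5⟩
      exact ⟨⟨a1, a2, by linarith, by linarith, a5⟩, a3, a4⟩
    · rintro ⟨⟨a1, a2, -, -, a5⟩, a3, a4⟩
      exact ⟨a1, a2, a3, a4, a5⟩
  have f0 : N2 T w = ∑ s ∈ Z, ∑ s' ∈ Z, ind (|s.im - s'.im| ≤ w) (m s * m s') := by
    unfold N2
    refine Finset.sum_congr rfl (fun s _ => Finset.sum_congr rfl (fun s' _ => ?_))
    exact ite_eq_ind _ _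
  have f1 : N2 (T / 2) w = ∑ s ∈ Z, ∑ s' ∈ Z, ind (s.im ≤ T / 2 ∧ s'.im ≤ T / 2)
      (ind (|s.im - s'.im| ≤ w) (m s * m s')) := by
    rw [← sum_filter2 Z (fun s => s.im ≤ T / 2)
      (fun s s' => ind (|s.im - s'.im| ≤ w) (m s * m s')), ← e1]
    unfold N2
    refine Finset.sum_congr rfl (fun s _ => Finset.sum_congr rfl (fun s' _ => ?_))
    exact ite_eq_ind _ _
  have f2 : BP U1 U2 w = ∑ s ∈ Z, ∑ s' ∈ Z,
      ind ((U1 < s.im ∧ s.im ≤ U2) ∧ (U1 < s'.im ∧ s'.im ≤ U2))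
      (ind (|s.im - s'.im| ≤ w) (m s * m s')) := by
    rw [← sum_filter2 Z (fun s => U1 < s.im ∧ s.im ≤ U2)
      (fun s s' => ind (|s.im - s'.im| ≤ w) (m s * m s')), ← e2]
    unfold BP
    refine Finset.sum_congr rfl (fun s _ => Finset.sum_congr rfl (fun s' _ => ?_))
    exact ite_eq_ind _ _
  have f3 : ∀ a b : ℝ, (Wc T a b) ^ 2 = ∑ s ∈ Z, ∑ s' ∈ Z,
      ind ((a < s.im ∧ s.im ≤ b) ∧ (a < s'.im ∧ s'.im ≤ b)) (m s * m s') := by
    intro a b
    rw [← sum_filter2 Z (fun s => a < s.im ∧ s.im ≤ b) (fun s s' => m s * m s'), sq]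
    have : Wc T a b = ∑ s ∈ Z.filter (fun s => a < s.im ∧ s.im ≤ b), m s := by
      unfold Wc
      refine Finset.sum_congr ?_ (fun _ _ => rfl)
      ext s
      simp only [Finset.mem_filter]
      rfl
    rw [this, Finset.sum_mul_sum]
  rw [f0, f1, f2, f3, f3]
  simp only [← Finset.sum_add_distrib]
  refine Finset.sum_le_sum (fun s hs => Finset.sum_le_sum (fun s' hs' => ?_))
  rw [hZ, mem_Z0] at hs hs'
  have g1 : s.im ≤ T := hs.2.2.2.1
  have g2 : s'.im ≤ T := hs'.2.2.2.1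
  have hmm : 0 ≤ m s * m s' := mul_nonneg (mz_nonneg s) (mz_nonneg s')
  have q3 := ind_nonneg ((T / 2 - 1 < s.im ∧ s.im ≤ T / 2 + 2) ∧
    (T / 2 - 1 < s'.im ∧ s'.im ≤ T / 2 + 2)) hmm
  have q4 := ind_nonneg ((T - 2 < s.im ∧ s.im ≤ T) ∧ (T - 2 < s'.im ∧ s'.im ≤ T)) hmm
  have hmi : 0 ≤ ind (|s.im - s'.im| ≤ w) (m s * m s') := ind_nonneg _ hmm
  have q1 := ind_nonneg (s.im ≤ T / 2 ∧ s'.im ≤ T / 2) hmi
  have q2 := ind_nonneg ((U1 < s.im ∧ s.im ≤ U2) ∧ (U1 < s'.im ∧ s'.im ≤ U2)) hmi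
  by_cases h0 : |s.im - s'.im| ≤ w
  · rw [ind_pos h0] at q1 q2 ⊢
    rw [abs_le] at h0
    obtain ⟨h1, h2⟩ := h0
    by_cases c1 : s.im ≤ T / 2 ∧ s'.im ≤ T / 2
    · rw [ind_pos c1] at q1 ⊢
      linarith
    by_cases c2 : (U1 < s.im ∧ s.im ≤ U2) ∧ (U1 < s'.im ∧ s'.im ≤ U2)
    · rw [ind_pos c2] at q2 ⊢
      linarith
    by_cases c3 : (T / 2 - 1 < s.im ∧ s.im ≤ T / 2 + 2) ∧ (T / 2 - 1 < s'.im ∧ s'.im ≤ T / 2 + 2)
    · rw [ind_pos c3] at q3 ⊢
      linarith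
    · have c4 : (T - 2 < s.im ∧ s.im ≤ T) ∧ (T - 2 < s'.im ∧ s'.im ≤ T) := by
        by_contra c4
        have n1 : ¬ (s.im ≤ T / 2) ∨ ¬ (s'.im ≤ T / 2) := by
          by_contra hcon
          push Not at hcon
          exact c1 hcon
        -- both are larger than `T / 2 - 1`
        have l1 : T / 2 - 1 < s.im := by
          rcases n1 with n | n <;> linarith [not_le.1 n]
        have l2 : T / 2 - 1 < s'.im := by
          rcases n1 with n | n <;> linarith [not_le.1 n]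
        have l3 : T / 2 + 2 < s.im ∨ T / 2 + 2 < s'.im := by
          by_contra hcon
          push Not at hcon
          exact c3 ⟨⟨l1, hcon.1⟩, ⟨l2, hcon.2⟩⟩
        have l4 : U1 < s.im := by
          rcases l3 with n | n <;> linarith
        have l5 : U1 < s'.im := by
          rcases l3 with n | n <;> linarith
        have l6 : U2 < s.im ∨ U2 < s'.im := by
          by_contra hcon
          push Not at hcon
          exact c2 ⟨⟨l4, hcon.1⟩, ⟨l5, hcon.2⟩⟩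
        apply c4
        rcases l6 with n | n
        · exact ⟨⟨by linarith, g1⟩, ⟨by linarith, g2⟩⟩
        · exact ⟨⟨by linarith, g1⟩, ⟨by linarith, g2⟩⟩
      rw [ind_pos c4] at q4 ⊢
      linarith
  · rw [ind_neg h0] at q1 q2 ⊢
    linarith

end H332B
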