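import Pool.Agent.H332B.Defs

open Complex Filter Topology Set MeasureTheory
open scoped BigOperators

namespace H332B

theorem wc : S_WC := by
  classical
  obtain ⟨C, hC, hz⟩ := H370.zcount H370.good_zeta
  refine ⟨4 * C, 10, by positivity, le_rfl, fun T a b hT ha hb hbT => ?_⟩
  have hlogT : 0 ≤ Real.log T := Real.log_nonneg (by linarith)
  rcases le_or_gt b a with hab | hab
  · have h0 : Wc T a b = 0 := by
      unfold Wc
      rw [Finset.filter_false_of_mem, Finset.sum_empty]
      rintro s - ⟨h1, h2⟩
      linarith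
    rw [h0]
    positivity
  · have hf1 := H370.zset_finite H370.good_zeta a (a + 2) (by linarith)
    have hf2 := H370.zset_finite H370.good_zeta (a + 2) (a + 4) (by linarith)
    have hN1 : (H370.NN riemannZeta a (a + 2) : ℝ) = ∑ s ∈ hf1.toFinset, H343.ZSide.mz s := by
      have : H370.NN riemannZeta a (a + 2) = ∑ s ∈ hf1.toFinset, H370.mult riemannZeta s := by
        unfold H370.NN
        exact finsum_mem_eq_finite_toFinset_sum _ hf1
      rw [this]
      push_cast
      rfl
    have hN2 : (H370.NN riemannZeta (a + 2) (a + 4) : ℝ) =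
        ∑ s ∈ hf2.toFinset, H343.ZSide.mz s := by
      have : H370.NN riemannZeta (a + 2) (a + 4) =
          ∑ s ∈ hf2.toFinset, H370.mult riemannZeta s := by
        unfold H370.NN
        exact finsum_mem_eq_finite_toFinset_sum _ hf2
      rw [this]
      push_cast
      rfl
    have h1 := hz (a + 1) (by linarith)
    have h2 := hz (a + 3) (by linarith)
    rw [show a + 1 - 1 = a by ring, show a + 1 + 1 = a + 2 by ring, hN1] at h1
    rw [show a + 3 - 1 = a + 2 by ring, show a + 3 + 1 = a + 4 by ring, hN2] at h2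
    have hl1 : Real.log (a + 1) ≤ 2 * Real.log T := by
      have h3 : Real.log (a + 1) ≤ Real.log (T ^ 2) :=
        Real.log_le_log (by linarith) (by nlinarith)
      rw [Real.log_pow] at h3
      exact_mod_cast h3
    have hl2 : Real.log (a + 3) ≤ 2 * Real.log T := by
      have h3 : Real.log (a + 3) ≤ Real.log (T ^ 2) :=
        Real.log_le_log (by linarith) (by nlinarith)
      rw [Real.log_pow] at h3
      exact_mod_cast h3
    have hmz : ∀ s, 0 ≤ H343.ZSide.mz s := fun s => Nat.cast_nonneg _
    have hsub : (H343.ZSide.Z0 T).filter (fun s => a < s.im ∧ s.im ≤ b) ⊆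
        hf1.toFinset ∪ hf2.toFinset := by
      intro s hs
      rw [Finset.mem_filter] at hs
      obtain ⟨hs0, hsa, hsb⟩ := hs
      unfold H343.ZSide.Z0 at hs0
      rw [Set.Finite.mem_toFinset] at hs0
      obtain ⟨a1, a2, a3, a4, a5⟩ := hs0
      rw [Finset.mem_union, Set.Finite.mem_toFinset, Set.Finite.mem_toFinset]
      rcases le_or_gt s.im (a + 2) with h3 | h3
      · exact Or.inl ⟨a1, a2, hsa, h3, a5⟩
      · exact Or.inr ⟨a1, a2, h3, by linarith, a5⟩
    have hW : Wc T a b ≤ ∑ s ∈ hf1.toFinset, H343.ZSide.mz s +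
        ∑ s ∈ hf2.toFinset, H343.ZSide.mz s := by
      unfold Wc
      refine (Finset.sum_le_sum_of_subset_of_nonneg hsub (fun s _ _ => hmz s)).trans ?_
      have h4 := Finset.sum_union_inter (s₁ := hf1.toFinset) (s₂ := hf2.toFinset)
        (f := fun s => H343.ZSide.mz s)
      have h5 : 0 ≤ ∑ s ∈ hf1.toFinset ∩ hf2.toFinset, H343.ZSide.mz s :=
        Finset.sum_nonneg fun s _ => hmz s
      linarith
    have h6 : C * Real.log (a + 1) ≤ C * (2 * Real.log T) := by gcongr
    have h7 : C * Real.log (a + 3) ≤ C * (2 * Real.log T) := by gcongr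
    linarith

end H332B
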