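import Pool.Agent.H332B.BPm
import Pool.Agent.H332B.WC
import Pool.Agent.H332B.Step
import Pool.Agent.H332B.Iter

open Complex Filter Topology Set MeasureTheory
open scoped BigOperators

namespace H332B

theorem fin : S_FIN := by
  intro hRH
  obtain ⟨V0, hV0, h⟩ := bpm hRH
  have hw : ∀ T V : ℝ, V0 ≤ V → 2 * V ≤ T → 0 ≤ Real.pi / (100 * Real.log T) ∧
      Real.pi / (100 * Real.log T) ≤ 1 ∧
      ∃ U1 U2 : ℝ, Rng V U1 U2 ∧ BP U1 U2 (Real.pi / (100 * Real.log T)) ≤
        13169 / 10000 * X V := by
    intro T V hV hVT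
    have hπ := Real.pi_pos
    have hπ4 := Real.pi_le_four
    have hT : 20 ≤ T := by linarith
    have hlogT : 1 ≤ Real.log T := by
      rw [Real.le_log_iff_exp_le (by linarith)]
      have := Real.exp_one_lt_d9
      linarith
    have h0 : 0 ≤ Real.pi / (100 * Real.log T) := by positivity
    refine ⟨h0, ?_, ?_⟩
    · rw [div_le_one (by positivity)]
      linarith
    · obtain ⟨U1, U2, hR, hb⟩ := h V hV
      refine ⟨U1, U2, hR, hb _ h0 ?_⟩
      have hlogV : Real.log V ≤ Real.log T := Real.log_le_log (by linarith) (by linarith)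
      rw [div_mul_eq_mul_div, div_le_div_iff₀ (by positivity) (by norm_num)]
      nlinarith
  obtain ⟨T1, hT1⟩ := iter wc step (fun T => Real.pi / (100 * Real.log T)) (13169 / 10000) V0
    (by norm_num) hV0 hw (1 / 10000) (by norm_num)
  refine ⟨T1, fun T hT => ?_⟩
  have := hT1 T hT
  norm_num at this ⊢
  exact this

end H332B
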