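import Pool.Agent.H332B.Defs2

open Complex Filter Topology Set MeasureTheory
open scoped BigOperators

namespace H332B

lemma WPC.re_half (hRH : RiemannHypothesis) (T : ℝ) : ∀ s ∈ H343.ZSide.Z0 T, s.re = 1 / 2 := by
  intro z hz
  unfold H343.ZSide.Z0 at hz
  rw [Set.Finite.mem_toFinset] at hz
  obtain ⟨h1, h2, h3, h4, h5⟩ := hz
  refine hRH z h5 ?_ ?_
  · rintro ⟨n, hn⟩
    rw [hn] at h3
    simp at h3
  · rintro rfl
    simp at h3

theorem wpc : S_WPC := by
  intro hRH T u
  unfold Wp K2 H343.PPair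
  rw [Complex.re_sum]
  refine Finset.sum_congr rfl (fun s hs => ?_)
  rw [Complex.re_sum]
  refine Finset.sum_congr rfl (fun s' hs' => ?_)
  have e : s + (starRingEnd ℂ) s' - 1 = ((s.im - s'.im : ℝ) : ℂ) * I := by
    apply Complex.ext
    · simp [WPC.re_half hRH T s hs, WPC.re_half hRH T s' hs']
      norm_num
    · simp
      ring
  have e2 : H343.kW (((s.im - s'.im : ℝ) : ℂ) * I) =
      ((4 / (4 + (s.im - s'.im) ^ 2) : ℝ) : ℂ) := by
    unfold H343.kW
    rw [mul_pow, Complex.I_sq]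
    push_cast
    ring
  have e3 : cexp (u * (((s.im - s'.im : ℝ) : ℂ) * I)) = cexp (((u * (s.im - s'.im) : ℝ) : ℂ) * I) := by
    congr 1
    push_cast
    ring
  rw [e, e2, e3, Complex.re_ofReal_mul, mul_comm (cexp _), Complex.re_ofReal_mul,
    Complex.exp_ofReal_mul_I_re]

end H332B
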