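import Pool.Agent.H332B.Defs2
import Pool.Agent.H332B.WPC
import Pool.Agent.H332B.Cell
import Pool.Agent.H332B.Fin

open Complex Filter Topology Set MeasureTheory
open scoped BigOperators

namespace H332B

namespace BD

lemma gint (y c : ℝ) : Integrable (fun x : ℝ => Real.exp (-(x - c) ^ 2) * Real.cos (x * y)) := by
  have h1 : Integrable (fun x : ℝ => Real.exp (-(1 : ℝ) * x ^ 2)) :=
    integrable_exp_neg_mul_sq (by norm_num)
  have h2 := h1.comp_sub_right c
  refine Integrable.mono' h2 ?_ ?_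
  · exact (by fun_prop : Continuous fun x : ℝ =>
      Real.exp (-(x - c) ^ 2) * Real.cos (x * y)).aestronglyMeasurable
  · refine Eventually.of_forall (fun x => ?_)
    rw [Real.norm_eq_abs, abs_mul, abs_of_pos (Real.exp_pos _)]
    calc Real.exp (-(x - c) ^ 2) * |Real.cos (x * y)| ≤ Real.exp (-(x - c) ^ 2) * 1 :=
          mul_le_mul_of_nonneg_left (Real.abs_cos_le_one _) (Real.exp_pos _).le
      _ = Real.exp (-1 * (x - c) ^ 2) := by rw [mul_one]; congr 1; ring

lemma gauss0 (y c : ℝ) : ∫ x : ℝ, Real.exp (-x ^ 2) * Real.cos ((x + c) * y) =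
    Real.sqrt Real.pi * (Real.cos (c * y) * Real.exp (-y ^ 2 / 4)) := by
  have h := fourierIntegral_gaussian (b := 1) (by norm_num) (y : ℂ)
  have h2 : ∫ x : ℝ, cexp (I * y * (x + c)) * cexp (-1 * x ^ 2) =
      cexp (I * y * c) * ((Real.pi / 1 : ℂ) ^ (1 / 2 : ℂ) * cexp (-(y : ℂ) ^ 2 / (4 * 1))) := by
    rw [← h, ← MeasureTheory.integral_const_mul]
    congr 1
    ext x
    rw [mul_add, Complex.exp_add]
    ring
  have hre : ∀ x : ℝ, (cexp (I * y * (x + c)) * cexp (-1 * x ^ 2)).re =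
      Real.exp (-x ^ 2) * Real.cos ((x + c) * y) := by
    intro x
    have e1 : cexp (-1 * (x : ℂ) ^ 2) = ((Real.exp (-x ^ 2) : ℝ) : ℂ) := by
      rw [Complex.ofReal_exp]
      congr 1
      push_cast
      ring
    have e2 : cexp (I * y * (x + c)) = cexp ((((x + c) * y : ℝ) : ℂ) * I) := by
      congr 1
      push_cast
      ring
    rw [e1, e2, mul_comm, Complex.re_ofReal_mul, Complex.exp_ofReal_mul_I_re]
  have hint : Integrable (fun x : ℝ => cexp (I * y * (x + c)) * cexp (-1 * x ^ 2)) := by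
    have h1 : Integrable (fun x : ℝ => Real.exp (-(1 : ℝ) * x ^ 2)) :=
      integrable_exp_neg_mul_sq (by norm_num)
    refine Integrable.mono' h1 ?_ ?_
    · exact (by fun_prop : Continuous fun x : ℝ =>
        cexp (I * y * (x + c)) * cexp (-1 * x ^ 2)).aestronglyMeasurable
    · refine Eventually.of_forall (fun x => ?_)
      rw [norm_mul, Complex.norm_exp, Complex.norm_exp]
      have e1 : (I * (y : ℂ) * ((x : ℂ) + c)).re = 0 := by
        simp [Complex.mul_re, Complex.mul_im]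
      have e2 : (-1 * (x : ℂ) ^ 2).re = -1 * x ^ 2 := by
        rw [show (-1 * (x : ℂ) ^ 2) = ((-1 * x ^ 2 : ℝ) : ℂ) by push_cast; ring, Complex.ofReal_re]
      rw [e1, e2, Real.exp_zero, one_mul]
  have h3 : ∫ x : ℝ, Real.exp (-x ^ 2) * Real.cos ((x + c) * y) =
      (∫ x : ℝ, cexp (I * y * (x + c)) * cexp (-1 * x ^ 2)).re := by
    have := integral_re (𝕜 := ℂ) hint
    simp only [RCLike.re_to_complex] at this
    rw [← this]
    congr 1
    ext x
    rw [hre]
  rw [h3, h2]
  have e1 : ((Real.pi / 1 : ℂ)) ^ (1 / 2 : ℂ) = ((Real.sqrt Real.pi : ℝ) : ℂ) := by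
    rw [div_one, Real.sqrt_eq_rpow, Complex.ofReal_cpow Real.pi_pos.le]
    norm_num
  have e2 : cexp (-(y : ℂ) ^ 2 / (4 * 1)) = ((Real.exp (-y ^ 2 / 4) : ℝ) : ℂ) := by
    rw [Complex.ofReal_exp]
    congr 1
    push_cast
    ring
  have e3 : cexp (I * y * c) = cexp (((c * y : ℝ) : ℂ) * I) := by
    congr 1
    push_cast
    ring
  rw [e1, e2, e3, ← Complex.ofReal_mul, mul_comm, Complex.re_ofReal_mul,
    Complex.exp_ofReal_mul_I_re]
  ring

lemma gauss (y c : ℝ) : ∫ x : ℝ, Real.exp (-(x - c) ^ 2) * Real.cos (x * y) =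
    Real.sqrt Real.pi * (Real.cos (c * y) * Real.exp (-y ^ 2 / 4)) := by
  rw [← gauss0 y c, ← integral_sub_right_eq_self (fun x : ℝ =>
    Real.exp (-x ^ 2) * Real.cos ((x + c) * y)) c]
  congr 1
  ext x
  rw [sub_add_cancel]

end BD

theorem bd_of (hW : S_WPC) (hC : S_CELL) (hF : S_FIN) : S_BD := by
  intro hRH
  obtain ⟨T1, hT1⟩ := hF hRH
  set a : ℝ := (Real.pi / 100) ^ 2 / 4 with ha
  have hpi := Real.pi_pos
  have hpi4 : Real.pi ≤ 4 := Real.pi_le_four
  have ha0 : 0 < a := by positivity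
  have ha1 : a ≤ 1 := by rw [ha]; nlinarith
  refine ⟨Real.sqrt Real.pi * (a⁻¹ * (20 * (1317 / 1000))), max T1 3, by positivity,
    fun T c hT => ?_⟩
  have hT3 : (3 : ℝ) ≤ T := le_trans (le_max_right _ _) hT
  have hTT : T1 ≤ T := le_trans (le_max_left _ _) hT
  have hL : 0 < Real.log T := Real.log_pos (by linarith)
  set L := Real.log T with hLdef
  have hmz : ∀ s, 0 ≤ H343.ZSide.mz s := fun s => Nat.cast_nonneg _
  -- rewrite the integrand
  have hrew : (fun α : ℝ => Real.exp (-(α - c) ^ 2) * Wp T (α * L)) = fun α : ℝ =>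
      ∑ s ∈ H343.ZSide.Z0 T, ∑ s' ∈ H343.ZSide.Z0 T,
        (H343.ZSide.mz s * H343.ZSide.mz s' * (4 / (4 + (s.im - s'.im) ^ 2))) *
          (Real.exp (-(α - c) ^ 2) * Real.cos (α * (L * (s.im - s'.im)))) := by
    funext α
    rw [hW hRH]
    unfold K2
    rw [Finset.mul_sum]
    refine Finset.sum_congr rfl (fun s _ => ?_)
    rw [Finset.mul_sum]
    refine Finset.sum_congr rfl (fun s' _ => ?_)
    beta_reduce
    rw [show α * L * (s.im - s'.im) = α * (L * (s.im - s'.im)) by ring]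
    ring
  have hterm : ∀ s s' : ℂ, Integrable (fun α : ℝ =>
      (H343.ZSide.mz s * H343.ZSide.mz s' * (4 / (4 + (s.im - s'.im) ^ 2))) *
          (Real.exp (-(α - c) ^ 2) * Real.cos (α * (L * (s.im - s'.im))))) :=
    fun s s' => (BD.gint _ c).const_mul _
  refine ⟨?_, ?_⟩
  · rw [hrew]
    exact integrable_finsetSum _ (fun s _ => integrable_finsetSum _ (fun s' _ => hterm s s'))
  · rw [hrew, integral_finsetSum _ (fun s _ => integrable_finsetSum _ (fun s' _ => hterm s s'))]
    have h1 : ∀ s ∈ H343.ZSide.Z0 T, (∫ α : ℝ, ∑ s' ∈ H343.ZSide.Z0 T,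
        (H343.ZSide.mz s * H343.ZSide.mz s' * (4 / (4 + (s.im - s'.im) ^ 2))) *
          (Real.exp (-(α - c) ^ 2) * Real.cos (α * (L * (s.im - s'.im))))) ≤
        ∑ s' ∈ H343.ZSide.Z0 T, Real.sqrt Real.pi * a⁻¹ * (H343.ZSide.mz s * H343.ZSide.mz s' *
          (a * Real.exp (-a * ((s.im - s'.im) / (Real.pi / (100 * L))) ^ 2))) := by
      intro s _
      rw [integral_finsetSum _ (fun s' _ => hterm s s')]
      refine Finset.sum_le_sum (fun s' _ => ?_)
      rw [MeasureTheory.integral_const_mul, BD.gauss]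
      set x := s.im - s'.im with hx
      have e1 : a * (x / (Real.pi / (100 * L))) ^ 2 = (L * x) ^ 2 / 4 := by
        rw [ha]
        field_simp
      have e2 : Real.exp (-a * (x / (Real.pi / (100 * L))) ^ 2) = Real.exp (-(L * x) ^ 2 / 4) := by
        congr 1
        rw [neg_mul, e1]
        ring
      rw [e2]
      have hmm : 0 ≤ H343.ZSide.mz s * H343.ZSide.mz s' := mul_nonneg (hmz _) (hmz _)
      have hk : 4 / (4 + x ^ 2) ≤ 1 := by
        rw [div_le_one (by positivity)]
        nlinarith [sq_nonneg x]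
      have hk0 : 0 ≤ 4 / (4 + x ^ 2) := by positivity
      have hcos : Real.cos (c * (L * x)) ≤ 1 := Real.cos_le_one _
      have hE := Real.exp_pos (-(L * x) ^ 2 / 4)
      have e3 : 4 / (4 + x ^ 2) * Real.cos (c * (L * x)) ≤ 1 := by
        calc 4 / (4 + x ^ 2) * Real.cos (c * (L * x)) ≤ 4 / (4 + x ^ 2) * 1 :=
              mul_le_mul_of_nonneg_left hcos hk0
          _ ≤ 1 := by rw [mul_one]; exact hk
      have hsq : 0 ≤ Real.sqrt Real.pi := Real.sqrt_nonneg _
      calc H343.ZSide.mz s * H343.ZSide.mz s' * (4 / (4 + x ^ 2)) *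
            (Real.sqrt Real.pi * (Real.cos (c * (L * x)) * Real.exp (-(L * x) ^ 2 / 4)))
          = (H343.ZSide.mz s * H343.ZSide.mz s' * Real.sqrt Real.pi *
              Real.exp (-(L * x) ^ 2 / 4)) * (4 / (4 + x ^ 2) * Real.cos (c * (L * x))) := by ring
        _ ≤ (H343.ZSide.mz s * H343.ZSide.mz s' * Real.sqrt Real.pi *
              Real.exp (-(L * x) ^ 2 / 4)) * 1 :=
            mul_le_mul_of_nonneg_left e3 (by positivity)
        _ = Real.sqrt Real.pi * a⁻¹ * (H343.ZSide.mz s * H343.ZSide.mz s' *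
              (a * Real.exp (-(L * x) ^ 2 / 4))) := by
            field_simp
    refine (Finset.sum_le_sum h1).trans ?_
    simp only [← Finset.mul_sum]
    have hcell := hC (H343.ZSide.Z0 T) H343.ZSide.mz (Real.pi / (100 * L))
      (fun v => a * Real.exp (-a * v ^ 2)) (by positivity) hmz (by
        intro v
        refine ⟨by positivity, ?_⟩
        have e1 : 1 + a * v ^ 2 ≤ Real.exp (a * v ^ 2) := by
          have := Real.add_one_le_exp (a * v ^ 2)
          linarith
        have e2 : Real.exp (-a * v ^ 2) = (Real.exp (a * v ^ 2))⁻¹ := by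
          rw [← Real.exp_neg]; congr 1; ring
        rw [e2, ← div_eq_mul_inv, div_le_div_iff₀ (Real.exp_pos _) (by positivity)]
        have : a * (1 + v ^ 2) ≤ 1 + a * v ^ 2 := by nlinarith
        linarith)
    have hN : ∑ s ∈ H343.ZSide.Z0 T, ∑ s' ∈ H343.ZSide.Z0 T,
        (if |s.im - s'.im| ≤ Real.pi / (100 * L) then H343.ZSide.mz s * H343.ZSide.mz s' else 0) =
        N2 T (Real.pi / (100 * L)) := by
      unfold N2
      rfl
    rw [hN] at hcell
    have hfin := hT1 T hTT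
    have hX := hcell.trans (mul_le_mul_of_nonneg_left hfin (by norm_num : (0 : ℝ) ≤ 20))
    calc Real.sqrt Real.pi * a⁻¹ * ∑ s ∈ H343.ZSide.Z0 T, ∑ s' ∈ H343.ZSide.Z0 T,
          H343.ZSide.mz s * H343.ZSide.mz s' *
            (a * Real.exp (-a * ((s.im - s'.im) / (Real.pi / (100 * L))) ^ 2))
        ≤ Real.sqrt Real.pi * a⁻¹ * (20 * (1317 / 1000 * X T)) :=
          mul_le_mul_of_nonneg_left hX (by positivity)
      _ = Real.sqrt Real.pi * (a⁻¹ * (20 * (1317 / 1000))) * X T := by ring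

theorem bd : S_BD := bd_of wpc cell fin

end H332B
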