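import Pool.Agent.H332B.Num

set_option maxRecDepth 4000

namespace H332B

namespace P0

theorem c0 (x y : ℝ) (hx : 0 ≤ x) (hy : 0 ≤ y) (h : x + y = (5 : ℝ)) : 0 ≤ Pp ((0 : ℝ) + x) := by
  have hy2 : y = (5 : ℝ) - x := by linarith
  have e : Pp ((0 : ℝ) + x) = (511999999999801 / 40000000000000000000 : ℝ) * (x ^ 0 * y ^ 7) + (4022000725597937 / 40000000000000000000 : ℝ) * (x ^ 1 * y ^ 6) + (12360419264145701 / 40000000000000000000 : ℝ) * (x ^ 2 * y ^ 5) + (11740708902758891 / 24000000000000000000 : ℝ) * (x ^ 3 * y ^ 4) + (3392413027700927 / 8000000000000000000 : ℝ) * (x ^ 4 * y ^ 3) + (7896140959708771 / 40000000000000000000 : ℝ) * (x ^ 5 * y ^ 2) + (16152343341410783 / 360000000000000000000 : ℝ) * (x ^ 6 * y ^ 1) + (1085798948314217 / 280000000000000000000 : ℝ) * (x ^ 7 * y ^ 0) := by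
    unfold Pp
    rw [hy2]
    ring
  rw [e]
  positivity

theorem c1 (x y : ℝ) (hx : 0 ≤ x) (hy : 0 ≤ y) (h : x + y = (5 / 4 : ℝ)) : 0 ≤ Pp ((5 : ℝ) + x) := by
  have hy2 : y = (5 / 4 : ℝ) - x := by linarith
  have e : Pp ((5 : ℝ) + x) = (1085798948314217 / 17089843750000000 : ℝ) * (x ^ 0 * y ^ 7) + (16354304666364491 / 43945312500000000 : ℝ) * (x ^ 1 * y ^ 6) + (26617438208929327 / 29296875000000000 : ℝ) * (x ^ 2 * y ^ 5) + (13953862174386323 / 11718750000000000 : ℝ) * (x ^ 3 * y ^ 4) + (63081164197070993 / 70312500000000000 : ℝ) * (x ^ 4 * y ^ 3) + (90096677372623171 / 234375000000000000 : ℝ) * (x ^ 5 * y ^ 2) + (40186294854864229 / 468750000000000000 : ℝ) * (x ^ 6 * y ^ 1) + (150977245444672289 / 19687500000000000000 : ℝ) * (x ^ 7 * y ^ 0) := by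
    unfold Pp
    rw [hy2]
    ring
  rw [e]
  positivity

theorem c2 (x y : ℝ) (hx : 0 ≤ x) (hy : 0 ≤ y) (h : x + y = (5 / 8 : ℝ)) : 0 ≤ Pp ((25 / 4 : ℝ) + x) := by
  have hy2 : y = (5 / 8 : ℝ) - x := by linarith
  have e : Pp ((25 / 4 : ℝ) + x) = (150977245444672289 / 153808593750000000 : ℝ) * (x ^ 0 * y ^ 7) + (23534885244981277 / 4882812500000000 : ℝ) * (x ^ 1 * y ^ 6) + (272475303717431041 / 29296875000000000 : ℝ) * (x ^ 2 * y ^ 5) + (305036932356012917 / 35156250000000000 : ℝ) * (x ^ 3 * y ^ 4) + (87771249668256043 / 23437500000000000 : ℝ) * (x ^ 4 * y ^ 3) + (115770229149613573 / 234375000000000000 : ℝ) * (x ^ 5 * y ^ 2) + (7985218743152801 / 1406250000000000000 : ℝ) * (x ^ 6 * y ^ 1) + (276700495791439079 / 6562500000000000000 : ℝ) * (x ^ 7 * y ^ 0) := by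
    unfold Pp
    rw [hy2]
    ring
  rw [e]
  positivity

theorem c3 (x y : ℝ) (hx : 0 ≤ x) (hy : 0 ≤ y) (h : x + y = (5 / 8 : ℝ)) : 0 ≤ Pp ((55 / 8 : ℝ) + x) := by
  have hy2 : y = (5 / 8 : ℝ) - x := by linarith
  have e : Pp ((55 / 8 : ℝ) + x) = (276700495791439079 / 6562500000000000000 : ℝ) * (x ^ 0 * y ^ 7) + (205529067157791109 / 351562500000000000 : ℝ) * (x ^ 1 * y ^ 6) + (38745886626567717 / 9765625000000000 : ℝ) * (x ^ 2 * y ^ 5) + (3090773505517123 / 244140625000000 : ℝ) * (x ^ 3 * y ^ 4) + (3877937102272541 / 183105468750000 : ℝ) * (x ^ 4 * y ^ 3) + (738866605689637 / 38146972656250 : ℝ) * (x ^ 5 * y ^ 2) + (175774636416962 / 19073486328125 : ℝ) * (x ^ 6 * y ^ 1) + (239088830321872 / 133514404296875 : ℝ) * (x ^ 7 * y ^ 0) := by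
    unfold Pp
    rw [hy2]
    ring
  rw [e]
  positivity

theorem c4 (x y : ℝ) (hx : 0 ≤ x) (hy : 0 ≤ y) (h : x + y = (5 / 2 : ℝ)) : 0 ≤ Pp ((15 / 2 : ℝ) + x) := by
  have hy2 : y = (5 / 2 : ℝ) - x := by linarith
  have e : Pp ((15 / 2 : ℝ) + x) = (14943051895117 / 136718750000000000 : ℝ) * (x ^ 0 * y ^ 7) + (61543200742689 / 39062500000000000 : ℝ) * (x ^ 1 * y ^ 6) + (343704843702757 / 39062500000000000 : ℝ) * (x ^ 2 * y ^ 5) + (1153345717275619 / 46875000000000000 : ℝ) * (x ^ 3 * y ^ 4) + (1784494765926149 / 46875000000000000 : ℝ) * (x ^ 4 * y ^ 3) + (5189075828652733 / 156250000000000000 : ℝ) * (x ^ 5 * y ^ 2) + (21550630285274329 / 1406250000000000000 : ℝ) * (x ^ 6 * y ^ 1) + (57335001844261843 / 19687500000000000000 : ℝ) * (x ^ 7 * y ^ 0) := by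
    unfold Pp
    rw [hy2]
    ring
  rw [e]
  positivity

theorem c5 (x y : ℝ) (hx : 0 ≤ x) (hy : 0 ≤ y) (h : x + y = (10 : ℝ)) : 0 ≤ Pp ((10 : ℝ) + x) := by
  have hy2 : y = (10 : ℝ) - x := by linarith
  have e : Pp ((10 : ℝ) + x) = (57335001844261843 / 322560000000000000000000 : ℝ) * (x ^ 0 * y ^ 7) + (38089988979704861 / 15360000000000000000000 : ℝ) * (x ^ 1 * y ^ 6) + (207475902835262123 / 15360000000000000000000 : ℝ) * (x ^ 2 * y ^ 5) + (338274272396786063 / 9216000000000000000000 : ℝ) * (x ^ 3 * y ^ 4) + (54198375890082667 / 1024000000000000000000 : ℝ) * (x ^ 4 * y ^ 3) + (602288859895969543 / 15360000000000000000000 : ℝ) * (x ^ 5 * y ^ 2) + (600543788467872283 / 46080000000000000000000 : ℝ) * (x ^ 6 * y ^ 1) + (166383086911745941 / 107520000000000000000000 : ℝ) * (x ^ 7 * y ^ 0) := by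
    unfold Pp
    rw [hy2]
    ring
  rw [e]
  positivity

theorem c6 (x y : ℝ) (hx : 0 ≤ x) (hy : 0 ≤ y) (h : x + y = (5 / 2 : ℝ)) : 0 ≤ Pp ((20 : ℝ) + x) := by
  have hy2 : y = (5 / 2 : ℝ) - x := by linarith
  have e : Pp ((20 : ℝ) + x) = (166383086911745941 / 6562500000000000000 : ℝ) * (x ^ 0 * y ^ 7) + (59225078600259901 / 351562500000000000 : ℝ) * (x ^ 1 * y ^ 6) + (73703984308314503 / 156250000000000000 : ℝ) * (x ^ 2 * y ^ 5) + (1405133516289231 / 1953125000000000 : ℝ) * (x ^ 3 * y ^ 4) + (30150484805392199 / 46875000000000000 : ℝ) * (x ^ 4 * y ^ 3) + (3278668323363013 / 9765625000000000 : ℝ) * (x ^ 5 * y ^ 2) + (3684992859714139 / 39062500000000000 : ℝ) * (x ^ 6 * y ^ 1) + (187631581368359 / 17089843750000000 : ℝ) * (x ^ 7 * y ^ 0) := by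
    unfold Pp
    rw [hy2]
    ring
  rw [e]
  positivity

theorem c7 (x y : ℝ) (hx : 0 ≤ x) (hy : 0 ≤ y) (h : x + y = (5 / 4 : ℝ)) : 0 ≤ Pp ((45 / 2 : ℝ) + x) := by
  have hy2 : y = (5 / 4 : ℝ) - x := by linarith
  have e : Pp ((45 / 2 : ℝ) + x) = (187631581368359 / 133514404296875 : ℝ) * (x ^ 0 * y ^ 7) + (5321323045967093 / 610351562500000 : ℝ) * (x ^ 1 * y ^ 6) + (13920822484864319 / 610351562500000 : ℝ) * (x ^ 2 * y ^ 5) + (95285850109840747 / 2929687500000000 : ℝ) * (x ^ 3 * y ^ 4) + (13287492170387857 / 488281250000000 : ℝ) * (x ^ 4 * y ^ 3) + (519825801488994121 / 39062500000000000 : ℝ) * (x ^ 5 * y ^ 2) + (1233196444849295093 / 351562500000000000 : ℝ) * (x ^ 6 * y ^ 1) + (2516810253546800353 / 6562500000000000000 : ℝ) * (x ^ 7 * y ^ 0) := by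
    unfold Pp
    rw [hy2]
    ring
  rw [e]
  positivity

theorem c8 (x y : ℝ) (hx : 0 ≤ x) (hy : 0 ≤ y) (h : x + y = (5 / 8 : ℝ)) : 0 ≤ Pp ((95 / 4 : ℝ) + x) := by
  have hy2 : y = (5 / 8 : ℝ) - x := by linarith
  have e : Pp ((95 / 4 : ℝ) + x) = (2516810253546800353 / 51269531250000000 : ℝ) * (x ^ 0 * y ^ 7) + (12785720723126842433 / 43945312500000000 : ℝ) * (x ^ 1 * y ^ 6) + (7078755576244434657 / 9765625000000000 : ℝ) * (x ^ 2 * y ^ 5) + (3829597843464334153 / 3906250000000000 : ℝ) * (x ^ 3 * y ^ 4) + (18135331149821864833 / 23437500000000000 : ℝ) * (x ^ 4 * y ^ 3) + (27687687975453334571 / 78125000000000000 : ℝ) * (x ^ 5 * y ^ 2) + (13549436136691636459 / 156250000000000000 : ℝ) * (x ^ 6 * y ^ 1) + (19073346574806341833 / 2187500000000000000 : ℝ) * (x ^ 7 * y ^ 0) := by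
    unfold Pp
    rw [hy2]
    ring
  rw [e]
  positivity

theorem c9 (x y : ℝ) (hx : 0 ≤ x) (hy : 0 ≤ y) (h : x + y = (5 / 16 : ℝ)) : 0 ≤ Pp ((195 / 8 : ℝ) + x) := by
  have hy2 : y = (5 / 16 : ℝ) - x := by linarith
  have e : Pp ((195 / 8 : ℝ) + x) = (19073346574806341833 / 17089843750000000 : ℝ) * (x ^ 0 * y ^ 7) + (30121167451035752581 / 4882812500000000 : ℝ) * (x ^ 1 * y ^ 6) + (137951408500685655251 / 9765625000000000 : ℝ) * (x ^ 2 * y ^ 5) + (201606536333013708007 / 11718750000000000 : ℝ) * (x ^ 3 * y ^ 4) + (92719369967689974233 / 7812500000000000 : ℝ) * (x ^ 4 * y ^ 3) + (355394695345503938943 / 78125000000000000 : ℝ) * (x ^ 5 * y ^ 2) + (1235002453863742108553 / 1406250000000000000 : ℝ) * (x ^ 6 * y ^ 1) + (146487782332048618269 / 2187500000000000000 : ℝ) * (x ^ 7 * y ^ 0) := by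
    unfold Pp
    rw [hy2]
    ring
  rw [e]
  positivity

theorem c10 (x y : ℝ) (hx : 0 ≤ x) (hy : 0 ≤ y) (h : x + y = (5 / 64 : ℝ)) : 0 ≤ Pp ((395 / 16 : ℝ) + x) := by
  have hy2 : y = (5 / 64 : ℝ) - x := by linarith
  have e : Pp ((395 / 16 : ℝ) + x) = (146487782332048618269 / 133514404296875 : ℝ) * (x ^ 0 * y ^ 7) + (4121945297214703604999 / 686645507812500 : ℝ) * (x ^ 1 * y ^ 6) + (12524438291582144206781 / 915527343750000 : ℝ) * (x ^ 2 * y ^ 5) + (12281212522836803378213 / 732421875000000 : ℝ) * (x ^ 3 * y ^ 4) + (104862994366449554396341 / 8789062500000000 : ℝ) * (x ^ 4 * y ^ 3) + (291859820588169385014679 / 58593750000000000 : ℝ) * (x ^ 5 * y ^ 2) + (276212130901024764325967 / 234375000000000000 : ℝ) * (x ^ 6 * y ^ 1) + (2652641937057766498120319 / 19687500000000000000 : ℝ) * (x ^ 7 * y ^ 0) := by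
    unfold Pp
    rw [hy2]
    ring
  rw [e]
  positivity

theorem c11 (x y : ℝ) (hx : 0 ≤ x) (hy : 0 ≤ y) (h : x + y = (5 / 64 : ℝ)) : 0 ≤ Pp ((1585 / 64 : ℝ) + x) := by
  have hy2 : y = (5 / 64 : ℝ) - x := by linarith
  have e : Pp ((1585 / 64 : ℝ) + x) = (2652641937057766498120319 / 19687500000000000000 : ℝ) * (x ^ 0 * y ^ 7) + (995369151651617912164517 / 1406250000000000000 : ℝ) * (x ^ 1 * y ^ 6) + (168511882866048955422477 / 78125000000000000 : ℝ) * (x ^ 2 * y ^ 5) + (114745824321918975086111 / 23437500000000000 : ℝ) * (x ^ 3 * y ^ 4) + (87356290306339405373573 / 11718750000000000 : ℝ) * (x ^ 4 * y ^ 3) + (66113421462679604458439 / 9765625000000000 : ℝ) * (x ^ 5 * y ^ 2) + (16011191639953017242559 / 4882812500000000 : ℝ) * (x ^ 6 * y ^ 1) + (11134557815930609102437 / 17089843750000000 : ℝ) * (x ^ 7 * y ^ 0) := by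
    unfold Pp
    rw [hy2]
    ring
  rw [e]
  positivity

theorem c12 (x y : ℝ) (hx : 0 ≤ x) (hy : 0 ≤ y) (h : x + y = (5 / 32 : ℝ)) : 0 ≤ Pp ((795 / 32 : ℝ) + x) := by
  have hy2 : y = (5 / 32 : ℝ) - x := by linarith
  have e : Pp ((795 / 32 : ℝ) + x) = (11134557815930609102437 / 2187500000000000000 : ℝ) * (x ^ 0 * y ^ 7) + (1087030112989925629047 / 19531250000000000 : ℝ) * (x ^ 1 * y ^ 6) + (306816535053327108821 / 1220703125000000 : ℝ) * (x ^ 2 * y ^ 5) + (27504190212881341651 / 45776367187500 : ℝ) * (x ^ 3 * y ^ 4) + (9440097507135325724 / 11444091796875 : ℝ) * (x ^ 4 * y ^ 3) + (12495602696910429504 / 19073486328125 : ℝ) * (x ^ 5 * y ^ 2) + (48156396076459645952 / 171661376953125 : ℝ) * (x ^ 6 * y ^ 1) + (60358140551887470592 / 1201629638671875 : ℝ) * (x ^ 7 * y ^ 0) := by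
    unfold Pp
    rw [hy2]
    ring
  rw [e]
  positivity

theorem c13 (x y : ℝ) (hx : 0 ≤ x) (hy : 0 ≤ y) (h : x + y = (5 : ℝ)) : 0 ≤ Pp ((25 : ℝ) + x) := by
  have hy2 : y = (5 : ℝ) - x := by linarith
  have e : Pp ((25 : ℝ) + x) = (3683968539543913 / 2520000000000000000000 : ℝ) * (x ^ 0 * y ^ 7) + (27515500718113883 / 360000000000000000000 : ℝ) * (x ^ 1 * y ^ 6) + (49035604500966851 / 40000000000000000000 : ℝ) * (x ^ 2 * y ^ 5) + (140208684495582041 / 24000000000000000000 : ℝ) * (x ^ 3 * y ^ 4) + (310130897860092931 / 24000000000000000000 : ℝ) * (x ^ 4 * y ^ 3) + (597078147818270921 / 40000000000000000000 : ℝ) * (x ^ 5 * y ^ 2) + (351271019115583137 / 40000000000000000000 : ℝ) * (x ^ 6 * y ^ 1) + (584116941424441267 / 280000000000000000000 : ℝ) * (x ^ 7 * y ^ 0) := by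
    unfold Pp
    rw [hy2]
    ring
  rw [e]
  positivity

theorem c14 (x y : ℝ) (hx : 0 ≤ x) (hy : 0 ≤ y) (h : x + y = (10 : ℝ)) : 0 ≤ Pp ((30 : ℝ) + x) := by
  have hy2 : y = (10 : ℝ) - x := by linarith
  have e : Pp ((30 : ℝ) + x) = (584116941424441267 / 35840000000000000000000 : ℝ) * (x ^ 0 * y ^ 7) + (1049808786042157527 / 5120000000000000000000 : ℝ) * (x ^ 1 * y ^ 6) + (5513713321572004961 / 5120000000000000000000 : ℝ) * (x ^ 2 * y ^ 5) + (9421333297232284141 / 3072000000000000000000 : ℝ) * (x ^ 3 * y ^ 4) + (15756449065348265321 / 3072000000000000000000 : ℝ) * (x ^ 4 * y ^ 3) + (25863771966925095701 / 5120000000000000000000 : ℝ) * (x ^ 5 * y ^ 2) + (125317328939641143443 / 46080000000000000000000 : ℝ) * (x ^ 6 * y ^ 1) + (199569943259561358583 / 322560000000000000000000 : ℝ) * (x ^ 7 * y ^ 0) := by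
    unfold Pp
    rw [hy2]
    ring
  rw [e]
  positivity

theorem ct (x : ℝ) (hx : 0 ≤ x) : 0 ≤ Pp ((40 : ℝ) + x) := by
  have e : Pp ((40 : ℝ) + x) = (199569943259561358583 / 32256000000000000 : ℝ) * x ^ 0 + (3712630715996010757 / 2304000000000000 : ℝ) * x ^ 1 + (22105501067545299 / 128000000000000 : ℝ) * x ^ 2 + (5701598091824371 / 576000000000000 : ℝ) * x ^ 3 + (94847937911443 / 288000000000000 : ℝ) * x ^ 4 + (102275531503 / 16000000000000 : ℝ) * x ^ 5 + (4846904281 / 72000000000000 : ℝ) * x ^ 6 + (375315371 / 1260000000000000 : ℝ) * x ^ 7 := by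
    unfold Pp
    ring
  rw [e]
  positivity

theorem main (w : ℝ) (h0 : (0 : ℝ) ≤ w) : 0 ≤ Pp w := by
  rcases le_total w (5 : ℝ) with h | h
  · have := c0 (w - (0 : ℝ)) ((5 : ℝ) - w) (by linarith) (by linarith) (by ring)
    rw [show (0 : ℝ) + (w - (0 : ℝ)) = w by ring] at this
    exact this
  clear h0
  rename' h => h0
  rcases le_total w (25 / 4 : ℝ) with h | h
  · have := c1 (w - (5 : ℝ)) ((25 / 4 : ℝ) - w) (by linarith) (by linarith) (by ring)
    rw [show (5 : ℝ) + (w - (5 : ℝ)) = w by ring] at this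
    exact this
  clear h0
  rename' h => h0
  rcases le_total w (55 / 8 : ℝ) with h | h
  · have := c2 (w - (25 / 4 : ℝ)) ((55 / 8 : ℝ) - w) (by linarith) (by linarith) (by ring)
    rw [show (25 / 4 : ℝ) + (w - (25 / 4 : ℝ)) = w by ring] at this
    exact this
  clear h0
  rename' h => h0
  rcases le_total w (15 / 2 : ℝ) with h | h
  · have := c3 (w - (55 / 8 : ℝ)) ((15 / 2 : ℝ) - w) (by linarith) (by linarith) (by ring)
    rw [show (55 / 8 : ℝ) + (w - (55 / 8 : ℝ)) = w by ring] at this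
    exact this
  clear h0
  rename' h => h0
  rcases le_total w (10 : ℝ) with h | h
  · have := c4 (w - (15 / 2 : ℝ)) ((10 : ℝ) - w) (by linarith) (by linarith) (by ring)
    rw [show (15 / 2 : ℝ) + (w - (15 / 2 : ℝ)) = w by ring] at this
    exact this
  clear h0
  rename' h => h0
  rcases le_total w (20 : ℝ) with h | h
  · have := c5 (w - (10 : ℝ)) ((20 : ℝ) - w) (by linarith) (by linarith) (by ring)
    rw [show (10 : ℝ) + (w - (10 : ℝ)) = w by ring] at this
    exact this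
  clear h0
  rename' h => h0
  rcases le_total w (45 / 2 : ℝ) with h | h
  · have := c6 (w - (20 : ℝ)) ((45 / 2 : ℝ) - w) (by linarith) (by linarith) (by ring)
    rw [show (20 : ℝ) + (w - (20 : ℝ)) = w by ring] at this
    exact this
  clear h0
  rename' h => h0
  rcases le_total w (95 / 4 : ℝ) with h | h
  · have := c7 (w - (45 / 2 : ℝ)) ((95 / 4 : ℝ) - w) (by linarith) (by linarith) (by ring)
    rw [show (45 / 2 : ℝ) + (w - (45 / 2 : ℝ)) = w by ring] at this
    exact this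
  clear h0
  rename' h => h0
  rcases le_total w (195 / 8 : ℝ) with h | h
  · have := c8 (w - (95 / 4 : ℝ)) ((195 / 8 : ℝ) - w) (by linarith) (by linarith) (by ring)
    rw [show (95 / 4 : ℝ) + (w - (95 / 4 : ℝ)) = w by ring] at this
    exact this
  clear h0
  rename' h => h0
  rcases le_total w (395 / 16 : ℝ) with h | h
  · have := c9 (w - (195 / 8 : ℝ)) ((395 / 16 : ℝ) - w) (by linarith) (by linarith) (by ring)
    rw [show (195 / 8 : ℝ) + (w - (195 / 8 : ℝ)) = w by ring] at this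
    exact this
  clear h0
  rename' h => h0
  rcases le_total w (1585 / 64 : ℝ) with h | h
  · have := c10 (w - (395 / 16 : ℝ)) ((1585 / 64 : ℝ) - w) (by linarith) (by linarith) (by ring)
    rw [show (395 / 16 : ℝ) + (w - (395 / 16 : ℝ)) = w by ring] at this
    exact this
  clear h0
  rename' h => h0
  rcases le_total w (795 / 32 : ℝ) with h | h
  · have := c11 (w - (1585 / 64 : ℝ)) ((795 / 32 : ℝ) - w) (by linarith) (by linarith) (by ring)
    rw [show (1585 / 64 : ℝ) + (w - (1585 / 64 : ℝ)) = w by ring] at this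
    exact this
  clear h0
  rename' h => h0
  rcases le_total w (25 : ℝ) with h | h
  · have := c12 (w - (795 / 32 : ℝ)) ((25 : ℝ) - w) (by linarith) (by linarith) (by ring)
    rw [show (795 / 32 : ℝ) + (w - (795 / 32 : ℝ)) = w by ring] at this
    exact this
  clear h0
  rename' h => h0
  rcases le_total w (30 : ℝ) with h | h
  · have := c13 (w - (25 : ℝ)) ((30 : ℝ) - w) (by linarith) (by linarith) (by ring)
    rw [show (25 : ℝ) + (w - (25 : ℝ)) = w by ring] at this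
    exact this
  clear h0
  rename' h => h0
  rcases le_total w (40 : ℝ) with h | h
  · have := c14 (w - (30 : ℝ)) ((40 : ℝ) - w) (by linarith) (by linarith) (by ring)
    rw [show (30 : ℝ) + (w - (30 : ℝ)) = w by ring] at this
    exact this
  clear h0
  rename' h => h0
  have := ct (w - (40 : ℝ)) (by linarith)
  rw [show (40 : ℝ) + (w - (40 : ℝ)) = w by ring] at this
  exact this

end P0

theorem p0 : S_P0 := fun w hw => P0.main w hw

end H332B
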