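import Pool.Agent.H332B.Num
import Pool.Agent.H332B.P0

/-! # RB: crude bounds of `rr` and `rh` (light part) -/

set_option autoImplicit false

namespace H332B

namespace RB

theorem pow_le_exp (k : ℕ) (w : ℝ) (hw : 0 ≤ w) :
    w ^ k ≤ ((10 : ℝ) ^ k * (k.factorial : ℝ)) * Real.exp (w / 10) := by
  have h := Real.pow_div_factorial_le_exp (w / 10) (by positivity) k
  have hk : (0 : ℝ) < (k.factorial : ℝ) := by exact_mod_cast Nat.factorial_pos k
  rw [div_le_iff₀ hk, div_pow, div_le_iff₀ (by positivity)] at h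
  nlinarith

theorem Pp_le_two (w : ℝ) (hw : 0 ≤ w) : Pp w ≤ 2 * Real.exp (w / 2) := by
  have h := Real.sum_le_exp_of_nonneg (x := w / 2) (by positivity) 8
  simp only [Finset.sum_range_succ, Finset.sum_range_zero, Nat.factorial] at h
  push_cast at h
  have h1 : 0 ≤ w ^ 1 := pow_nonneg hw 1
  have h2 : 0 ≤ w ^ 2 := pow_nonneg hw 2
  have h3 : 0 ≤ w ^ 3 := pow_nonneg hw 3
  have h4 : 0 ≤ w ^ 4 := pow_nonneg hw 4
  have h5 : 0 ≤ w ^ 5 := pow_nonneg hw 5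
  have h6 : 0 ≤ w ^ 6 := pow_nonneg hw 6
  have h7 : 0 ≤ w ^ 7 := pow_nonneg hw 7
  have e : (1 : ℝ) + w / 2 + w ^ 2 / 8 + w ^ 3 / 48 + w ^ 4 / 384 + w ^ 5 / 3840 +
      w ^ 6 / 46080 + w ^ 7 / 645120 ≤ Real.exp (w / 2) := by
    refine le_trans (le_of_eq ?_) h
    ring
  refine le_trans ?_ (mul_le_mul_of_nonneg_left e (by norm_num : (0 : ℝ) ≤ 2))
  unfold Pp
  rw [pow_one] at h1
  linarith

theorem Pp_abs (w : ℝ) (hw : 0 ≤ w) : |Pp w| ≤ 1000000 * Real.exp (w / 10) := by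
  have g0 := pow_le_exp 0 w hw
  have g1 := pow_le_exp 1 w hw
  have g2 := pow_le_exp 2 w hw
  have g3 := pow_le_exp 3 w hw
  have g4 := pow_le_exp 4 w hw
  have g5 := pow_le_exp 5 w hw
  have g6 := pow_le_exp 6 w hw
  have g7 := pow_le_exp 7 w hw
  simp only [Nat.factorial] at g0 g1 g2 g3 g4 g5 g6 g7
  push_cast at g0 g1 g2 g3 g4 g5 g6 g7
  norm_num at g0 g1 g2 g3 g4 g5 g6 g7
  have h2 : 0 ≤ w ^ 2 := pow_nonneg hw 2
  have h3 : 0 ≤ w ^ 3 := pow_nonneg hw 3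
  have h4 : 0 ≤ w ^ 4 := pow_nonneg hw 4
  have h5 : 0 ≤ w ^ 5 := pow_nonneg hw 5
  have h6 : 0 ≤ w ^ 6 := pow_nonneg hw 6
  have h7 : 0 ≤ w ^ 7 := pow_nonneg hw 7
  have hE : 0 < Real.exp (w / 10) := Real.exp_pos _
  have hE1 : 1 ≤ Real.exp (w / 10) := Real.one_le_exp (by positivity)
  unfold Pp
  rw [abs_le]
  constructor
  · linarith
  · linarith

theorem Qp_abs (w : ℝ) (hw : 0 ≤ w) : |Qp w| ≤ 1000000 * Real.exp (w / 10) := by
  have g0 := pow_le_exp 0 w hw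
  have g1 := pow_le_exp 1 w hw
  have g2 := pow_le_exp 2 w hw
  have g3 := pow_le_exp 3 w hw
  have g4 := pow_le_exp 4 w hw
  have g5 := pow_le_exp 5 w hw
  have g6 := pow_le_exp 6 w hw
  have g7 := pow_le_exp 7 w hw
  simp only [Nat.factorial] at g0 g1 g2 g3 g4 g5 g6 g7
  push_cast at g0 g1 g2 g3 g4 g5 g6 g7
  norm_num at g0 g1 g2 g3 g4 g5 g6 g7
  have h2 : 0 ≤ w ^ 2 := pow_nonneg hw 2
  have h3 : 0 ≤ w ^ 3 := pow_nonneg hw 3
  have h4 : 0 ≤ w ^ 4 := pow_nonneg hw 4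
  have h5 : 0 ≤ w ^ 5 := pow_nonneg hw 5
  have h6 : 0 ≤ w ^ 6 := pow_nonneg hw 6
  have h7 : 0 ≤ w ^ 7 := pow_nonneg hw 7
  have hE : 0 < Real.exp (w / 10) := Real.exp_pos _
  have hE1 : 1 ≤ Real.exp (w / 10) := Real.one_le_exp (by positivity)
  unfold Qp
  rw [abs_le]
  constructor
  · linarith
  · linarith

theorem expo (x : ℝ) : Real.exp ((2 * Real.pi * x ^ 2) / 10) * Real.exp (-(Real.pi * x ^ 2)) ≤
    Real.exp (-(2 * x ^ 2)) := by
  rw [← Real.exp_add]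
  apply Real.exp_le_exp.2
  have hp := Real.pi_gt_d2
  have hx : 0 ≤ x ^ 2 := sq_nonneg x
  nlinarith

theorem aux : (∀ x : ℝ, 0 ≤ rr x ∧ rr x ≤ 2) ∧ ∃ C : ℝ, 0 < C ∧ ∀ x : ℝ,
    rr x ≤ C * Real.exp (-(x ^ 2)) ∧ |rh x| ≤ C * Real.exp (-(2 * x ^ 2)) := by
  have hw : ∀ x : ℝ, 0 ≤ 2 * Real.pi * x ^ 2 := fun x => by positivity
  refine ⟨fun x => ⟨?_, ?_⟩, 1000000, by norm_num, fun x => ⟨?_, ?_⟩⟩
  · exact mul_nonneg (p0 _ (hw x)) (Real.exp_pos _).le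
  · unfold rr
    have h := Pp_le_two _ (hw x)
    calc Pp (2 * Real.pi * x ^ 2) * Real.exp (-(Real.pi * x ^ 2))
        ≤ 2 * Real.exp (2 * Real.pi * x ^ 2 / 2) * Real.exp (-(Real.pi * x ^ 2)) :=
          mul_le_mul_of_nonneg_right h (Real.exp_pos _).le
      _ = 2 := by
          rw [mul_assoc, ← Real.exp_add]
          have : 2 * Real.pi * x ^ 2 / 2 + -(Real.pi * x ^ 2) = 0 := by ring
          rw [this, Real.exp_zero, mul_one]
  · unfold rr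
    have h := (le_abs_self _).trans (Pp_abs _ (hw x))
    calc Pp (2 * Real.pi * x ^ 2) * Real.exp (-(Real.pi * x ^ 2))
        ≤ 1000000 * Real.exp (2 * Real.pi * x ^ 2 / 10) * Real.exp (-(Real.pi * x ^ 2)) :=
          mul_le_mul_of_nonneg_right h (Real.exp_pos _).le
      _ = 1000000 * (Real.exp (2 * Real.pi * x ^ 2 / 10) * Real.exp (-(Real.pi * x ^ 2))) := by
          ring
      _ ≤ 1000000 * Real.exp (-(2 * x ^ 2)) :=
          mul_le_mul_of_nonneg_left (expo x) (by norm_num)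
      _ ≤ 1000000 * Real.exp (-(x ^ 2)) := by
          apply mul_le_mul_of_nonneg_left _ (by norm_num)
          apply Real.exp_le_exp.2
          nlinarith [sq_nonneg x]
  · unfold rh
    rw [abs_mul, abs_of_pos (Real.exp_pos _)]
    have h := Qp_abs _ (hw x)
    calc |Qp (2 * Real.pi * x ^ 2)| * Real.exp (-(Real.pi * x ^ 2))
        ≤ 1000000 * Real.exp (2 * Real.pi * x ^ 2 / 10) * Real.exp (-(Real.pi * x ^ 2)) :=
          mul_le_mul_of_nonneg_right h (Real.exp_pos _).le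
      _ = 1000000 * (Real.exp (2 * Real.pi * x ^ 2 / 10) * Real.exp (-(Real.pi * x ^ 2))) := by
          ring
      _ ≤ 1000000 * Real.exp (-(2 * x ^ 2)) :=
          mul_le_mul_of_nonneg_left (expo x) (by norm_num)

end RB

end H332B
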