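import Pool.Agent.H332B.Defs2
import Pool.Agent.H332B.RBaux

open Complex Filter Topology Set MeasureTheory
open scoped BigOperators

namespace H332B

theorem rb : S_RB := RB.aux

end H332B
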