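import Pool.Agent.H332B.Num

open Complex Filter Topology Set MeasureTheory
open scoped BigOperators

namespace H332B

theorem cint : S_CINT := by
  intro n
  have h := integrable_rpow_mul_exp_neg_mul_sq (b := Real.pi) Real.pi_pos (s := (n : ℝ))
    (by have : (0 : ℝ) ≤ n := Nat.cast_nonneg n
        linarith)
  refine h.congr (Filter.Eventually.of_forall fun α => ?_)
  simp only [Real.rpow_natCast, neg_mul]

end H332B
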