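import Pool.Agent.H332B.Num

open Complex Filter Topology Set MeasureTheory
open scoped BigOperators

namespace H332B

namespace Mom

theorem cint (n : ℕ) : Integrable (fun α : ℝ => α ^ n * Real.exp (-(Real.pi * α ^ 2))) := by
  have h := integrable_rpow_mul_exp_neg_mul_sq Real.pi_pos (s := (n : ℝ))
    (by have : (0 : ℝ) ≤ n := Nat.cast_nonneg n
        linarith)
  refine h.congr (Filter.Eventually.of_forall fun a => ?_)
  simp only
  rw [Real.rpow_natCast, neg_mul]

theorem ccos (n : ℕ) (x : ℝ) : Integrable (fun α : ℝ => α ^ n *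
    Real.exp (-(Real.pi * α ^ 2)) * Real.cos (2 * Real.pi * x * α)) := by
  refine (cint n).mono (by fun_prop) (Filter.Eventually.of_forall fun a => ?_)
  rw [norm_mul]
  have h1 : ‖Real.cos (2 * Real.pi * x * a)‖ ≤ 1 := Real.abs_cos_le_one _
  exact mul_le_of_le_one_right (norm_nonneg _) h1

theorem csin (n : ℕ) (x : ℝ) : Integrable (fun α : ℝ => α ^ n *
    Real.exp (-(Real.pi * α ^ 2)) * Real.sin (2 * Real.pi * x * α)) := by
  refine (cint n).mono (by fun_prop) (Filter.Eventually.of_forall fun a => ?_)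
  rw [norm_mul]
  have h1 : ‖Real.sin (2 * Real.pi * x * a)‖ ≤ 1 := Real.abs_sin_le_one _
  exact mul_le_of_le_one_right (norm_nonneg _) h1

/-- cosine moment -/
noncomputable def Ic (n : ℕ) (x : ℝ) : ℝ :=
  ∫ α : ℝ, α ^ n * Real.exp (-(Real.pi * α ^ 2)) * Real.cos (2 * Real.pi * x * α)

/-- sine moment -/
noncomputable def Is (n : ℕ) (x : ℝ) : ℝ :=
  ∫ α : ℝ, α ^ n * Real.exp (-(Real.pi * α ^ 2)) * Real.sin (2 * Real.pi * x * α)

theorem hE (a : ℝ) : HasDerivAt (fun a : ℝ => Real.exp (-(Real.pi * a ^ 2)))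
    (Real.exp (-(Real.pi * a ^ 2)) * (-(Real.pi * (2 * a)))) a := by
  have h1 : HasDerivAt (fun a : ℝ => -(Real.pi * a ^ 2)) (-(Real.pi * (2 * a))) a := by
    have h2 := ((hasDerivAt_pow 2 a).const_mul Real.pi).fun_neg
    simpa using h2
  exact h1.exp

theorem hL (x a : ℝ) : HasDerivAt (fun a : ℝ => 2 * Real.pi * x * a) (2 * Real.pi * x) a := by
  simpa using (hasDerivAt_id a).const_mul (2 * Real.pi * x)

theorem int3 {A B C : ℝ → ℝ} (hA : Integrable A) (hB : Integrable B) (hC : Integrable C) :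
    Integrable (fun a => A a - B a + C a) ∧
    ∫ a, (A a - B a + C a) = (∫ a, A a) - (∫ a, B a) + ∫ a, C a := by
  have h12 : Integrable (fun a => A a - B a) := hA.sub hB
  exact ⟨h12.add hC, by rw [integral_add h12 hC, integral_sub hA hB]⟩

theorem int3' {A B C : ℝ → ℝ} (hA : Integrable A) (hB : Integrable B) (hC : Integrable C) :
    Integrable (fun a => A a - B a - C a) ∧
    ∫ a, (A a - B a - C a) = (∫ a, A a) - (∫ a, B a) - ∫ a, C a := by
  have h12 : Integrable (fun a => A a - B a) := hA.sub hB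
  exact ⟨h12.sub hC, by rw [integral_sub h12 hC, integral_sub hA hB]⟩

theorem recA (n : ℕ) (x : ℝ) :
    (n : ℝ) * Is (n - 1) x - 2 * Real.pi * Is (n + 1) x + 2 * Real.pi * x * Ic n x = 0 := by
  have hd : ∀ a : ℝ, HasDerivAt (fun a : ℝ => a ^ n * Real.exp (-(Real.pi * a ^ 2)) *
      Real.sin (2 * Real.pi * x * a))
      ((n : ℝ) * (a ^ (n - 1) * Real.exp (-(Real.pi * a ^ 2)) * Real.sin (2 * Real.pi * x * a)) -
        2 * Real.pi * (a ^ (n + 1) * Real.exp (-(Real.pi * a ^ 2)) *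
          Real.sin (2 * Real.pi * x * a)) +
        2 * Real.pi * x * (a ^ n * Real.exp (-(Real.pi * a ^ 2)) *
          Real.cos (2 * Real.pi * x * a))) a := by
    intro a
    have h1 := ((hasDerivAt_pow n a).fun_mul (hE a)).fun_mul (hL x a).sin
    refine h1.congr_deriv ?_
    ring
  have i1 := (csin (n - 1) x).const_mul (n : ℝ)
  have i2 := (csin (n + 1) x).const_mul (2 * Real.pi)
  have i3 := (ccos n x).const_mul (2 * Real.pi * x)
  have h := integral_eq_zero_of_hasDerivAt_of_integrable hd (int3 i1 i2 i3).1 (csin n x)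
  rw [(int3 i1 i2 i3).2, integral_const_mul, integral_const_mul, integral_const_mul] at h
  exact h

theorem recB (n : ℕ) (x : ℝ) :
    (n : ℝ) * Ic (n - 1) x - 2 * Real.pi * Ic (n + 1) x - 2 * Real.pi * x * Is n x = 0 := by
  have hd : ∀ a : ℝ, HasDerivAt (fun a : ℝ => a ^ n * Real.exp (-(Real.pi * a ^ 2)) *
      Real.cos (2 * Real.pi * x * a))
      ((n : ℝ) * (a ^ (n - 1) * Real.exp (-(Real.pi * a ^ 2)) * Real.cos (2 * Real.pi * x * a)) -
        2 * Real.pi * (a ^ (n + 1) * Real.exp (-(Real.pi * a ^ 2)) *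
          Real.cos (2 * Real.pi * x * a)) -
        2 * Real.pi * x * (a ^ n * Real.exp (-(Real.pi * a ^ 2)) *
          Real.sin (2 * Real.pi * x * a))) a := by
    intro a
    have h1 := ((hasDerivAt_pow n a).fun_mul (hE a)).fun_mul (hL x a).cos
    refine h1.congr_deriv ?_
    ring
  have i1 := (ccos (n - 1) x).const_mul (n : ℝ)
  have i2 := (ccos (n + 1) x).const_mul (2 * Real.pi)
  have i3 := (csin n x).const_mul (2 * Real.pi * x)
  have h := integral_eq_zero_of_hasDerivAt_of_integrable hd (int3' i1 i2 i3).1 (ccos n x)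
  rw [(int3' i1 i2 i3).2, integral_const_mul, integral_const_mul, integral_const_mul] at h
  exact h

theorem base (x : ℝ) : Ic 0 x = Real.exp (-(Real.pi * x ^ 2)) := by
  have h := fourierIntegral_gaussian (b := (Real.pi : ℂ))
    (by rw [Complex.ofReal_re]; exact Real.pi_pos) ((2 * Real.pi * x : ℝ) : ℂ)
  have hpi : (Real.pi : ℂ) ≠ 0 := by exact_mod_cast Real.pi_ne_zero
  rw [div_self hpi, Complex.one_cpow, one_mul] at h
  have h1 : -((2 * Real.pi * x : ℝ) : ℂ) ^ 2 / (4 * (Real.pi : ℂ)) =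
      ((-(Real.pi * x ^ 2) : ℝ) : ℂ) := by
    push_cast
    field_simp
    ring
  rw [h1, ← Complex.ofReal_exp] at h
  have h2 := congrArg Complex.re h
  rw [Complex.ofReal_re] at h2
  rw [← h2]
  have h3 : ∀ a : ℝ, cexp (I * ((2 * Real.pi * x : ℝ) : ℂ) * (a : ℂ)) *
      cexp (-(Real.pi : ℂ) * (a : ℂ) ^ 2) =
      cexp (((2 * Real.pi * x * a : ℝ) : ℂ) * I) * ((Real.exp (-(Real.pi * a ^ 2)) : ℝ) : ℂ) := by
    intro a
    rw [Complex.ofReal_exp]
    congr 1
    · congr 1
      push_cast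
      ring
    · congr 1
      push_cast
      ring
  have hint : Integrable (fun a : ℝ => cexp (I * ((2 * Real.pi * x : ℝ) : ℂ) * (a : ℂ)) *
      cexp (-(Real.pi : ℂ) * (a : ℂ) ^ 2)) := by
    simp_rw [h3]
    have h4 : Integrable (fun a : ℝ => ((Real.exp (-(Real.pi * a ^ 2)) : ℝ) : ℂ)) := by
      have h5 := (cint 0).ofReal (𝕜 := ℂ)
      simpa using h5
    refine h4.mono (by fun_prop) (Filter.Eventually.of_forall fun a => ?_)
    rw [norm_mul, Complex.norm_exp_ofReal_mul_I, one_mul]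
  have h6 : (∫ a : ℝ, cexp (I * ((2 * Real.pi * x : ℝ) : ℂ) * (a : ℂ)) *
      cexp (-(Real.pi : ℂ) * (a : ℂ) ^ 2)).re = ∫ a : ℝ, (cexp (I * ((2 * Real.pi * x : ℝ) : ℂ) *
      (a : ℂ)) * cexp (-(Real.pi : ℂ) * (a : ℂ) ^ 2)).re := by
    have := (integral_re hint)
    exact this.symm
  rw [h6]
  unfold Ic
  refine integral_congr_ae (Filter.Eventually.of_forall fun a => ?_)
  simp only
  rw [h3, Complex.re_mul_ofReal, Complex.exp_ofReal_mul_I_re, pow_zero, one_mul, mul_comm]

end Mom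

open Mom in
theorem mom : S_MOM := by
  intro x
  have hpi := Real.pi_pos
  have hC : ∀ k, Cm k x = Ic (2 * k) x := fun k => rfl
  have hS : ∀ k, Sm k x = Is (2 * k + 1) x := fun k => rfl
  refine ⟨?_, ?_, fun k => ⟨?_, ?_⟩⟩
  · rw [hC]
    exact base x
  · have h := recA 0 x
    rw [hC, hS]
    simp only [Nat.cast_zero, zero_mul, zero_sub, zero_add, mul_zero] at h ⊢
    have h2 : 2 * Real.pi * (x * Ic 0 x - Is 1 x) = 0 := by linarith
    have h3 := (mul_eq_zero.1 h2).resolve_left (by positivity)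
    linarith
  · have h := recA (2 * (k + 1)) x
    rw [hC, hS, hS]
    have e1 : 2 * (k + 1) - 1 = 2 * k + 1 := by omega
    rw [e1] at h
    push_cast at h
    field_simp
    linarith
  · have h := recB (2 * k + 1) x
    rw [hC, hC, hS]
    have e1 : 2 * k + 1 - 1 = 2 * k := by omega
    have e2 : 2 * k + 1 + 1 = 2 * (k + 1) := by omega
    rw [e1, e2] at h
    push_cast at h
    field_simp
    linarith

end H332B
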