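import Pool.Agent.H332B.Num
import Pool.Agent.H332B.CInt
import Pool.Agent.H332B.Mom

set_option autoImplicit false

open Complex Filter Topology Set MeasureTheory
open scoped BigOperators

namespace H332B

namespace Rrr

/-- the coefficients of `Qp` -/
noncomputable def qv : Fin 8 → ℝ := ![513709738020047 / 512000000000000, 11775204113427 / 256000000000000, 742681256161 / 25600000000000, -(1521488134961 / 192000000000000), -(17280350137 / 96000000000000), -(6172383419 / 80000000000000), 3967491371 / 360000000000000, -(375315371 / 1260000000000000)]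

lemma Qp_sum (w : ℝ) : Qp w = ∑ k : Fin 8, qv k * w ^ (k : ℕ) := by
  rw [Fin.sum_univ_eight]
  simp only [qv, Qp, Matrix.cons_val]
  norm_num

lemma rh_sum (α : ℝ) : rh α = ∑ k : Fin 8, (qv k * (2 * Real.pi) ^ (k : ℕ)) *
    (α ^ (2 * (k : ℕ)) * Real.exp (-(Real.pi * α ^ 2))) := by
  unfold rh
  rw [Qp_sum, Finset.sum_mul]
  refine Finset.sum_congr rfl fun k _ => ?_
  rw [mul_pow (2 * Real.pi) (α ^ 2), ← pow_mul]
  ring

lemma int_cos (k : ℕ) (x : ℝ) : Integrable (fun α : ℝ =>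
    α ^ (2 * k) * Real.exp (-(Real.pi * α ^ 2)) * Real.cos (2 * Real.pi * x * α)) := by
  refine (cint (2 * k)).mono ?_ (Filter.Eventually.of_forall fun α => ?_)
  · exact Continuous.aestronglyMeasurable (by fun_prop)
  · rw [norm_mul]
    exact mul_le_of_le_one_right (norm_nonneg _) (by
      rw [Real.norm_eq_abs]; exact Real.abs_cos_le_one _)

end Rrr

theorem rrr : S_RR := by
  refine ⟨?_, fun x => ?_⟩
  · have h : rh = fun α => ∑ k : Fin 8, (Rrr.qv k * (2 * Real.pi) ^ (k : ℕ)) *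
        (α ^ (2 * (k : ℕ)) * Real.exp (-(Real.pi * α ^ 2))) := by
      funext α; exact Rrr.rh_sum α
    rw [h]
    exact integrable_finsetSum _ fun k _ => (cint (2 * (k : ℕ))).const_mul _
  · have h1 : ∫ α : ℝ, rh α * Real.cos (2 * Real.pi * x * α) =
        ∑ k : Fin 8, (Rrr.qv k * (2 * Real.pi) ^ (k : ℕ)) * Cm k x := by
      have h2 : ∀ α : ℝ, rh α * Real.cos (2 * Real.pi * x * α) = ∑ k : Fin 8,
          (Rrr.qv k * (2 * Real.pi) ^ (k : ℕ)) * (α ^ (2 * (k : ℕ)) *
            Real.exp (-(Real.pi * α ^ 2)) * Real.cos (2 * Real.pi * x * α)) := by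
        intro α
        rw [Rrr.rh_sum, Finset.sum_mul]
        exact Finset.sum_congr rfl fun k _ => by ring
      simp only [h2]
      rw [integral_finsetSum]
      · refine Finset.sum_congr rfl fun k _ => ?_
        rw [integral_const_mul]
        rfl
      · intro k _
        exact (Rrr.int_cos (k : ℕ) x).const_mul _
    rw [h1, Fin.sum_univ_eight]
    obtain ⟨hc0, hs0, hm⟩ := mom x
    set E := Real.exp (-(Real.pi * x ^ 2)) with hE
    have hpi : Real.pi ≠ 0 := Real.pi_ne_zero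
    set c : ℝ := 2 * Real.pi with hc
    set w : ℝ := c * x ^ 2 with hw
    have stepA : ∀ k : ℕ, c ^ (k + 1) * Cm (k + 1) x =
        (2 * (k : ℝ) + 1) * (c ^ k * Cm k x) - c * x * (c ^ k * Sm k x) := by
      intro k
      rw [(hm k).2, hc, pow_succ]
      field_simp
    have stepB : ∀ k : ℕ, c ^ (k + 1) * Sm (k + 1) x =
        x * (c ^ (k + 1) * Cm (k + 1) x) + 2 * ((k : ℝ) + 1) * (c ^ k * Sm k x) := by
      intro k
      rw [(hm k).1, hc, pow_succ]
      field_simp
    have A0 : c ^ 0 * Cm 0 x = E := by rw [pow_zero, one_mul]; exact hc0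
    have B0 : c ^ 0 * Sm 0 x = x * E := by rw [pow_zero, one_mul, hs0, hc0]
    have A1 : c ^ 1 * Cm 1 x = ((1)*w^0 + (-1)*w^1) * E := by
      have h := stepA 0
      norm_num only [Nat.cast_ofNat, Nat.cast_zero, Nat.cast_one] at h
      rw [A0, B0] at h
      rw [h, hw]
      ring
    have B1 : c ^ 1 * Sm 1 x = x * ((3)*w^0 + (-1)*w^1) * E := by
      have h := stepB 0
      norm_num only [Nat.cast_ofNat, Nat.cast_zero, Nat.cast_one] at h
      rw [A1, B0] at h
      rw [h]
      ring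
    have A2 : c ^ 2 * Cm 2 x = ((3)*w^0 + (-6)*w^1 + (1)*w^2) * E := by
      have h := stepA 1
      norm_num only [Nat.cast_ofNat, Nat.cast_zero, Nat.cast_one] at h
      rw [A1, B1] at h
      rw [h, hw]
      ring
    have B2 : c ^ 2 * Sm 2 x = x * ((15)*w^0 + (-10)*w^1 + (1)*w^2) * E := by
      have h := stepB 1
      norm_num only [Nat.cast_ofNat, Nat.cast_zero, Nat.cast_one] at h
      rw [A2, B1] at h
      rw [h]
      ring
    have A3 : c ^ 3 * Cm 3 x = ((15)*w^0 + (-45)*w^1 + (15)*w^2 + (-1)*w^3) * E := by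
      have h := stepA 2
      norm_num only [Nat.cast_ofNat, Nat.cast_zero, Nat.cast_one] at h
      rw [A2, B2] at h
      rw [h, hw]
      ring
    have B3 : c ^ 3 * Sm 3 x = x * ((105)*w^0 + (-105)*w^1 + (21)*w^2 + (-1)*w^3) * E := by
      have h := stepB 2
      norm_num only [Nat.cast_ofNat, Nat.cast_zero, Nat.cast_one] at h
      rw [A3, B2] at h
      rw [h]
      ring
    have A4 : c ^ 4 * Cm 4 x = ((105)*w^0 + (-420)*w^1 + (210)*w^2 + (-28)*w^3 + (1)*w^4) * E := by
      have h := stepA 3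
      norm_num only [Nat.cast_ofNat, Nat.cast_zero, Nat.cast_one] at h
      rw [A3, B3] at h
      rw [h, hw]
      ring
    have B4 : c ^ 4 * Sm 4 x = x * ((945)*w^0 + (-1260)*w^1 + (378)*w^2 + (-36)*w^3 + (1)*w^4) * E := by
      have h := stepB 3
      norm_num only [Nat.cast_ofNat, Nat.cast_zero, Nat.cast_one] at h
      rw [A4, B3] at h
      rw [h]
      ring
    have A5 : c ^ 5 * Cm 5 x = ((945)*w^0 + (-4725)*w^1 + (3150)*w^2 + (-630)*w^3 + (45)*w^4 + (-1)*w^5) * E := by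
      have h := stepA 4
      norm_num only [Nat.cast_ofNat, Nat.cast_zero, Nat.cast_one] at h
      rw [A4, B4] at h
      rw [h, hw]
      ring
    have B5 : c ^ 5 * Sm 5 x = x * ((10395)*w^0 + (-17325)*w^1 + (6930)*w^2 + (-990)*w^3 + (55)*w^4 + (-1)*w^5) * E := by
      have h := stepB 4
      norm_num only [Nat.cast_ofNat, Nat.cast_zero, Nat.cast_one] at h
      rw [A5, B4] at h
      rw [h]
      ring
    have A6 : c ^ 6 * Cm 6 x = ((10395)*w^0 + (-62370)*w^1 + (51975)*w^2 + (-13860)*w^3 + (1485)*w^4 + (-66)*w^5 + (1)*w^6) * E := by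
      have h := stepA 5
      norm_num only [Nat.cast_ofNat, Nat.cast_zero, Nat.cast_one] at h
      rw [A5, B5] at h
      rw [h, hw]
      ring
    have B6 : c ^ 6 * Sm 6 x = x * ((135135)*w^0 + (-270270)*w^1 + (135135)*w^2 + (-25740)*w^3 + (2145)*w^4 + (-78)*w^5 + (1)*w^6) * E := by
      have h := stepB 5
      norm_num only [Nat.cast_ofNat, Nat.cast_zero, Nat.cast_one] at h
      rw [A6, B5] at h
      rw [h]
      ring
    have A7 : c ^ 7 * Cm 7 x = ((135135)*w^0 + (-945945)*w^1 + (945945)*w^2 + (-315315)*w^3 + (45045)*w^4 + (-3003)*w^5 + (91)*w^6 + (-1)*w^7) * E := by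
      have h := stepA 6
      norm_num only [Nat.cast_ofNat, Nat.cast_zero, Nat.cast_one] at h
      rw [A6, B6] at h
      rw [h, hw]
      ring
    have hfin : rr x = Pp w * E := by
      unfold rr; rw [hw, hc]
    rw [hfin]
    have hq : ∀ v : Fin 8, Rrr.qv v = ![513709738020047 / 512000000000000, 11775204113427 / 256000000000000, 742681256161 / 25600000000000, -(1521488134961 / 192000000000000), -(17280350137 / 96000000000000), -(6172383419 / 80000000000000), 3967491371 / 360000000000000, -(375315371 / 1260000000000000)] v := fun v => rfl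
    have e : Rrr.qv 0 * c ^ ((0 : Fin 8) : ℕ) * Cm ((0 : Fin 8) : ℕ) x + Rrr.qv 1 * c ^ ((1 : Fin 8) : ℕ) * Cm ((1 : Fin 8) : ℕ) x
        + Rrr.qv 2 * c ^ ((2 : Fin 8) : ℕ) * Cm ((2 : Fin 8) : ℕ) x + Rrr.qv 3 * c ^ ((3 : Fin 8) : ℕ) * Cm ((3 : Fin 8) : ℕ) x
        + Rrr.qv 4 * c ^ ((4 : Fin 8) : ℕ) * Cm ((4 : Fin 8) : ℕ) x + Rrr.qv 5 * c ^ ((5 : Fin 8) : ℕ) * Cm ((5 : Fin 8) : ℕ) x
        + Rrr.qv 6 * c ^ ((6 : Fin 8) : ℕ) * Cm ((6 : Fin 8) : ℕ) x + Rrr.qv 7 * c ^ ((7 : Fin 8) : ℕ) * Cm ((7 : Fin 8) : ℕ) x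
        = (513709738020047 / 512000000000000) * (c ^ 0 * Cm 0 x) + (11775204113427 / 256000000000000) * (c ^ 1 * Cm 1 x) + (742681256161 / 25600000000000) * (c ^ 2 * Cm 2 x)
        + (-(1521488134961 / 192000000000000)) * (c ^ 3 * Cm 3 x) + (-(17280350137 / 96000000000000)) * (c ^ 4 * Cm 4 x) + (-(6172383419 / 80000000000000)) * (c ^ 5 * Cm 5 x)
        + (3967491371 / 360000000000000) * (c ^ 6 * Cm 6 x) + (-(375315371 / 1260000000000000)) * (c ^ 7 * Cm 7 x) := by
      simp only [← mul_assoc]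
      rfl
    rw [e, A0, A1, A2, A3, A4, A5, A6, A7]
    unfold Pp
    ring

end H332B
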