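import Pool.Agent.H332B.Defs2
import Pool.Agent.H332B.RB
import Pool.Agent.H332B.Rrr

set_option autoImplicit false

open Complex Filter Topology Set MeasureTheory
open scoped BigOperators

namespace H332B
namespace Edge

lemma gint : Integrable (fun t : ℝ => Real.exp (-(t ^ 2))) := by
  have h := integrable_exp_neg_mul_sq (b := (1 : ℝ)) one_pos
  refine h.congr (Filter.Eventually.of_forall fun t => ?_)
  simp only [neg_mul, one_mul]

lemma gpos : 0 < ∫ t : ℝ, Real.exp (-(t ^ 2)) := by
  have h := integral_gaussian (1 : ℝ)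
  have h2 : (∫ t : ℝ, Real.exp (-(t ^ 2))) = Real.sqrt (Real.pi / 1) := by
    rw [← h]
    congr 1
    ext t
    simp only [neg_mul, one_mul]
  rw [h2]
  exact Real.sqrt_pos.mpr (by positivity)

/-- tails -/
lemma tail (h : ℝ → ℝ) (K : ℝ) (hK : 0 < K)
    (hi : Integrable h) (hb : ∀ t, |h t| ≤ K * Real.exp (-(2 * t ^ 2))) (x : ℝ) (S : Set ℝ)
    (hS : MeasurableSet S) (hx : ∀ t ∈ S, x ^ 2 ≤ t ^ 2) :
    ∫ t in S, |h t| ≤ K * (∫ t : ℝ, Real.exp (-(t ^ 2))) * Real.exp (-(x ^ 2)) := by
  have h1 : ∫ t in S, |h t| ≤ ∫ t in S, K * Real.exp (-(x ^ 2)) * Real.exp (-(t ^ 2)) := by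
    refine setIntegral_mono_on hi.abs.integrableOn (gint.const_mul _).integrableOn hS ?_
    intro t ht
    have h2 := hx t ht
    refine (hb t).trans ?_
    rw [mul_assoc, ← Real.exp_add]
    refine mul_le_mul_of_nonneg_left (Real.exp_le_exp.mpr ?_) hK.le
    linarith
  have h3 : ∫ t in S, K * Real.exp (-(x ^ 2)) * Real.exp (-(t ^ 2)) ≤
      ∫ t : ℝ, K * Real.exp (-(x ^ 2)) * Real.exp (-(t ^ 2)) := by
    refine setIntegral_le_integral (gint.const_mul _) (Filter.Eventually.of_forall fun t => ?_)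
    show 0 ≤ K * Real.exp (-(x ^ 2)) * Real.exp (-(t ^ 2))
    positivity
  have h4 : (∫ t : ℝ, K * Real.exp (-(x ^ 2)) * Real.exp (-(t ^ 2))) =
      K * Real.exp (-(x ^ 2)) * ∫ t : ℝ, Real.exp (-(t ^ 2)) := integral_const_mul _ _
  rw [h4] at h3
  refine (h1.trans h3).trans (le_of_eq ?_)
  ring

lemma core (h : ℝ → ℝ) (K : ℝ) (hK : 0 < K)
    (hi : Integrable h) (hb : ∀ t, |h t| ≤ K * Real.exp (-(2 * t ^ 2))) (I0 : ℝ)
    (hI : I0 ≤ ∫ t, h t) : ∃ C : ℝ, 0 < C ∧ ∀ b ℓ α : ℝ, 0 ≤ ℓ →
    (if b ≤ α ∧ α ≤ b + ℓ then I0 else 0) ≤ (∫ c in b..(b + ℓ), h (α - c)) +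
      C * (Real.exp (-(α - b) ^ 2) + Real.exp (-(α - (b + ℓ)) ^ 2)) := by
  refine ⟨K * (∫ t : ℝ, Real.exp (-(t ^ 2))), mul_pos hK gpos, fun b ℓ α hℓ => ?_⟩
  set C := K * (∫ t : ℝ, Real.exp (-(t ^ 2))) with hC
  have hCp : 0 < C := mul_pos hK gpos
  have hsub : (∫ c in b..(b + ℓ), h (α - c)) = ∫ t in (α - (b + ℓ))..(α - b), h t := by
    rw [intervalIntegral.integral_comp_sub_left]
  rw [hsub]
  set x := α - b with hx
  set y := α - (b + ℓ) with hy
  have hyx : y ≤ x := by rw [hx, hy]; linarith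
  have hex : 0 < Real.exp (-x ^ 2) := Real.exp_pos _
  have hey : 0 < Real.exp (-y ^ 2) := Real.exp_pos _
  have hint : (∫ t in y..x, h t) = ∫ t in Ioc y x, h t :=
    intervalIntegral.integral_of_le hyx
  split_ifs with hc
  · have hx0 : 0 ≤ x := by rw [hx]; linarith [hc.1]
    have hy0 : y ≤ 0 := by rw [hy]; linarith [hc.2]
    have hsplit : (∫ t, h t) = (∫ t in Iic y, h t) + (∫ t in y..x, h t) + ∫ t in Ioi x, h t := by
      rw [hint]
      have e1 : (∫ t in Iic x, h t) + ∫ t in Ioi x, h t = ∫ t, h t :=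
        intervalIntegral.integral_Iic_add_Ioi hi.integrableOn hi.integrableOn
      have e2 : (∫ t in Iic x, h t) = (∫ t in Iic y, h t) + ∫ t in Ioc y x, h t := by
        rw [← Iic_union_Ioc_eq_Iic hyx]
        refine setIntegral_union ?_ measurableSet_Ioc hi.integrableOn hi.integrableOn
        rw [Set.disjoint_left]
        intro t ht ht'
        exact absurd (mem_Iic.mp ht) (not_le.mpr ht'.1)
      rw [← e1, e2]
    have t1 : |∫ t in Ioi x, h t| ≤ C * Real.exp (-x ^ 2) := by
      refine (abs_integral_le_integral_abs).trans ?_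
      exact tail h K hK hi hb x (Ioi x) measurableSet_Ioi
        (fun t ht => by have := mem_Ioi.mp ht; nlinarith)
    have t2 : |∫ t in Iic y, h t| ≤ C * Real.exp (-y ^ 2) := by
      refine (abs_integral_le_integral_abs).trans ?_
      exact tail h K hK hi hb y (Iic y) measurableSet_Iic
        (fun t ht => by have := mem_Iic.mp ht; nlinarith)
    have t1' := (abs_le.mp t1).2
    have t2' := (abs_le.mp t2).2
    rw [mul_add]
    linarith
  · have hor : x < 0 ∨ 0 < y := by
      by_contra hcon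
      push Not at hcon
      apply hc
      constructor
      · have := hcon.1; rw [hx] at this; linarith
      · have := hcon.2; rw [hy] at this; linarith
    rw [mul_add]
    rcases hor with hlt | hgt
    · have t1 : |∫ t in Ioc y x, h t| ≤ C * Real.exp (-x ^ 2) := by
        refine (abs_integral_le_integral_abs).trans ?_
        exact tail h K hK hi hb x (Ioc y x) measurableSet_Ioc
          (fun t ht => by have := ht.2; nlinarith)
      have t1' := (abs_le.mp t1).1
      rw [hint]
      have : 0 < C * Real.exp (-y ^ 2) := mul_pos hCp hey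
      linarith
    · have t1 : |∫ t in Ioc y x, h t| ≤ C * Real.exp (-y ^ 2) := by
        refine (abs_integral_le_integral_abs).trans ?_
        exact tail h K hK hi hb y (Ioc y x) measurableSet_Ioc
          (fun t ht => by have := ht.1; nlinarith)
      have t1' := (abs_le.mp t1).1
      rw [hint]
      have : 0 < C * Real.exp (-x ^ 2) := mul_pos hCp hex
      linarith

end Edge

theorem edge : S_EDGE := by
  obtain ⟨-, C, hC, hrb⟩ := rb
  obtain ⟨hri, hrr⟩ := rrr
  have hkap : 0 < kap := by unfold kap; norm_num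
  have hkap1 : kap ≤ 1 := by unfold kap; norm_num
  have hkinv : kap⁻¹ ≤ 2 := by unfold kap; norm_num
  have hki : Integrable hk := by
    unfold hk
    exact (hri.comp_div hkap.ne').const_mul _
  have hkint : (∫ t, hk t) = rr 0 := by
    unfold hk
    rw [integral_const_mul, Measure.integral_comp_div rh kap, hrr 0, abs_of_pos hkap, smul_eq_mul,
      ← mul_assoc, inv_mul_cancel₀ hkap.ne', one_mul]
    congr 1
    ext t
    simp
  have hrr0 : (999999 / 1000000 : ℝ) ≤ rr 0 := by
    unfold rr Pp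
    norm_num
  refine Edge.core hk (2 * C) (by positivity) hki (fun t => ?_) (999999 / 1000000) ?_
  · have h1 := (hrb (t / kap)).2
    have h2 : t ^ 2 ≤ (t / kap) ^ 2 := by
      rw [div_pow, le_div_iff₀ (by positivity)]
      have : kap ^ 2 ≤ 1 := by nlinarith
      nlinarith [sq_nonneg t]
    have h3 : Real.exp (-(2 * (t / kap) ^ 2)) ≤ Real.exp (-(2 * t ^ 2)) :=
      Real.exp_le_exp.mpr (by linarith)
    unfold hk
    rw [abs_mul, abs_of_pos (inv_pos.mpr hkap)]
    calc kap⁻¹ * |rh (t / kap)| ≤ 2 * (C * Real.exp (-(2 * t ^ 2))) := by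
          refine mul_le_mul hkinv (h1.trans ?_) (abs_nonneg _) (by norm_num)
          exact mul_le_mul_of_nonneg_left h3 hC.le
      _ = 2 * C * Real.exp (-(2 * t ^ 2)) := by ring
  · rw [hkint]; exact hrr0

end H332B
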