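import Pool.Agent.H332B.Defs2
import Pool.Agent.H332B.Rrr
import Pool.Agent.H332B.P0
import Pool.Agent.H332B.WPC

open Complex Filter Topology Set MeasureTheory
open scoped BigOperators

namespace H332B

namespace F2

lemma kap_pos : 0 < kap := by unfold kap; norm_num

lemma rh_even (t : ℝ) : rh (-t) = rh t := by
  unfold rh
  simp

lemma hk_even (t : ℝ) : hk (-t) = hk t := by
  unfold hk
  rw [neg_div, rh_even]

lemma hk_int (h : Integrable rh) : Integrable hk := by
  unfold hk
  exact (h.comp_div kap_pos.ne').const_mul _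

lemma mul_cos (f : ℝ → ℝ) (hf : Integrable f) (c y : ℝ) :
    Integrable (fun t => f t * Real.cos ((t + c) * y)) := by
  refine hf.mul_bdd (c := 1) ?_ ?_
  · exact Continuous.aestronglyMeasurable (by fun_prop)
  · exact Filter.Eventually.of_forall fun t => by
      rw [Real.norm_eq_abs]
      exact Real.abs_cos_le_one _

lemma mul_sin (f : ℝ → ℝ) (hf : Integrable f) (y : ℝ) :
    Integrable (fun t => f t * Real.sin (t * y)) := by
  refine hf.mul_bdd (c := 1) ?_ ?_
  · exact Continuous.aestronglyMeasurable (by fun_prop)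
  · exact Filter.Eventually.of_forall fun t => by
      rw [Real.norm_eq_abs]
      exact Real.abs_sin_le_one _

lemma sin_zero (f : ℝ → ℝ) (hev : ∀ t, f (-t) = f t) (y : ℝ) :
    ∫ t, f t * Real.sin (t * y) = 0 := by
  have h1 : ∫ t, f t * Real.sin (t * y) = - ∫ t, f t * Real.sin (t * y) := by
    conv_lhs => rw [← integral_neg_eq_self (fun t => f t * Real.sin (t * y)) volume]
    rw [← integral_neg]
    congr 1
    ext t
    rw [hev, neg_mul, Real.sin_neg]
    ring
  linarith

/-- the cosine transform of `hk` -/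
lemma hk_cos (h : S_RR) (y : ℝ) :
    ∫ t, hk t * Real.cos (t * y) = rr (kap * y / (2 * Real.pi)) := by
  rw [h.2]
  have h1 : ∫ t, hk t * Real.cos (t * y) =
      ∫ t, (fun s => kap⁻¹ * (rh s * Real.cos (kap * s * y))) (t / kap) := by
    congr 1
    ext t
    simp only [hk]
    rw [mul_div_cancel₀ t kap_pos.ne']
    ring
  rw [h1, Measure.integral_comp_div (fun s => kap⁻¹ * (rh s * Real.cos (kap * s * y))) kap]
  rw [integral_const_mul, abs_of_pos kap_pos, smul_eq_mul, ← mul_assoc,
    mul_inv_cancel₀ kap_pos.ne', one_mul]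
  congr 1
  ext s
  congr 2
  field_simp

lemma term_int (h : S_RR) (c y : ℝ) :
    Integrable (fun t => hk (t - c) * Real.cos (t * y)) := by
  have h1 := (mul_cos hk (hk_int h.1) c y).comp_sub_right c
  simpa using h1

lemma term_eq (h : S_RR) (c y : ℝ) :
    ∫ t, hk (t - c) * Real.cos (t * y) = Real.cos (c * y) * rr (kap * y / (2 * Real.pi)) := by
  have h1 : ∫ t, hk (t - c) * Real.cos (t * y) =
      ∫ t, (fun t => hk t * Real.cos ((t + c) * y)) (t - c) := by
    congr 1
    ext t
    simp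
  rw [h1, integral_sub_right_eq_self (fun t => hk t * Real.cos ((t + c) * y)) c]
  have h2 : ∀ t, hk t * Real.cos ((t + c) * y) =
      Real.cos (c * y) * (hk t * Real.cos (t * y)) - Real.sin (c * y) *
        (hk t * Real.sin (t * y)) := by
    intro t
    rw [add_mul, Real.cos_add]
    ring
  simp_rw [h2]
  have h3 := mul_cos hk (hk_int h.1) 0 y
  simp only [add_zero] at h3
  rw [integral_sub (h3.const_mul _) ((mul_sin hk (hk_int h.1) y).const_mul _),
    integral_const_mul, integral_const_mul, sin_zero hk hk_even, hk_cos h]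
  ring

lemma rr_nonneg (h : S_P0) (x : ℝ) : 0 ≤ rr x := by
  unfold rr
  exact mul_nonneg (h _ (by positivity)) (Real.exp_pos _).le

/-- the general statement -/
lemma gen (h : S_RR) (hp : S_P0) (Z : Finset ℂ) (m : ℂ → ℝ) (hm : ∀ s, 0 ≤ m s)
    (c L : ℝ) (W : ℝ → ℝ)
    (hW : ∀ u, W u = ∑ s ∈ Z, ∑ s' ∈ Z, m s * m s' *
      (4 / (4 + (s.im - s'.im) ^ 2) * Real.cos (u * (s.im - s'.im)))) :
    Integrable (fun α : ℝ => hk (α - c) * W (α * L)) ∧
    ∫ α : ℝ, hk (α - c) * W (α * L) ≤ ∑ s ∈ Z, ∑ s' ∈ Z, m s * m s' *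
      (rr (kap * L * (s.im - s'.im) / (2 * Real.pi)) * (4 / (4 + (s.im - s'.im) ^ 2))) := by
  have e : ∀ α : ℝ, hk (α - c) * W (α * L) = ∑ s ∈ Z, ∑ s' ∈ Z,
      (m s * m s' * (4 / (4 + (s.im - s'.im) ^ 2))) *
        (hk (α - c) * Real.cos (α * (L * (s.im - s'.im)))) := by
    intro α
    rw [hW, Finset.mul_sum]
    refine Finset.sum_congr rfl fun s _ => ?_
    rw [Finset.mul_sum]
    refine Finset.sum_congr rfl fun s' _ => ?_
    rw [← mul_assoc α L]
    ring
  have hi : ∀ s ∈ Z, ∀ s' ∈ Z, Integrable (fun α : ℝ =>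
      (m s * m s' * (4 / (4 + (s.im - s'.im) ^ 2))) *
        (hk (α - c) * Real.cos (α * (L * (s.im - s'.im))))) :=
    fun s _ s' _ => (term_int h c _).const_mul _
  have e' : (fun α : ℝ => hk (α - c) * W (α * L)) = fun α => ∑ s ∈ Z, ∑ s' ∈ Z,
      (m s * m s' * (4 / (4 + (s.im - s'.im) ^ 2))) *
        (hk (α - c) * Real.cos (α * (L * (s.im - s'.im)))) := funext e
  constructor
  · rw [e']
    exact integrable_finsetSum _ fun s hs => integrable_finsetSum _ fun s' hs' => hi s hs s' hs'
  · rw [e', integral_finsetSum _ fun s hs => integrable_finsetSum _ fun s' hs' => hi s hs s' hs']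
    refine Finset.sum_le_sum fun s hs => ?_
    rw [integral_finsetSum _ fun s' hs' => hi s hs s' hs']
    refine Finset.sum_le_sum fun s' hs' => ?_
    rw [integral_const_mul, term_eq h]
    have h1 : kap * (L * (s.im - s'.im)) / (2 * Real.pi) =
      kap * L * (s.im - s'.im) / (2 * Real.pi) := by ring
    rw [h1]
    have h2 := rr_nonneg hp (kap * L * (s.im - s'.im) / (2 * Real.pi))
    have h3 : 0 ≤ m s * m s' * (4 / (4 + (s.im - s'.im) ^ 2)) :=
      mul_nonneg (mul_nonneg (hm s) (hm s')) (by positivity)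
    have h4 := Real.cos_le_one (c * (L * (s.im - s'.im)))
    calc (m s * m s' * (4 / (4 + (s.im - s'.im) ^ 2))) *
          (Real.cos (c * (L * (s.im - s'.im))) * rr (kap * L * (s.im - s'.im) / (2 * Real.pi)))
        ≤ (m s * m s' * (4 / (4 + (s.im - s'.im) ^ 2))) *
          (1 * rr (kap * L * (s.im - s'.im) / (2 * Real.pi))) := by
          exact mul_le_mul_of_nonneg_left (mul_le_mul_of_nonneg_right h4 h2) h3
      _ = _ := by ring

end F2

theorem f2 : S_F2 := by
  intro hRH T c hT
  have h := F2.gen rrr p0 (H343.ZSide.Z0 T) H343.ZSide.mz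
    (fun s => by unfold H343.ZSide.mz; positivity) c (Real.log T) (Wp T) (fun u => by
      rw [wpc hRH T u]
      rfl)
  refine ⟨h.1, h.2.trans (le_of_eq ?_)⟩
  unfold K2 kw
  rfl

end H332B
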