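import Pool.Agent.H332B.Defs2

/-! # Pair correlation: dyadic iteration for a kernel (adapted from Iter.lean) -/

open Complex Filter Topology Set MeasureTheory
open scoped BigOperators

namespace H332B

namespace KIter

theorem mem_Z0 (T : ℝ) (s : ℂ) : s ∈ H343.ZSide.Z0 T ↔
    0 < s.re ∧ s.re < 1 ∧ 0 < s.im ∧ s.im ≤ T ∧ riemannZeta s = 0 := by
  unfold H343.ZSide.Z0
  rw [Set.Finite.mem_toFinset]
  rfl

theorem mz_nonneg (s : ℂ) : 0 ≤ H343.ZSide.mz s := by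
  unfold H343.ZSide.mz
  exact Nat.cast_nonneg _

theorem Wc_nonneg (T a b : ℝ) : 0 ≤ Wc T a b := by
  unfold Wc
  exact Finset.sum_nonneg (fun s _ => mz_nonneg s)

theorem Wc_tot (T : ℝ) : Wc T 0 T = ∑ s ∈ H343.ZSide.Z0 T, H343.ZSide.mz s := by
  unfold Wc
  rw [Finset.filter_true_of_mem]
  intro s hs
  rw [mem_Z0] at hs
  exact ⟨hs.2.2.1, hs.2.2.2.1⟩

theorem X_le {V T : ℝ} (hV : 1 ≤ V) (hVT : V ≤ T) :
    X V ≤ V * (Real.log T / (2 * Real.pi)) := by
  unfold X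
  have hpi := Real.pi_pos
  rw [mul_div_assoc]
  have h1 : Real.log V ≤ Real.log T := Real.log_le_log (by linarith) hVT
  gcongr

theorem K2_le (T κ : ℝ) (k : ℝ → ℝ) (hκ : 0 ≤ κ) (h1 : ∀ x, 0 ≤ k x ∧ k x ≤ 2)
    (h2 : ∀ x, 1 ≤ |x| → k x ≤ κ) : K2 T k ≤ 2 * N2 T 1 + κ * (Wc T 0 T) ^ 2 := by
  unfold K2 N2
  rw [Wc_tot, sq, Finset.sum_mul_sum, Finset.mul_sum, Finset.mul_sum, ← Finset.sum_add_distrib]
  refine Finset.sum_le_sum (fun s _ => ?_)
  rw [Finset.mul_sum, Finset.mul_sum, ← Finset.sum_add_distrib]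
  refine Finset.sum_le_sum (fun s' _ => ?_)
  have hm := mul_nonneg (mz_nonneg s) (mz_nonneg s')
  have hk := h1 (s.im - s'.im)
  by_cases hx : |s.im - s'.im| ≤ 1
  · rw [if_pos hx]
    have a1 : H343.ZSide.mz s * H343.ZSide.mz s' * k (s.im - s'.im) ≤
        H343.ZSide.mz s * H343.ZSide.mz s' * 2 := mul_le_mul_of_nonneg_left hk.2 hm
    have a2 := mul_nonneg hκ hm
    linarith
  · rw [if_neg hx]
    have a1 : H343.ZSide.mz s * H343.ZSide.mz s' * k (s.im - s'.im) ≤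
        H343.ZSide.mz s * H343.ZSide.mz s' * κ :=
      mul_le_mul_of_nonneg_left (h2 _ (not_le.1 hx).le) hm
    linarith

theorem lim_aux (A B : ℝ) {ε : ℝ} (hε : 0 < ε) : Tendsto (fun T : ℝ =>
    A * (Real.log T ^ 3 / T) + B * (Real.log T ^ 2 / T ^ ε)) atTop (𝓝 0) := by
  have l1 : Tendsto (fun T : ℝ => Real.log T ^ 3 / T) atTop (𝓝 0) :=
    (Real.isLittleO_pow_log_id_atTop (n := 3)).tendsto_div_nhds_zero
  have l2 : Tendsto (fun T : ℝ => Real.log T ^ 2 / T ^ ε) atTop (𝓝 0) := by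
    have h := (isLittleO_log_rpow_rpow_atTop (s := ε) 2 hε).tendsto_div_nhds_zero
    refine h.congr (fun T => ?_)
    rw [Real.rpow_two]
  simpa using (l1.const_mul A).add (l2.const_mul B)

end KIter

open KIter in
theorem kiter : S_KITER := by
  rintro ⟨C, Ta, hC, hTa, hWC⟩ ⟨C', Tb, hC', hTb, hNT⟩ hstep k K ε T0 hK hε hε2 hk hyp η hη
  set V1 : ℝ := max Ta (max Tb 20) with hV1
  have v0 : Ta ≤ V1 := le_max_left _ _
  have v1 : Tb ≤ V1 := (le_max_left _ _).trans (le_max_right _ _)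
  have v2 : (20 : ℝ) ≤ V1 := (le_max_right _ _).trans (le_max_right _ _)
  have hpi := Real.pi_pos
  -- one step
  have one : ∀ T T' : ℝ, T0 ≤ T → T' ≤ T → V1 ≤ T' / 2 → T ^ (1 - ε) ≤ T' / 2 →
      K2 T' (k T) ≤ K2 (T' / 2) (k T) + K * (T' / 2 * (Real.log T / (2 * Real.pi))) +
        (4 * C ^ 2 + C' ^ 2) * Real.log T ^ 2 := by
    intro T T' hT0 hTT hVT hεT
    have hTpos : 0 < T := by linarith
    have hT'pos : 0 < T' := by linarith
    obtain ⟨U1, U2, hR, hB⟩ := hyp T (T' / 2) hT0 hεT (by linarith)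
    have h1 := hstep T' U1 U2 (1 / T ^ 2) (k T) (by linarith) hR (by positivity)
      (fun x => ⟨(hk T x hT0).1, (hk T x hT0).2.1⟩) (fun x hx => (hk T x hT0).2.2 hx)
    have hlog : Real.log T' ≤ Real.log T := Real.log_le_log hT'pos hTT
    have hlog0 : 0 ≤ Real.log T' := Real.log_nonneg (by linarith)
    have h2 : Wc T' (T' / 2 - 1) (T' / 2 + 2) ≤ C * Real.log T :=
      (hWC T' (T' / 2 - 1) (T' / 2 + 2) (by linarith) (by linarith) (by linarith)
        (by linarith)).trans (by gcongr)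
    have h3 : Wc T' (T' - 2) T' ≤ C * Real.log T :=
      (hWC T' (T' - 2) T' (by linarith) (by linarith) (by linarith) le_rfl).trans (by gcongr)
    have h4 : (Wc T' (T' / 2 - 1) (T' / 2 + 2)) ^ 2 ≤ (C * Real.log T) ^ 2 :=
      pow_le_pow_left₀ (Wc_nonneg _ _ _) h2 2
    have h5 : (Wc T' (T' - 2) T') ^ 2 ≤ (C * Real.log T) ^ 2 :=
      pow_le_pow_left₀ (Wc_nonneg _ _ _) h3 2
    have h6 : K * X (T' / 2) ≤ K * (T' / 2 * (Real.log T / (2 * Real.pi))) :=
      mul_le_mul_of_nonneg_left (X_le (by linarith) (by linarith)) hK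
    have h7 : Wc T' 0 T' ≤ C' * (T * Real.log T) :=
      ((hNT T' (by linarith)).1).trans (by gcongr)
    have h8 : 1 / T ^ 2 * (Wc T' 0 T') ^ 2 ≤ C' ^ 2 * Real.log T ^ 2 := by
      calc 1 / T ^ 2 * (Wc T' 0 T') ^ 2 ≤ 1 / T ^ 2 * (C' * (T * Real.log T)) ^ 2 :=
            mul_le_mul_of_nonneg_left (pow_le_pow_left₀ (Wc_nonneg _ _ _) h7 2) (by positivity)
        _ = C' ^ 2 * Real.log T ^ 2 := by field_simp
    have h9 : (C * Real.log T) ^ 2 = C ^ 2 * Real.log T ^ 2 := by ring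
    rw [h9] at h4 h5
    linarith
  -- iteration
  have it : ∀ T : ℝ, T0 ≤ T → 0 < T → ∀ j : ℕ, V1 ≤ T / 2 ^ j → T ^ (1 - ε) ≤ T / 2 ^ j →
      K2 T (k T) ≤ K2 (T / 2 ^ j) (k T) +
        K * ((T - T / 2 ^ j) * (Real.log T / (2 * Real.pi))) +
        (j : ℝ) * ((4 * C ^ 2 + C' ^ 2) * Real.log T ^ 2) := by
    intro T hT0 hT j
    induction j with
    | zero =>
      intro _ _
      simp
    | succ j ih =>
      intro hj hj2
      have e1 : T / 2 ^ (j + 1) = T / 2 ^ j / 2 := by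
        rw [pow_succ]
        field_simp
      rw [e1] at hj hj2 ⊢
      have hp : 0 < T / 2 ^ j := by positivity
      have h1 := ih (by linarith) (by linarith)
      have h2 := one T (T / 2 ^ j) hT0 (div_le_self hT.le (one_le_pow₀ (by norm_num))) hj hj2
      push_cast
      nlinarith [h1, h2]
  -- the end
  have hev : ∀ᶠ T : ℝ in atTop, (2 * (4 * C ^ 2 + C' ^ 2) + C' ^ 2) * (Real.log T ^ 3 / T) +
      (4 * C') * (Real.log T ^ 2 / T ^ ε) ≤ η / (2 * Real.pi) :=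
    ((lim_aux _ _ hε).eventually_lt_const (by positivity)).mono (fun T hT => hT.le)
  have hev2 : ∀ᶠ T : ℝ in atTop, V1 ≤ T ^ (1 - ε) :=
    (tendsto_rpow_atTop (by linarith : 0 < 1 - ε)).eventually_ge_atTop V1
  obtain ⟨T2, hT2⟩ := eventually_atTop.1 (hev.and hev2)
  refine ⟨max T2 (max T0 3), fun T hT => ?_⟩
  have hTa' : T2 ≤ T := (le_max_left _ _).trans hT
  have hTb' : T0 ≤ T := ((le_max_left _ _).trans (le_max_right _ _)).trans hT
  have hTc' : (3 : ℝ) ≤ T := ((le_max_right _ _).trans (le_max_right _ _)).trans hT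
  have hTpos : 0 < T := by linarith
  obtain ⟨a1, a2⟩ := hT2 T hTa'
  obtain ⟨Vm, hVm⟩ : ∃ Vm : ℝ, Vm = T ^ (1 - ε) := ⟨_, rfl⟩
  have hVm1 : V1 ≤ Vm := hVm ▸ a2
  have hVmpos : 0 < Vm := by linarith
  have hVmT : Vm * T ^ ε = T := by
    rw [hVm, ← Real.rpow_add hTpos]
    simp
  have hTε : 1 ≤ T ^ ε := Real.one_le_rpow (by linarith) hε.le
  have hVmle : Vm ≤ T := by
    rw [← hVmT]
    exact le_mul_of_one_le_right hVmpos.le hTε
  obtain ⟨J, hJ1, hJ2⟩ := exists_nat_pow_near (x := T / Vm) (y := 2)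
    (by rw [one_le_div hVmpos]; exact hVmle) (by norm_num)
  have h2J : (0 : ℝ) < 2 ^ J := by positivity
  have k1 : Vm ≤ T / 2 ^ J := by
    rw [le_div_iff₀ h2J, mul_comm]
    rw [le_div_iff₀ hVmpos] at hJ1
    exact hJ1
  have k2 : T / 2 ^ J ≤ 2 * Vm := by
    rw [div_le_iff₀ h2J]
    rw [div_lt_iff₀ hVmpos, pow_succ] at hJ2
    nlinarith
  have hlogT : 1 ≤ Real.log T := by
    rw [Real.le_log_iff_exp_le hTpos]
    have := Real.exp_one_lt_d9
    linarith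
  have k3 : (J : ℝ) ≤ 2 * Real.log T := by
    have b1 : (2 : ℝ) ^ J ≤ T := by
      rw [le_div_iff₀ hVmpos] at hJ1
      nlinarith
    have b2 : (J : ℝ) * Real.log 2 ≤ Real.log T := by
      have := Real.log_le_log h2J b1
      rwa [Real.log_pow] at this
    have b3 := Real.log_two_gt_d9
    have b4 : (0 : ℝ) ≤ J := Nat.cast_nonneg _
    nlinarith
  have k4 := it T hTb' hTpos J (hVm1.trans k1) (hVm ▸ k1)
  have hT'le : T / 2 ^ J ≤ T := div_le_self hTpos.le (one_le_pow₀ (by norm_num))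
  have hT'pos : 0 < T / 2 ^ J := by positivity
  have hlog' : Real.log (T / 2 ^ J) ≤ Real.log T := Real.log_le_log hT'pos hT'le
  have hlog0' : 0 ≤ Real.log (T / 2 ^ J) := Real.log_nonneg (by linarith)
  have hlog0 : 0 ≤ Real.log T := by linarith
  have k5 : K2 (T / 2 ^ J) (k T) ≤ 4 * C' * (Vm * Real.log T ^ 2) + C' ^ 2 * Real.log T ^ 2 := by
    have b0 := K2_le (T / 2 ^ J) (1 / T ^ 2) (k T) (by positivity)
      (fun x => ⟨(hk T x hTb').1, (hk T x hTb').2.1⟩) (fun x hx => (hk T x hTb').2.2 hx)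
    obtain ⟨b1, b2⟩ := hNT (T / 2 ^ J) (by linarith)
    have b3 : N2 (T / 2 ^ J) 1 ≤ C' * (2 * Vm * Real.log T ^ 2) := b2.trans (by gcongr)
    have b4 : Wc (T / 2 ^ J) 0 (T / 2 ^ J) ≤ C' * (T * Real.log T) := b1.trans (by gcongr)
    have b5 : 1 / T ^ 2 * (Wc (T / 2 ^ J) 0 (T / 2 ^ J)) ^ 2 ≤ C' ^ 2 * Real.log T ^ 2 := by
      calc 1 / T ^ 2 * (Wc (T / 2 ^ J) 0 (T / 2 ^ J)) ^ 2 ≤
            1 / T ^ 2 * (C' * (T * Real.log T)) ^ 2 :=
            mul_le_mul_of_nonneg_left (pow_le_pow_left₀ (Wc_nonneg _ _ _) b4 2) (by positivity)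
        _ = C' ^ 2 * Real.log T ^ 2 := by field_simp
    linarith
  have k6 : K * ((T - T / 2 ^ J) * (Real.log T / (2 * Real.pi))) ≤ K * X T := by
    refine mul_le_mul_of_nonneg_left ?_ hK
    unfold X
    rw [mul_div_assoc]
    have hL : 0 ≤ Real.log T / (2 * Real.pi) := by positivity
    nlinarith
  have k7 : (J : ℝ) * ((4 * C ^ 2 + C' ^ 2) * Real.log T ^ 2) ≤
      2 * (4 * C ^ 2 + C' ^ 2) * Real.log T ^ 3 := by
    have b1 : (0 : ℝ) ≤ (4 * C ^ 2 + C' ^ 2) * Real.log T ^ 2 := by positivity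
    calc (J : ℝ) * ((4 * C ^ 2 + C' ^ 2) * Real.log T ^ 2) ≤
          (2 * Real.log T) * ((4 * C ^ 2 + C' ^ 2) * Real.log T ^ 2) :=
          mul_le_mul_of_nonneg_right k3 b1
      _ = 2 * (4 * C ^ 2 + C' ^ 2) * Real.log T ^ 3 := by ring
  have k7' : C' ^ 2 * Real.log T ^ 2 ≤ C' ^ 2 * Real.log T ^ 3 := by
    apply mul_le_mul_of_nonneg_left _ (by positivity)
    exact pow_le_pow_right₀ hlogT (by norm_num)
  have k8 : (2 * (4 * C ^ 2 + C' ^ 2) + C' ^ 2) * Real.log T ^ 3 +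
      4 * C' * (Vm * Real.log T ^ 2) ≤ η * X T := by
    have c2 : (2 * (4 * C ^ 2 + C' ^ 2) + C' ^ 2) * Real.log T ^ 3 +
        4 * C' * (Vm * Real.log T ^ 2) =
        T * ((2 * (4 * C ^ 2 + C' ^ 2) + C' ^ 2) * (Real.log T ^ 3 / T) +
          (4 * C') * (Real.log T ^ 2 / T ^ ε)) := by
      have c1 : Vm = T / T ^ ε := by
        rw [eq_div_iff (by positivity)]
        exact hVmT
      rw [c1]
      field_simp
    rw [c2]
    have c3 := mul_le_mul_of_nonneg_left a1 hTpos.le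
    have c4 : T * (η / (2 * Real.pi)) ≤ η * X T := by
      unfold X
      have c5 : η * (T * Real.log T / (2 * Real.pi)) = T * (η / (2 * Real.pi)) * Real.log T := by
        field_simp
      rw [c5]
      exact le_mul_of_one_le_right (by positivity) hlogT
    linarith
  have k9 : (K + η) * X T = K * X T + η * X T := by ring
  rw [k9]
  linarith

end H332B
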