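import Pool.Agent.H332B.Defs2
import Pool.Agent.H332B.Step

/-! # Pair correlation: one dyadic step for a kernel -/

open Complex Filter Topology Set MeasureTheory
open scoped BigOperators

namespace H332B

open Step in
open Classical in
theorem kstep : S_KSTEP := by
  intro T U1 U2 κ0 k hT hR hκ hk hk1
  obtain ⟨r1, r2, r3, r4⟩ := hR
  set Z := H343.ZSide.Z0 T with hZ
  set m := H343.ZSide.mz with hm
  have e1 : H343.ZSide.Z0 (T / 2) = Z.filter (fun s => s.im ≤ T / 2) := by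
    ext s
    rw [Finset.mem_filter, mem_Z0, hZ, mem_Z0]
    constructor
    · rintro ⟨a1, a2, a3, a4, a5⟩
      exact ⟨⟨a1, a2, a3, by linarith, a5⟩, a4⟩
    · rintro ⟨⟨a1, a2, a3, -, a5⟩, a4⟩
      exact ⟨a1, a2, a3, a4, a5⟩
  have e2 : Zb U1 U2 = Z.filter (fun s => U1 < s.im ∧ s.im ≤ U2) := by
    ext s
    rw [Finset.mem_filter, mem_Zb U1 U2 (by linarith), hZ, mem_Z0]
    constructor
    · rintro ⟨a1, a2, a3, a4, a5⟩
      exact ⟨⟨a1, a2, by linarith, by linarith, a5⟩, a3, a4⟩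
    · rintro ⟨⟨a1, a2, -, -, a5⟩, a3, a4⟩
      exact ⟨a1, a2, a3, a4, a5⟩
  have f0 : K2 T k = ∑ s ∈ Z, ∑ s' ∈ Z, m s * m s' * k (s.im - s'.im) := rfl
  have f1 : K2 (T / 2) k = ∑ s ∈ Z, ∑ s' ∈ Z, ind (s.im ≤ T / 2 ∧ s'.im ≤ T / 2)
      (m s * m s' * k (s.im - s'.im)) := by
    rw [← sum_filter2 Z (fun s => s.im ≤ T / 2)
      (fun s s' => m s * m s' * k (s.im - s'.im)), ← e1]
    rfl
  have f2 : KB U1 U2 k = ∑ s ∈ Z, ∑ s' ∈ Z,
      ind ((U1 < s.im ∧ s.im ≤ U2) ∧ (U1 < s'.im ∧ s'.im ≤ U2))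
      (m s * m s' * k (s.im - s'.im)) := by
    rw [← sum_filter2 Z (fun s => U1 < s.im ∧ s.im ≤ U2)
      (fun s s' => m s * m s' * k (s.im - s'.im)), ← e2]
    rfl
  have f3 : ∀ a b : ℝ, (Wc T a b) ^ 2 = ∑ s ∈ Z, ∑ s' ∈ Z,
      ind ((a < s.im ∧ s.im ≤ b) ∧ (a < s'.im ∧ s'.im ≤ b)) (m s * m s') := by
    intro a b
    rw [← sum_filter2 Z (fun s => a < s.im ∧ s.im ≤ b) (fun s s' => m s * m s'), sq]
    have : Wc T a b = ∑ s ∈ Z.filter (fun s => a < s.im ∧ s.im ≤ b), m s := by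
      unfold Wc
      refine Finset.sum_congr ?_ (fun _ _ => rfl)
      ext s
      simp only [Finset.mem_filter]
      rfl
    rw [this, Finset.sum_mul_sum]
  have f4 : (Wc T 0 T) ^ 2 = ∑ s ∈ Z, ∑ s' ∈ Z, m s * m s' := by
    have : Wc T 0 T = ∑ s ∈ Z, m s := by
      unfold Wc
      refine Finset.sum_congr ?_ (fun _ _ => rfl)
      ext s
      simp only [Finset.mem_filter]
      constructor
      · exact fun h => h.1
      · intro h
        refine ⟨h, ?_⟩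
        rw [hZ, mem_Z0] at h
        exact ⟨h.2.2.1, h.2.2.2.1⟩
    rw [this, sq, Finset.sum_mul_sum]
  rw [f0, f1, f2, f3, f3, f4]
  simp only [Finset.mul_sum, ← Finset.sum_add_distrib]
  refine Finset.sum_le_sum (fun s hs => Finset.sum_le_sum (fun s' hs' => ?_))
  rw [hZ, mem_Z0] at hs hs'
  have g1 : s.im ≤ T := hs.2.2.2.1
  have g2 : s'.im ≤ T := hs'.2.2.2.1
  have hmm : 0 ≤ m s * m s' := mul_nonneg (mz_nonneg s) (mz_nonneg s')
  have q3 := ind_nonneg ((T / 2 - 1 < s.im ∧ s.im ≤ T / 2 + 2) ∧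
    (T / 2 - 1 < s'.im ∧ s'.im ≤ T / 2 + 2)) hmm
  have q4 := ind_nonneg ((T - 2 < s.im ∧ s.im ≤ T) ∧ (T - 2 < s'.im ∧ s'.im ≤ T)) hmm
  set x := s.im - s'.im with hx
  have hmi : 0 ≤ m s * m s' * k x := mul_nonneg hmm (hk x).1
  have hmi2 : m s * m s' * k x ≤ 2 * (m s * m s') := by
    have := mul_le_mul_of_nonneg_left (hk x).2 hmm
    linarith
  have q5 : 0 ≤ κ0 * (m s * m s') := mul_nonneg hκ hmm
  have q1 := ind_nonneg (s.im ≤ T / 2 ∧ s'.im ≤ T / 2) hmi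
  have q2 := ind_nonneg ((U1 < s.im ∧ s.im ≤ U2) ∧ (U1 < s'.im ∧ s'.im ≤ U2)) hmi
  by_cases h0 : |x| < 1
  · rw [abs_lt] at h0
    obtain ⟨h1, h2⟩ := h0
    by_cases c1 : s.im ≤ T / 2 ∧ s'.im ≤ T / 2
    · rw [ind_pos c1] at q1 ⊢
      linarith
    by_cases c2 : (U1 < s.im ∧ s.im ≤ U2) ∧ (U1 < s'.im ∧ s'.im ≤ U2)
    · rw [ind_pos c2] at q2 ⊢
      linarith
    by_cases c3 : (T / 2 - 1 < s.im ∧ s.im ≤ T / 2 + 2) ∧ (T / 2 - 1 < s'.im ∧ s'.im ≤ T / 2 + 2)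
    · rw [ind_pos c3] at q3 ⊢
      linarith
    · have c4 : (T - 2 < s.im ∧ s.im ≤ T) ∧ (T - 2 < s'.im ∧ s'.im ≤ T) := by
        by_contra c4
        have n1 : ¬ (s.im ≤ T / 2) ∨ ¬ (s'.im ≤ T / 2) := by
          by_contra hcon
          push Not at hcon
          exact c1 hcon
        -- both are larger than `T / 2 - 1`
        have l1 : T / 2 - 1 < s.im := by
          rcases n1 with n | n <;> linarith [not_le.1 n]
        have l2 : T / 2 - 1 < s'.im := by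
          rcases n1 with n | n <;> linarith [not_le.1 n]
        have l3 : T / 2 + 2 < s.im ∨ T / 2 + 2 < s'.im := by
          by_contra hcon
          push Not at hcon
          exact c3 ⟨⟨l1, hcon.1⟩, ⟨l2, hcon.2⟩⟩
        have l4 : U1 < s.im := by
          rcases l3 with n | n <;> linarith
        have l5 : U1 < s'.im := by
          rcases l3 with n | n <;> linarith
        have l6 : U2 < s.im ∨ U2 < s'.im := by
          by_contra hcon
          push Not at hcon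
          exact c2 ⟨⟨l4, hcon.1⟩, ⟨l5, hcon.2⟩⟩
        apply c4
        rcases l6 with n | n
        · exact ⟨⟨by linarith, g1⟩, ⟨by linarith, g2⟩⟩
        · exact ⟨⟨by linarith, g1⟩, ⟨by linarith, g2⟩⟩
      rw [ind_pos c4] at q4 ⊢
      linarith
  · rw [not_lt] at h0
    have := mul_le_mul_of_nonneg_left (hk1 x h0) hmm
    linarith

end H332B
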