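import Pool.Agent.H332B.QP

open Complex Filter Topology Set MeasureTheory
open scoped BigOperators

namespace H332B

namespace J1

/-- the polynomial of the antiderivative -/
noncomputable def Gp (w : ℝ) : ℝ :=
  (459433264073019 / 256000000000000 : ℝ) +
    (-(13569118486757 / 128000000000000) : ℝ) * w +
    (-(3168040325023 / 64000000000000) : ℝ) * w ^ 2 +
    (-(573453883819 / 32000000000000) : ℝ) * w ^ 3 +
    (-(12429594781 / 48000000000000) : ℝ) * w ^ 4 +
    (404229613 / 40000000000000 : ℝ) * w ^ 5 +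
    (274025543 / 20000000000000 : ℝ) * w ^ 6 +
    (-(375315371 / 630000000000000) : ℝ) * w ^ 7

/-- its derivative -/
noncomputable def Gd (w : ℝ) : ℝ :=
  (-(13569118486757 / 128000000000000) : ℝ) +
    (-(3168040325023 / 32000000000000) : ℝ) * w +
    (-(1720361651457 / 32000000000000) : ℝ) * w ^ 2 +
    (-(12429594781 / 12000000000000) : ℝ) * w ^ 3 +
    (404229613 / 8000000000000 : ℝ) * w ^ 4 +
    (822076629 / 10000000000000 : ℝ) * w ^ 5 +
    (-(375315371 / 90000000000000) : ℝ) * w ^ 6

theorem hasDeriv_G (w : ℝ) : HasDerivAt Gp (Gd w) w := by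
  unfold Gp Gd
  have h1 : HasDerivAt (fun w : ℝ => w) 1 w := hasDerivAt_id w
  have h2 := hasDerivAt_pow 2 w
  have h3 := hasDerivAt_pow 3 w
  have h4 := hasDerivAt_pow 4 w
  have h5 := hasDerivAt_pow 5 w
  have h6 := hasDerivAt_pow 6 w
  have h7 := hasDerivAt_pow 7 w
  refine (((((((h1.const_mul (-(13569118486757 / 128000000000000) : ℝ)).const_add (459433264073019 / 256000000000000 : ℝ)).fun_add (h2.const_mul (-(3168040325023 / 64000000000000) : ℝ))).fun_add
    (h3.const_mul (-(573453883819 / 32000000000000) : ℝ))).fun_add (h4.const_mul (-(12429594781 / 48000000000000) : ℝ))).fun_add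
    (h5.const_mul (404229613 / 40000000000000 : ℝ))).fun_add (h6.const_mul (274025543 / 20000000000000 : ℝ))).fun_add
    (h7.const_mul (-(375315371 / 630000000000000) : ℝ)) |>.congr_deriv ?_
  norm_num
  ring

theorem ode (w : ℝ) : Gp w / 2 - Gd w = Qp w := by
  unfold Gp Gd Qp
  ring

theorem G0 : Gp 0 = (459433264073019 / 256000000000000 : ℝ) := by
  unfold Gp
  norm_num

theorem G1 : Gp (627 / 100) = (-(34510226306975990279010339507 / 7000000000000000000000000000) : ℝ) := by
  unfold Gp
  norm_num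

/-- upper bound of `Qp` right of `6.27` -/
theorem Q_le (w : ℝ) (h1 : 627 / 100 ≤ w) (h2 : w ≤ 6284 / 1000) : Qp w ≤ 93 / 10000 := by
  obtain ⟨t, rfl⟩ : ∃ t, w = 627 / 100 + t := ⟨w - 627 / 100, by ring⟩
  have ht0 : 0 ≤ t := by linarith
  have ht1 : t ≤ 14 / 1000 := by linarith
  have e : Qp (627 / 100 + t) = (129100877034218853187947893 / 14000000000000000000000000000 : ℝ)
      + t * ((-(15688190976420132575184891 / 20000000000000000000000000) : ℝ)
      + t * ((-(31562236440978364618249 / 200000000000000000000000) : ℝ)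
      + t * ((-(5462921409416829737 / 1200000000000000000000) : ℝ)
      + t * ((15963721458975919 / 12000000000000000000 : ℝ)
      + t * ((18307158944447 / 200000000000000000 : ℝ)
      + t * ((-(36948169067 / 18000000000000000) : ℝ)
      + t * (-(375315371 / 1260000000000000) : ℝ))))))) := by
    unfold Qp
    ring
  rw [e]
  have hb : ∀ (c : ℝ) (u : ℝ), u ≤ 1 → c ≤ 1 → c + t * u ≤ 2 := by
    intro c u hu hc
    nlinarith
  have h7 : (-(36948169067 / 18000000000000000) : ℝ) + t * (-(375315371 / 1260000000000000) : ℝ)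
      ≤ 1 := by nlinarith
  set u6 := (-(36948169067 / 18000000000000000) : ℝ) + t * (-(375315371 / 1260000000000000) : ℝ)
  have h6 : (18307158944447 / 200000000000000000 : ℝ) + t * u6 ≤ 1 := by nlinarith
  set u5 := (18307158944447 / 200000000000000000 : ℝ) + t * u6
  have h5 : (15963721458975919 / 12000000000000000000 : ℝ) + t * u5 ≤ 1 := by nlinarith
  set u4 := (15963721458975919 / 12000000000000000000 : ℝ) + t * u5
  have h4 : (-(5462921409416829737 / 1200000000000000000000) : ℝ) + t * u4 ≤ 1 := by nlinarith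
  set u3 := (-(5462921409416829737 / 1200000000000000000000) : ℝ) + t * u4
  have h3 : (-(31562236440978364618249 / 200000000000000000000000) : ℝ) + t * u3 ≤ 1 := by nlinarith
  set u2 := (-(31562236440978364618249 / 200000000000000000000000) : ℝ) + t * u3
  have h2' : (-(15688190976420132575184891 / 20000000000000000000000000) : ℝ) + t * u2 ≤ 0 := by
    nlinarith
  nlinarith

/-- the antiderivative -/
noncomputable def Fa (a : ℝ) : ℝ :=
  -(Gp (2 * Real.pi * a ^ 2) * Real.exp (-(Real.pi * a ^ 2))) / (2 * Real.pi)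

theorem hasDeriv_F (a : ℝ) : HasDerivAt Fa (2 * (a * rh a)) a := by
  have hw : HasDerivAt (fun a : ℝ => 2 * Real.pi * a ^ 2) (4 * Real.pi * a) a :=
    ((hasDerivAt_pow 2 a).const_mul (2 * Real.pi)).congr_deriv (by norm_num; ring)
  have h1 : HasDerivAt (fun a : ℝ => Gp (2 * Real.pi * a ^ 2))
      (Gd (2 * Real.pi * a ^ 2) * (4 * Real.pi * a)) a := (hasDeriv_G _).comp a hw
  have he : HasDerivAt (fun a : ℝ => Real.exp (-(Real.pi * a ^ 2)))
      (Real.exp (-(Real.pi * a ^ 2)) * (-(2 * Real.pi * a))) a := by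
    have h2 : HasDerivAt (fun a : ℝ => -(Real.pi * a ^ 2)) (-(2 * Real.pi * a)) a :=
      (((hasDerivAt_pow 2 a).const_mul Real.pi).fun_neg).congr_deriv (by norm_num; ring)
    exact h2.exp
  have h3 := ((h1.fun_mul he).fun_neg).div_const (2 * Real.pi)
  refine h3.congr_deriv ?_
  unfold rh
  rw [← ode]
  have hpi := Real.pi_pos
  field_simp
  ring

theorem cont_rh : Continuous rh := by
  unfold rh Qp
  fun_prop

theorem cont_RR : Continuous RR := by
  unfold RR
  exact cont_rh.max continuous_const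

/-- `e^(-3.135)` -/
theorem exp_le : Real.exp (-(3135 / 1000)) ≤ 43501 / 1000000 := by
  have h1 : (27182818283 / 10000000000 : ℝ) ≤ Real.exp 1 := by
    have := Real.exp_one_gt_d9
    norm_num at this ⊢
    linarith
  have h2 : 1 + 135 / 1000 + (135 / 1000) ^ 2 / 2 + (135 / 1000) ^ 3 / 6 ≤ Real.exp (135 / 1000) := by
    have := Real.sum_le_exp_of_nonneg (x := 135 / 1000) (by norm_num) 4
    simp only [Finset.sum_range_succ, Finset.sum_range_zero, Nat.factorial] at this
    norm_num at this ⊢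
    linarith
  have h3 : Real.exp (3135 / 1000) = Real.exp 1 ^ 3 * Real.exp (135 / 1000) := by
    rw [← Real.exp_nat_mul, ← Real.exp_add]
    norm_num
  have h4 : (1000000 / 43501 : ℝ) ≤ Real.exp (3135 / 1000) := by
    rw [h3]
    calc (1000000 / 43501 : ℝ) ≤ (27182818283 / 10000000000) ^ 3 *
          (1 + 135 / 1000 + (135 / 1000) ^ 2 / 2 + (135 / 1000) ^ 3 / 6) := by norm_num
      _ ≤ Real.exp 1 ^ 3 * Real.exp (135 / 1000) :=
        mul_le_mul (pow_le_pow_left₀ (by norm_num) h1 3) h2 (by norm_num) (by positivity)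
  rw [Real.exp_neg, inv_le_comm₀ (Real.exp_pos _) (by norm_num)]
  refine le_trans ?_ h4
  norm_num

end J1

open J1 in
theorem j1 : S_J1 := by
  unfold S_J1
  have hpi0 := Real.pi_pos
  have hpi1 := Real.pi_gt_d6
  have hpi2 := Real.pi_lt_d6
  set a1 : ℝ := Real.sqrt (627 / 100 / (2 * Real.pi)) with ha1
  have ha1sq : a1 ^ 2 = 627 / 100 / (2 * Real.pi) := Real.sq_sqrt (by positivity)
  have ha1w : 2 * Real.pi * a1 ^ 2 = 627 / 100 := by
    rw [ha1sq]; field_simp
  have ha10 : 0 ≤ a1 := Real.sqrt_nonneg _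
  have ha11 : a1 ≤ 1 := by
    rw [ha1]
    apply Real.sqrt_le_one.2
    rw [div_le_one (by positivity)]
    linarith
  have hcont : Continuous fun α : ℝ => α * RR α := continuous_id.mul cont_RR
  have hsplit : ∫ α in (0 : ℝ)..1, α * RR α =
      (∫ α in (0 : ℝ)..a1, α * RR α) + ∫ α in a1..1, α * RR α :=
    (intervalIntegral.integral_add_adjacent_intervals (hcont.intervalIntegrable _ _)
      (hcont.intervalIntegrable _ _)).symm
  -- first part
  have hfirst : 2 * ∫ α in (0 : ℝ)..a1, α * RR α = Fa a1 - Fa 0 := by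
    have h1 : ∫ α in (0 : ℝ)..a1, α * RR α = ∫ α in (0 : ℝ)..a1, α * rh α := by
      refine intervalIntegral.integral_congr fun α hα => ?_
      rw [Set.uIcc_of_le ha10] at hα
      have hw0 : 0 ≤ 2 * Real.pi * α ^ 2 := by positivity
      have hw1 : 2 * Real.pi * α ^ 2 ≤ 627 / 100 := by
        rw [← ha1w]
        have : α ^ 2 ≤ a1 ^ 2 := pow_le_pow_left₀ hα.1 hα.2 2
        nlinarith
      have h2 : 0 ≤ rh α := mul_nonneg (qp _ hw0 hw1) (Real.exp_pos _).le
      change α * RR α = α * rh α
      unfold RR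
      rw [max_eq_left h2]
    rw [h1, ← intervalIntegral.integral_const_mul]
    refine intervalIntegral.integral_eq_sub_of_hasDerivAt (fun x _ => hasDeriv_F x) ?_
    exact (continuous_const.mul (continuous_id.mul cont_rh)).intervalIntegrable _ _
  -- second part
  set η : ℝ := 93 / 10000 * Real.exp (-(3135 / 1000)) with hη
  have hη0 : 0 ≤ η := by positivity
  have hRle : ∀ α ∈ Set.Icc a1 1, RR α ≤ η := by
    intro α hα
    have hα0 : 0 ≤ α := ha10.trans hα.1
    have hw1 : 627 / 100 ≤ 2 * Real.pi * α ^ 2 := by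
      rw [← ha1w]
      have : a1 ^ 2 ≤ α ^ 2 := pow_le_pow_left₀ ha10 hα.1 2
      nlinarith
    have hw2 : 2 * Real.pi * α ^ 2 ≤ 6284 / 1000 := by
      have : α ^ 2 ≤ 1 := pow_le_one₀ hα0 hα.2
      nlinarith
    unfold RR
    refine max_le ?_ hη0
    unfold rh
    have h1 := Q_le _ hw1 hw2
    have h2 : Real.exp (-(Real.pi * α ^ 2)) ≤ Real.exp (-(3135 / 1000)) := by
      apply Real.exp_le_exp.2
      linarith
    calc Qp (2 * Real.pi * α ^ 2) * Real.exp (-(Real.pi * α ^ 2))
        ≤ 93 / 10000 * Real.exp (-(Real.pi * α ^ 2)) :=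
          mul_le_mul_of_nonneg_right h1 (Real.exp_pos _).le
      _ ≤ η := mul_le_mul_of_nonneg_left h2 (by norm_num)
  have hsecond : ∫ α in a1..1, α * RR α ≤ η * (1 - a1) := by
    have h1 : ∫ α in a1..1, α * RR α ≤ ∫ _α in a1..1, η := by
      refine intervalIntegral.integral_mono_on ha11 (hcont.intervalIntegrable _ _)
        (continuous_const.intervalIntegrable _ _) fun α hα => ?_
      have h2 := hRle α hα
      have h3 : 0 ≤ RR α := le_max_right _ _
      have h4 : 0 ≤ α := ha10.trans hα.1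
      calc α * RR α ≤ 1 * RR α := mul_le_mul_of_nonneg_right hα.2 h3
        _ ≤ η := by rw [one_mul]; exact h2
    refine h1.trans (le_of_eq ?_)
    rw [intervalIntegral.integral_const, smul_eq_mul, mul_comm]
  have ha1lb : 99 / 100 * (1 - a1) ≤ 1 / 2 * (1 - a1 ^ 2) := by
    have h9 : 98 / 100 ≤ a1 := by
      rw [ha1]
      apply Real.le_sqrt_of_sq_le
      rw [le_div_iff₀ (by positivity)]
      nlinarith
    nlinarith
  have hE := exp_le
  have hE0 := Real.exp_pos (-(3135 / 1000))
  have hF1 : Fa a1 - Fa 0 = (459433264073019 / 256000000000000 +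
      34510226306975990279010339507 / 7000000000000000000000000000 *
        Real.exp (-(3135 / 1000))) / (2 * Real.pi) := by
    unfold Fa
    have h1 : Real.pi * a1 ^ 2 = 3135 / 1000 := by linarith
    rw [ha1w, h1, G1]
    have h2 : 2 * Real.pi * (0 : ℝ) ^ 2 = 0 := by ring
    have h3 : -(Real.pi * (0 : ℝ) ^ 2) = 0 := by ring
    rw [h2, h3, G0, Real.exp_zero]
    ring
  have hsq : 1 - a1 ^ 2 = (2 * Real.pi - 627 / 100) / (2 * Real.pi) := by
    rw [ha1sq]; field_simp
  rw [hsplit, mul_add, hfirst, hF1]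
  have hs2 : 2 * ∫ α in a1..1, α * RR α ≤ η * (100 / 99) * (1 - a1 ^ 2) := by
    have : 1 - a1 ≤ 50 / 99 * (1 - a1 ^ 2) := by linarith
    nlinarith
  refine (add_le_add_right hs2 _).trans ?_
  rw [hsq, mul_div_assoc', ← add_div, div_le_iff₀ (by positivity)]
  have h5 : η * (100 / 99) * (2 * Real.pi - 627 / 100) ≤
      93 / 10000 * (43501 / 1000000) * (100 / 99) * (14 / 1000) := by
    have h6 : η ≤ 93 / 10000 * (43501 / 1000000) := mul_le_mul_of_nonneg_left hE (by norm_num)
    have h7 : 2 * Real.pi - 627 / 100 ≤ 14 / 1000 := by linarith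
    have h8 : 0 ≤ 2 * Real.pi - 627 / 100 := by linarith
    exact mul_le_mul (mul_le_mul_of_nonneg_right h6 (by norm_num)) h7 h8 (by norm_num)
  nlinarith

end H332B
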