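import Pool.Agent.H332B.Num

set_option maxRecDepth 4000

namespace H332B

namespace BB

theorem c0 (x y : ℝ) (hx : 0 ≤ x) (hy : 0 ≤ y) (h : x + y = (1 / 16 : ℝ)) : 0 ≤ (3 / 2 - ((1 : ℝ) + x) - ((1 : ℝ) + x) * Bp (((1 : ℝ) + x) ^ 2)) := by
  have hy2 : y = (1 / 16 : ℝ) - x := by linarith
  have e : (3 / 2 - ((1 : ℝ) + x) - ((1 : ℝ) + x) * Bp (((1 : ℝ) + x) ^ 2)) = (11479810048 / 15625 : ℝ) * (x ^ 0 * y ^ 7) + (61604102144 / 15625 : ℝ) * (x ^ 1 * y ^ 6) + (138205855744 / 15625 : ℝ) * (x ^ 2 * y ^ 5) + (167230763008 / 15625 : ℝ) * (x ^ 3 * y ^ 4) + (117171808832 / 15625 : ℝ) * (x ^ 4 * y ^ 3) + (1888414172 / 625 : ℝ) * (x ^ 5 * y ^ 2) + (40260771373 / 62500 : ℝ) * (x ^ 6 * y ^ 1) + (56156784347 / 1000000 : ℝ) * (x ^ 7 * y ^ 0) := by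
    unfold Bp
    rw [hy2]
    ring
  rw [e]
  positivity

theorem c1 (x y : ℝ) (hx : 0 ≤ x) (hy : 0 ≤ y) (h : x + y = (1 / 32 : ℝ)) : 0 ≤ (3 / 2 - ((17 / 16 : ℝ) + x) - ((17 / 16 : ℝ) + x) * Bp (((17 / 16 : ℝ) + x) ^ 2)) := by
  have hy2 : y = (1 / 32 : ℝ) - x := by linarith
  have e : (3 / 2 - ((17 / 16 : ℝ) + x) - ((17 / 16 : ℝ) + x) * Bp (((17 / 16 : ℝ) + x) ^ 2)) = (112313568694 / 15625 : ℝ) * (x ^ 0 * y ^ 7) + (535120129319 / 15625 : ℝ) * (x ^ 1 * y ^ 6) + (2039992761359 / 31250 : ℝ) * (x ^ 2 * y ^ 5) + (3927839404987 / 62500 : ℝ) * (x ^ 3 * y ^ 4) + (3997879378561 / 125000 : ℝ) * (x ^ 4 * y ^ 3) + (2227570737221 / 250000 : ℝ) * (x ^ 5 * y ^ 2) + (1012009151957 / 500000 : ℝ) * (x ^ 6 * y ^ 1) + (94297699717 / 200000 : ℝ) * (x ^ 7 * y ^ 0) := by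
    unfold Bp
    rw [hy2]
    ring
  rw [e]
  positivity

theorem c2 (x y : ℝ) (hx : 0 ≤ x) (hy : 0 ≤ y) (h : x + y = (1 / 32 : ℝ)) : 0 ≤ (3 / 2 - ((35 / 32 : ℝ) + x) - ((35 / 32 : ℝ) + x) * Bp (((35 / 32 : ℝ) + x) ^ 2)) := by
  have hy2 : y = (1 / 32 : ℝ) - x := by linarith
  have e : (3 / 2 - ((35 / 32 : ℝ) + x) - ((35 / 32 : ℝ) + x) * Bp (((35 / 32 : ℝ) + x) ^ 2)) = (94297699717 / 200000 : ℝ) * (x ^ 0 * y ^ 7) + (1144205169069 / 250000 : ℝ) * (x ^ 1 * y ^ 6) + (1514193573941 / 62500 : ℝ) * (x ^ 2 * y ^ 5) + (1057741809833 / 15625 : ℝ) * (x ^ 3 * y ^ 4) + (1618485918572 / 15625 : ℝ) * (x ^ 4 * y ^ 3) + (1376538872688 / 15625 : ℝ) * (x ^ 5 * y ^ 2) + (613353571776 / 15625 : ℝ) * (x ^ 6 * y ^ 1) + (111961387776 / 15625 : ℝ) * (x ^ 7 * y ^ 0) := by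
    unfold Bp
    rw [hy2]
    ring
  rw [e]
  positivity

theorem c3 (x y : ℝ) (hx : 0 ≤ x) (hy : 0 ≤ y) (h : x + y = (1 / 8 : ℝ)) : 0 ≤ (3 / 2 - ((9 / 8 : ℝ) + x) - ((9 / 8 : ℝ) + x) * Bp (((9 / 8 : ℝ) + x) ^ 2)) := by
  have hy2 : y = (1 / 8 : ℝ) - x := by linarith
  have e : (3 / 2 - ((9 / 8 : ℝ) + x) - ((9 / 8 : ℝ) + x) * Bp (((9 / 8 : ℝ) + x) ^ 2)) = (437349171 / 1000000 : ℝ) * (x ^ 0 * y ^ 7) + (2861785713 / 500000 : ℝ) * (x ^ 1 * y ^ 6) + (7033126887 / 250000 : ℝ) * (x ^ 2 * y ^ 5) + (8219318429 / 125000 : ℝ) * (x ^ 3 * y ^ 4) + (5101332553 / 62500 : ℝ) * (x ^ 4 * y ^ 3) + (1722993347 / 31250 : ℝ) * (x ^ 5 * y ^ 2) + (297660381 / 15625 : ℝ) * (x ^ 6 * y ^ 1) + (8211398 / 3125 : ℝ) * (x ^ 7 * y ^ 0) := by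
    unfold Bp
    rw [hy2]
    ring
  rw [e]
  positivity

theorem c4 (x y : ℝ) (hx : 0 ≤ x) (hy : 0 ≤ y) (h : x + y = (1 / 8 : ℝ)) : 0 ≤ (3 / 2 - ((5 / 4 : ℝ) + x) - ((5 / 4 : ℝ) + x) * Bp (((5 / 4 : ℝ) + x) ^ 2)) := by
  have hy2 : y = (1 / 8 : ℝ) - x := by linarith
  have e : (3 / 2 - ((5 / 4 : ℝ) + x) - ((5 / 4 : ℝ) + x) * Bp (((5 / 4 : ℝ) + x) ^ 2)) = (8211398 / 3125 : ℝ) * (x ^ 0 * y ^ 7) + (277137479 / 15625 : ℝ) * (x ^ 1 * y ^ 6) + (1476718523 / 31250 : ℝ) * (x ^ 2 * y ^ 5) + (3903871747 / 62500 : ℝ) * (x ^ 3 * y ^ 4) + (5206960621 / 125000 : ℝ) * (x ^ 4 * y ^ 3) + (3015404693 / 250000 : ℝ) * (x ^ 5 * y ^ 2) + (382033577 / 500000 : ℝ) * (x ^ 6 * y ^ 1) + (42138209 / 1000000 : ℝ) * (x ^ 7 * y ^ 0) := by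
    unfold Bp
    rw [hy2]
    ring
  rw [e]
  positivity

theorem c5 (x y : ℝ) (hx : 0 ≤ x) (hy : 0 ≤ y) (h : x + y = (1 / 16 : ℝ)) : 0 ≤ (3 / 2 - ((11 / 8 : ℝ) + x) - ((11 / 8 : ℝ) + x) * Bp (((11 / 8 : ℝ) + x) ^ 2)) := by
  have hy2 : y = (1 / 16 : ℝ) - x := by linarith
  have e : (3 / 2 - ((11 / 8 : ℝ) + x) - ((11 / 8 : ℝ) + x) * Bp (((11 / 8 : ℝ) + x) ^ 2)) = (84276418 / 15625 : ℝ) * (x ^ 0 * y ^ 7) + (24167047 / 3125 : ℝ) * (x ^ 1 * y ^ 6) + (6272531501 / 31250 : ℝ) * (x ^ 2 * y ^ 5) + (75940138327 / 62500 : ℝ) * (x ^ 3 * y ^ 4) + (355004977171 / 125000 : ℝ) * (x ^ 4 * y ^ 3) + (808822307417 / 250000 : ℝ) * (x ^ 5 * y ^ 2) + (181568486611 / 100000 : ℝ) * (x ^ 6 * y ^ 1) + (403774595693 / 1000000 : ℝ) * (x ^ 7 * y ^ 0) := by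
    unfold Bp
    rw [hy2]
    ring
  rw [e]
  positivity

theorem c6 (x y : ℝ) (hx : 0 ≤ x) (hy : 0 ≤ y) (h : x + y = (1 / 16 : ℝ)) : 0 ≤ (3 / 2 - ((23 / 16 : ℝ) + x) - ((23 / 16 : ℝ) + x) * Bp (((23 / 16 : ℝ) + x) ^ 2)) := by
  have hy2 : y = (1 / 16 : ℝ) - x := by linarith
  have e : (3 / 2 - ((23 / 16 : ℝ) + x) - ((23 / 16 : ℝ) + x) * Bp (((23 / 16 : ℝ) + x) ^ 2)) = (403774595693 / 1000000 : ℝ) * (x ^ 0 * y ^ 7) + (479644934199 / 125000 : ℝ) * (x ^ 1 * y ^ 6) + (48012927733 / 3125 : ℝ) * (x ^ 2 * y ^ 5) + (525447614168 / 15625 : ℝ) * (x ^ 3 * y ^ 4) + (679851372992 / 15625 : ℝ) * (x ^ 4 * y ^ 3) + (520685554176 / 15625 : ℝ) * (x ^ 5 * y ^ 2) + (218855387136 / 15625 : ℝ) * (x ^ 6 * y ^ 1) + (38991593472 / 15625 : ℝ) * (x ^ 7 * y ^ 0) := by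
    unfold Bp
    rw [hy2]
    ring
  rw [e]
  positivity

theorem main (w : ℝ) (h0 : (1 : ℝ) ≤ w) (h1 : w ≤ (3 / 2 : ℝ)) : 0 ≤ (3 / 2 - w - w * Bp (w ^ 2)) := by
  rcases le_total w (17 / 16 : ℝ) with h | h
  · have := c0 (w - (1 : ℝ)) ((17 / 16 : ℝ) - w) (by linarith) (by linarith) (by ring)
    rw [show (1 : ℝ) + (w - (1 : ℝ)) = w by ring] at this
    exact this
  clear h0
  rename' h => h0
  rcases le_total w (35 / 32 : ℝ) with h | h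
  · have := c1 (w - (17 / 16 : ℝ)) ((35 / 32 : ℝ) - w) (by linarith) (by linarith) (by ring)
    rw [show (17 / 16 : ℝ) + (w - (17 / 16 : ℝ)) = w by ring] at this
    exact this
  clear h0
  rename' h => h0
  rcases le_total w (9 / 8 : ℝ) with h | h
  · have := c2 (w - (35 / 32 : ℝ)) ((9 / 8 : ℝ) - w) (by linarith) (by linarith) (by ring)
    rw [show (35 / 32 : ℝ) + (w - (35 / 32 : ℝ)) = w by ring] at this
    exact this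
  clear h0
  rename' h => h0
  rcases le_total w (5 / 4 : ℝ) with h | h
  · have := c3 (w - (9 / 8 : ℝ)) ((5 / 4 : ℝ) - w) (by linarith) (by linarith) (by ring)
    rw [show (9 / 8 : ℝ) + (w - (9 / 8 : ℝ)) = w by ring] at this
    exact this
  clear h0
  rename' h => h0
  rcases le_total w (11 / 8 : ℝ) with h | h
  · have := c4 (w - (5 / 4 : ℝ)) ((11 / 8 : ℝ) - w) (by linarith) (by linarith) (by ring)
    rw [show (5 / 4 : ℝ) + (w - (5 / 4 : ℝ)) = w by ring] at this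
    exact this
  clear h0
  rename' h => h0
  rcases le_total w (23 / 16 : ℝ) with h | h
  · have := c5 (w - (11 / 8 : ℝ)) ((23 / 16 : ℝ) - w) (by linarith) (by linarith) (by ring)
    rw [show (11 / 8 : ℝ) + (w - (11 / 8 : ℝ)) = w by ring] at this
    exact this
  clear h0
  rename' h => h0
  have := c6 (w - (23 / 16 : ℝ)) ((3 / 2 : ℝ) - w) (by linarith) (by linarith) (by ring)
  rw [show (23 / 16 : ℝ) + (w - (23 / 16 : ℝ)) = w by ring] at this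
  exact this

end BB

theorem bb : S_BB := fun w hw hw1 => by
  have := BB.main w hw hw1
  linarith

end H332B
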