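import Pool.Agent.H332B.QN
import Pool.Agent.H332B.BB

open Complex Filter Topology Set MeasureTheory
open scoped BigOperators

namespace H332B

namespace J2

/-- value of a polynomial -/
noncomputable def pe : List ℝ → ℝ → ℝ
  | [], _ => 0
  | a :: l, w => a + w * pe l w

/-- derivative of a polynomial -/
noncomputable def pd : List ℝ → ℝ → ℝ
  | [], _ => 0
  | _ :: l, w => pe l w + w * pd l w

theorem pe_deriv (l : List ℝ) (w : ℝ) : HasDerivAt (pe l) (pd l w) w := by
  induction l with
  | nil => exact hasDerivAt_const w 0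
  | cons a l ih =>
    have h := (((hasDerivAt_id w).mul ih).const_add a)
    have e : (fun x : ℝ => a + id x * pe l x) = pe (a :: l) := by
      funext x; simp [pe]
    have h' : HasDerivAt (fun x : ℝ => a + id x * pe l x) (1 * pe l w + id w * pd l w) w := h
    rw [e] at h'
    simpa [pd] using h'

/-- primitive -/
noncomputable def g0 : List ℝ := [459433264073019 / 256000000000000, -(13569118486757 / 128000000000000), -(3168040325023 / 64000000000000), -(573453883819 / 32000000000000), -(12429594781 / 48000000000000), 404229613 / 40000000000000, 274025543 / 20000000000000, -(375315371 / 630000000000000)]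

/-- primitive -/
noncomputable def g1 : List ℝ := [131291914455367 / 128000000000000, 131291914455367 / 256000000000000, -(9560445589117 / 25600000000000), -(14894358014753 / 192000000000000), -(1627161053573 / 96000000000000), -(8806076551 / 80000000000000), 7497940129 / 360000000000000, 630493909 / 50400000000000, -(375315371 / 630000000000000)]

/-- primitive -/
noncomputable def g2 : List ℝ := [-(557455177114509 / 32000000000000), -(557455177114509 / 64000000000000), -(557455177114509 / 256000000000000), -(267791228783639 / 384000000000000), -(3788960514049 / 38400000000000), -(1504251070633 / 96000000000000), 2154633041 / 144000000000000, 13498920863 / 504000000000000, 14261086241 / 1260000000000000, -(375315371 / 630000000000000)]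

/-- primitive -/
noncomputable def g3 : List ℝ := [-(5109921963090243 / 16000000000000), -(5109921963090243 / 32000000000000), -(5109921963090243 / 128000000000000), -(1703307321030081 / 256000000000000), -(138563566190633 / 128000000000000), -(7516938515203 / 64000000000000), -(467931033167 / 32000000000000), 5884751773 / 67200000000000, 1566523019 / 56000000000000, 4253274919 / 420000000000000, -(375315371 / 630000000000000)]

theorem g0_eq (w : ℝ) : pd g0 w = pe g0 w / 2 - Qp w := by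
  simp only [g0, pd, pe, Qp]; ring

theorem g1_eq (w : ℝ) : pd g1 w = pe g1 w / 2 - w * Qp w := by
  simp only [g1, pd, pe, Qp]; ring

theorem g2_eq (w : ℝ) : pd g2 w = pe g2 w / 2 - w ^ 2 * Qp w := by
  simp only [g2, pd, pe, Qp]; ring

theorem g3_eq (w : ℝ) : pd g3 w = pe g3 w / 2 - w ^ 3 * Qp w := by
  simp only [g3, pd, pe, Qp]; ring

/-- `1 / (2 π)` -/
noncomputable def cc : ℝ := 1 / (2 * Real.pi)

/-- the combination of the primitives -/
noncomputable def GG (w : ℝ) : ℝ :=
  (1708781 / 1000000 : ℝ) * cc * pe g0 w + (-(1821547 / 1000000) : ℝ) * cc ^ 2 * pe g1 w +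
    (3607 / 5000 : ℝ) * cc ^ 3 * pe g2 w + (-(111371 / 1000000) : ℝ) * cc ^ 4 * pe g3 w

theorem GG_deriv (w : ℝ) : HasDerivAt GG (GG w / 2 - cc * Bp (cc * w) * Qp w) w := by
  have h0 := (pe_deriv g0 w).const_mul ((1708781 / 1000000 : ℝ) * cc)
  have h1 := (pe_deriv g1 w).const_mul ((-(1821547 / 1000000) : ℝ) * cc ^ 2)
  have h2 := (pe_deriv g2 w).const_mul ((3607 / 5000 : ℝ) * cc ^ 3)
  have h3 := (pe_deriv g3 w).const_mul ((-(111371 / 1000000) : ℝ) * cc ^ 4)
  have h := ((h0.add h1).add h2).add h3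
  have e : GG w / 2 - cc * Bp (cc * w) * Qp w =
      (1708781 / 1000000 : ℝ) * cc * pd g0 w + (-(1821547 / 1000000) : ℝ) * cc ^ 2 * pd g1 w +
      (3607 / 5000 : ℝ) * cc ^ 3 * pd g2 w + (-(111371 / 1000000) : ℝ) * cc ^ 4 * pd g3 w := by
    rw [g0_eq, g1_eq, g2_eq, g3_eq]
    unfold GG Bp
    ring
  rw [e]
  exact h

theorem HH_deriv (a : ℝ) : HasDerivAt
    (fun a : ℝ => -(GG (2 * Real.pi * a ^ 2) * Real.exp (-(Real.pi * a ^ 2))))
    (2 * (a * Bp (a ^ 2) * rh a)) a := by
  have hpi := Real.pi_pos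
  have h1 : HasDerivAt (fun a : ℝ => 2 * Real.pi * a ^ 2) (4 * Real.pi * a) a := by
    have h := (hasDerivAt_pow 2 a).const_mul (2 * Real.pi)
    have e : 2 * Real.pi * (((2 : ℕ) : ℝ) * a ^ (2 - 1)) = 4 * Real.pi * a := by norm_num; ring
    rw [e] at h
    exact h
  have h2 : HasDerivAt (fun a : ℝ => -(Real.pi * a ^ 2)) (-(2 * Real.pi * a)) a := by
    have h := ((hasDerivAt_pow 2 a).const_mul Real.pi).neg
    have e : -(Real.pi * (((2 : ℕ) : ℝ) * a ^ (2 - 1))) = -(2 * Real.pi * a) := by norm_num; ring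
    rw [e] at h
    exact h
  have h3 := (GG_deriv (2 * Real.pi * a ^ 2)).comp a h1
  have h4 := ((h3.mul h2.exp)).neg
  have e : 2 * (a * Bp (a ^ 2) * rh a) =
      -((GG (2 * Real.pi * a ^ 2) / 2 - cc * Bp (cc * (2 * Real.pi * a ^ 2)) *
        Qp (2 * Real.pi * a ^ 2)) * (4 * Real.pi * a) * Real.exp (-(Real.pi * a ^ 2)) +
      GG (2 * Real.pi * a ^ 2) * (Real.exp (-(Real.pi * a ^ 2)) * (-(2 * Real.pi * a)))) := by
    have e1 : cc * (2 * Real.pi * a ^ 2) = a ^ 2 := by
      unfold cc; field_simp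
    rw [e1]
    unfold rh cc
    field_simp
    ring
  rw [e]
  exact h4

theorem exp1 : (4319 / 100000 : ℝ) ≤ Real.exp (-(3142 / 1000)) := by
  have h1 : Real.exp (3142 / 1000) = Real.exp 1 ^ 3 * Real.exp (142 / 1000) := by
    rw [← Real.exp_nat_mul, ← Real.exp_add]; norm_num
  have h2 : Real.exp (142 / 1000) ≤ 11526 / 10000 := by
    have h := Real.exp_bound' (x := 142 / 1000) (by norm_num) (by norm_num) (n := 5) (by norm_num)
    refine h.trans ?_
    norm_num [Finset.sum_range_succ, Nat.factorial]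
  have h3 : Real.exp 1 ^ 3 ≤ (27182818286 / 10000000000 : ℝ) ^ 3 := by
    have := Real.exp_one_lt_d9
    exact pow_le_pow_left₀ (Real.exp_pos 1).le (by linarith) 3
  have h4 : Real.exp (3142 / 1000) ≤ 231535 / 10000 := by
    rw [h1]
    calc Real.exp 1 ^ 3 * Real.exp (142 / 1000)
        ≤ (27182818286 / 10000000000 : ℝ) ^ 3 * (11526 / 10000) :=
          mul_le_mul h3 h2 (Real.exp_pos _).le (by positivity)
      _ ≤ 231535 / 10000 := by norm_num
  rw [Real.exp_neg]
  have h5 := Real.exp_pos (3142 / 1000)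
  rw [le_inv_comm₀ (by norm_num) h5]
  refine h4.trans ?_
  norm_num

theorem exp2 : (854 / 1000000 : ℝ) ≤ Real.exp (-(7065 / 1000)) := by
  have h1 : Real.exp (7065 / 1000) = Real.exp 1 ^ 7 * Real.exp (65 / 1000) := by
    rw [← Real.exp_nat_mul, ← Real.exp_add]; norm_num
  have h2 : Real.exp (65 / 1000) ≤ 106717 / 100000 := by
    have h := Real.exp_bound' (x := 65 / 1000) (by norm_num) (by norm_num) (n := 5) (by norm_num)
    refine h.trans ?_
    norm_num [Finset.sum_range_succ, Nat.factorial]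
  have h3 : Real.exp 1 ^ 7 ≤ (27182818286 / 10000000000 : ℝ) ^ 7 := by
    have := Real.exp_one_lt_d9
    exact pow_le_pow_left₀ (Real.exp_pos 1).le (by linarith) 7
  have h4 : Real.exp (7065 / 1000) ≤ 117095 / 100 := by
    rw [h1]
    calc Real.exp 1 ^ 7 * Real.exp (65 / 1000)
        ≤ (27182818286 / 10000000000 : ℝ) ^ 7 * (106717 / 100000) :=
          mul_le_mul h3 h2 (Real.exp_pos _).le (by positivity)
      _ ≤ 117095 / 100 := by norm_num
  rw [Real.exp_neg]
  have h5 := Real.exp_pos (7065 / 1000)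
  rw [le_inv_comm₀ (by norm_num) h5]
  refine h4.trans ?_
  norm_num

theorem cc_bounds : (1591549430 / 10000000000 : ℝ) ≤ cc ∧ cc ≤ 1591549432 / 10000000000 := by
  have h1 := Real.pi_gt_d20
  have h2 := Real.pi_lt_d20
  have hpi := Real.pi_pos
  unfold cc
  constructor
  · rw [le_div_iff₀ (by positivity)]
    nlinarith
  · rw [div_le_iff₀ (by positivity)]
    nlinarith

theorem cc_pow : (1591549430 / 10000000000 : ℝ) ≤ cc ∧ cc ≤ 1591549432 / 10000000000 ∧
    (1591549430 / 10000000000 : ℝ) ^ 2 ≤ cc ^ 2 ∧ cc ^ 2 ≤ (1591549432 / 10000000000) ^ 2 ∧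
    (1591549430 / 10000000000 : ℝ) ^ 3 ≤ cc ^ 3 ∧ cc ^ 3 ≤ (1591549432 / 10000000000) ^ 3 ∧
    (1591549430 / 10000000000 : ℝ) ^ 4 ≤ cc ^ 4 ∧ cc ^ 4 ≤ (1591549432 / 10000000000) ^ 4 := by
  obtain ⟨h1, h2⟩ := cc_bounds
  have h0 : (0 : ℝ) ≤ 1591549430 / 10000000000 := by norm_num
  have hc : 0 ≤ cc := h0.trans h1
  exact ⟨h1, h2, pow_le_pow_left₀ h0 h1 2, pow_le_pow_left₀ hc h2 2, pow_le_pow_left₀ h0 h1 3,
    pow_le_pow_left₀ hc h2 3, pow_le_pow_left₀ h0 h1 4, pow_le_pow_left₀ hc h2 4⟩

theorem GG1 : GG (6284 / 1000) ≤ -(1167 / 10000) := by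
  obtain ⟨h1, h2, h3, h4, h5, h6, h7, h8⟩ := cc_pow
  norm_num at h1 h2 h3 h4 h5 h6 h7 h8
  simp only [GG, g0, g1, g2, g3, pe]
  norm_num
  linarith

theorem GG2 : (174 / 100 : ℝ) ≤ GG (1413 / 100) := by
  obtain ⟨h1, h2, h3, h4, h5, h6, h7, h8⟩ := cc_pow
  norm_num at h1 h2 h3 h4 h5 h6 h7 h8
  simp only [GG, g0, g1, g2, g3, pe]
  norm_num
  linarith

theorem continuous_Qp : Continuous Qp := by unfold Qp; fun_prop

theorem continuous_Bp : Continuous Bp := by unfold Bp; fun_prop

theorem continuous_rh : Continuous rh := by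
  unfold rh
  exact (continuous_Qp.comp (by fun_prop)).mul (by fun_prop)

end J2

open J2 in
theorem j2 : S_J2 := by
  unfold S_J2
  have hpi := Real.pi_pos
  have hp1 := Real.pi_gt_d20
  have hp2 := Real.pi_lt_d20
  -- sign of `rh`
  have hneg : ∀ a : ℝ, 1 ≤ a → rh a ≤ 0 := by
    intro a ha
    unfold rh
    have h1 : Qp (2 * Real.pi * a ^ 2) ≤ 0 := by
      apply qn
      have : 1 ≤ a ^ 2 := by nlinarith
      nlinarith
    exact mul_nonpos_of_nonpos_of_nonneg h1 (Real.exp_pos _).le
  set a2 := Real.sqrt (6284 / 1000 / (2 * Real.pi)) with ha2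
  set a3 := Real.sqrt (1413 / 100 / (2 * Real.pi)) with ha3
  have hs2 : a2 ^ 2 = 6284 / 1000 / (2 * Real.pi) := Real.sq_sqrt (by positivity)
  have hs3 : a3 ^ 2 = 1413 / 100 / (2 * Real.pi) := Real.sq_sqrt (by positivity)
  have h12 : 1 ≤ a2 := by
    rw [ha2]
    apply Real.le_sqrt_of_sq_le
    rw [le_div_iff₀ (by positivity)]
    linarith
  have h23 : a2 ≤ a3 := by
    apply Real.sqrt_le_sqrt
    apply div_le_div_of_nonneg_right _ (by positivity)
    norm_num
  have h34 : a3 ≤ 3 / 2 := by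
    rw [ha3]
    apply Real.sqrt_le_iff.2
    refine ⟨by norm_num, ?_⟩
    rw [div_le_iff₀ (by positivity)]
    linarith
  have hcf : Continuous (fun α : ℝ => (3 / 2 - α) * rh α) :=
    (by fun_prop : Continuous (fun α : ℝ => 3 / 2 - α)).mul continuous_rh
  have hcg : Continuous (fun α : ℝ => 2 * (α * Bp (α ^ 2) * rh α)) :=
    continuous_const.mul ((continuous_id.mul (continuous_Bp.comp (by fun_prop))).mul continuous_rh)
  have hfn : ∀ α : ℝ, 1 ≤ α → α ≤ 3 / 2 → (3 / 2 - α) * rh α ≤ 0 := fun α h1 h2 =>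
    mul_nonpos_of_nonneg_of_nonpos (by linarith) (hneg α h1)
  have i1 : ∫ α in (1 : ℝ)..a2, (3 / 2 - α) * rh α ≤ 0 := by
    have h := intervalIntegral.integral_mono_on (μ := volume) (f := fun α : ℝ => (3 / 2 - α) * rh α)
      (g := fun _ => (0 : ℝ)) h12 (hcf.intervalIntegrable _ _)
      (continuous_const.intervalIntegrable _ _)
      (fun α hα => hfn α hα.1 (by linarith [hα.2]))
    simpa using h
  have i3 : ∫ α in a3..(3 / 2), (3 / 2 - α) * rh α ≤ 0 := by
    have h := intervalIntegral.integral_mono_on (μ := volume) (f := fun α : ℝ => (3 / 2 - α) * rh α)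
      (g := fun _ => (0 : ℝ)) h34 (hcf.intervalIntegrable _ _)
      (continuous_const.intervalIntegrable _ _)
      (fun α hα => hfn α (by linarith [hα.1]) hα.2)
    simpa using h
  have i2 : 2 * ∫ α in a2..a3, (3 / 2 - α) * rh α ≤ ∫ α in a2..a3, 2 * (α * Bp (α ^ 2) * rh α) := by
    rw [← intervalIntegral.integral_const_mul]
    have hc2 : Continuous (fun α : ℝ => 2 * ((3 / 2 - α) * rh α)) := continuous_const.mul hcf
    refine intervalIntegral.integral_mono_on (μ := volume) h23
      (hc2.intervalIntegrable _ _) (hcg.intervalIntegrable _ _) ?_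
    intro α hα
    have h1 : 1 ≤ α := by linarith [hα.1]
    have h2 : α ≤ 3 / 2 := by linarith [hα.2]
    have h3 := bb α h1 h2
    have h4 := mul_le_mul_of_nonpos_right h3 (hneg α h1)
    linarith
  have hF : ∫ α in a2..a3, 2 * (α * Bp (α ^ 2) * rh α) =
      -(GG (2 * Real.pi * a3 ^ 2) * Real.exp (-(Real.pi * a3 ^ 2))) -
      -(GG (2 * Real.pi * a2 ^ 2) * Real.exp (-(Real.pi * a2 ^ 2))) :=
    intervalIntegral.integral_eq_sub_of_hasDerivAt (fun α _ => HH_deriv α)
      (hcg.intervalIntegrable _ _)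
  have e1 : 2 * Real.pi * a2 ^ 2 = 6284 / 1000 := by rw [hs2]; field_simp
  have e2 : 2 * Real.pi * a3 ^ 2 = 1413 / 100 := by rw [hs3]; field_simp
  have e3 : Real.pi * a2 ^ 2 = 3142 / 1000 := by linarith
  have e4 : Real.pi * a3 ^ 2 = 7065 / 1000 := by linarith
  rw [e1, e2, e3, e4] at hF
  have hA := GG1
  have hB := GG2
  have hE1 := exp1
  have hE2 := exp2
  have k1 : (1167 / 10000 : ℝ) * (4319 / 100000) ≤
      -GG (6284 / 1000) * Real.exp (-(3142 / 1000)) :=
    mul_le_mul (by linarith) hE1 (by norm_num) (by linarith)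
  have k2 : (174 / 100 : ℝ) * (854 / 1000000) ≤
      GG (1413 / 100) * Real.exp (-(7065 / 1000)) :=
    mul_le_mul hB hE2 (by norm_num) (by linarith)
  have hi : ∀ a b : ℝ, IntervalIntegrable (fun α : ℝ => (3 / 2 - α) * rh α) volume a b :=
    fun a b => hcf.intervalIntegrable a b
  have s1 := intervalIntegral.integral_add_adjacent_intervals (hi 1 a2) (hi a2 a3)
  have s2 := intervalIntegral.integral_add_adjacent_intervals (hi 1 a3) (hi a3 (3 / 2))
  rw [← s2, ← s1]
  linarith

end H332B
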