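import Pool.Agent.H332B.Defs

open Complex Filter Topology Set MeasureTheory
open scoped BigOperators

namespace H332B

namespace Blk

open H343 H343.ZSide

lemma AAb_eq (b U1 U2 u t : ℝ) (hU : 1 ≤ U1) :
    AAb b riemannZeta U1 U2 u t = GGb b u t (Zb U1 U2) mz := by
  unfold AAb GGb Zb
  rw [H370.finsum_Zf H370.good_zeta hU]
  refine Finset.sum_congr rfl fun s _ => ?_
  unfold mz
  push_cast
  rfl

lemma core (b η C g IA V L I1 M0 : ℝ) (hb : 0 < b) (hη : 0 < η) (hC : 0 < C) (hV : 0 < V)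
    (hL : 0 < L) (hg0 : 0 ≤ g) (hg : g ≤ 1 / 2)
    (h1 : g * Real.sqrt (Real.pi * b) * (V * L) ≤ IA)
    (h2 : (1 / (1 + η)) * ((1 / (2 * Real.pi * b)) * IA - C * V) ≤ M0)
    (h3 : M0 ≤ (1 + η) * I1 + (1 + 1 / η) * V)
    (δ : ℝ) (hδ : 0 < δ)
    (hK : 16 * Real.pi * (Real.sqrt (b / Real.pi) * (C + (1 + 1 / η))) ≤ δ * L) :
    (g - η - δ / 8) * (V * L / (2 * Real.pi)) ≤ Real.sqrt (b / Real.pi) * I1 := by
  have hπ := Real.pi_pos
  set sbp := Real.sqrt (b / Real.pi) with hsbp
  have hsbp0 : 0 ≤ sbp := Real.sqrt_nonneg _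
  have hsb : sbp * Real.sqrt (Real.pi * b) = b := by
    rw [hsbp, ← Real.sqrt_mul (by positivity)]
    rw [show b / Real.pi * (Real.pi * b) = b ^ 2 by field_simp, Real.sqrt_sq hb.le]
  have hX : 0 ≤ V * L / (2 * Real.pi) := by positivity
  set XX := V * L / (2 * Real.pi) with hXX
  set q := 1 / (1 + η) with hq
  have hq0 : 0 < q := by positivity
  have hq1 : q ≤ 1 := by
    rw [hq, div_le_one (by positivity)]; linarith
  have hqη : q * (1 + η) = 1 := by rw [hq]; field_simp
  -- lower bound of (1+η) I1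
  have h4 : q * ((1 / (2 * Real.pi * b)) * (g * Real.sqrt (Real.pi * b) * (V * L)) - C * V) ≤
      (1 + η) * I1 + (1 + 1 / η) * V := by
    refine le_trans ?_ (h2.trans h3)
    apply mul_le_mul_of_nonneg_left _ hq0.le
    have : (1 / (2 * Real.pi * b)) * (g * Real.sqrt (Real.pi * b) * (V * L)) ≤
        (1 / (2 * Real.pi * b)) * IA := mul_le_mul_of_nonneg_left h1 (by positivity)
    linarith
  have h5 := mul_le_mul_of_nonneg_left h4 (mul_nonneg hsbp0 hq0.le)
  have e1 : sbp * q * (q * ((1 / (2 * Real.pi * b)) * (g * Real.sqrt (Real.pi * b) * (V * L)) -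
      C * V)) = q ^ 2 * (g * XX) - q ^ 2 * (sbp * C * V) := by
    have : sbp * q * (q * ((1 / (2 * Real.pi * b)) * (g * Real.sqrt (Real.pi * b) * (V * L)) -
      C * V)) = q ^ 2 * ((sbp * Real.sqrt (Real.pi * b)) * (1 / (2 * Real.pi * b)) *
        (g * (V * L))) - q ^ 2 * (sbp * C * V) := by ring
    rw [this, hsb, hXX]
    field_simp
  have e2 : sbp * q * ((1 + η) * I1 + (1 + 1 / η) * V) =
      sbp * I1 * (q * (1 + η)) + q * (sbp * (1 + 1 / η) * V) := by ring
  rw [e1, e2, hqη, mul_one] at h5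
  have h6 : q ^ 2 * (sbp * C * V) ≤ sbp * C * V := by
    have hq2 : q ^ 2 ≤ 1 := by nlinarith
    have : 0 ≤ sbp * C * V := by positivity
    nlinarith
  have h7 : q * (sbp * (1 + 1 / η) * V) ≤ sbp * (1 + 1 / η) * V := by
    have : 0 ≤ sbp * (1 + 1 / η) * V := by positivity
    nlinarith
  have h8 : (g - η) * XX ≤ q ^ 2 * (g * XX) := by
    have h9 : 1 - 2 * η ≤ q ^ 2 := by
      have e3 : q ^ 2 * (1 + η) ^ 2 = 1 := by
        rw [← mul_pow, hqη, one_pow]
      have h10 : (1 - 2 * η) * (1 + η) ^ 2 ≤ 1 := by nlinarith [sq_nonneg η, pow_pos hη 3]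
      have h11 : 0 < (1 + η) ^ 2 := by positivity
      have h10' : (1 - 2 * η) * (1 + η) ^ 2 ≤ q ^ 2 * (1 + η) ^ 2 := h10.trans_eq e3.symm
      exact le_of_mul_le_mul_right h10' h11
    have h12 : g - η ≤ q ^ 2 * g := by nlinarith
    calc (g - η) * XX ≤ (q ^ 2 * g) * XX := mul_le_mul_of_nonneg_right h12 hX
      _ = q ^ 2 * (g * XX) := by ring
  have h13 : sbp * C * V + sbp * (1 + 1 / η) * V ≤ δ / 8 * XX := by
    have e4 : sbp * C * V + sbp * (1 + 1 / η) * V =
        (16 * Real.pi * (sbp * (C + (1 + 1 / η)))) * (V / (16 * Real.pi)) := by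
      field_simp
    have e5 : δ / 8 * XX = (δ * L) * (V / (16 * Real.pi)) := by
      rw [hXX]; field_simp; ring
    rw [e4, e5]
    exact mul_le_mul_of_nonneg_right hK (by positivity)
  have h14 : (g - η - δ / 8) * XX = (g - η) * XX - δ / 8 * XX := by ring
  rw [h14]
  linarith

end Blk

open H343 H343.ZSide in
theorem blk : S_BLK := by
  intro δ hδ
  obtain ⟨b0', hb0', hps⟩ := prime_side (δ / 8) (by positivity)
  refine ⟨min b0' (1 / 2), lt_min hb0' (by norm_num), ?_⟩
  intro b hb hbb0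
  have hπ := Real.pi_pos
  obtain ⟨T1, hT1⟩ := hps b hb (hbb0.trans (min_le_left _ _))
  set η : ℝ := δ / 16 with hη
  have hη0 : 0 < η := by positivity
  obtain ⟨C, hC, hblk⟩ := block_ineq b η hb hη0
  obtain ⟨T2, hT2⟩ := hblk 1
  obtain ⟨T3, hT3, hzb⟩ := zeta_block b hb 1
  set K : ℝ := 16 * Real.pi * (Real.sqrt (b / Real.pi) * (C + (1 + 1 / η))) with hK
  refine ⟨max (max 10 (max T1 (max T2 T3))) (Real.exp (K / δ)),
    (le_max_left _ _).trans (le_max_left _ _), ?_⟩
  intro V U1 U2 u hV hR hu1 hu2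
  obtain ⟨hR1, hR2, hR3, hR4⟩ := hR
  have hV10 : 10 ≤ V := ((le_max_left _ _).trans (le_max_left _ _)).trans hV
  have hVm : max T1 (max T2 T3) ≤ V := ((le_max_right _ _).trans (le_max_left _ _)).trans hV
  have hVT1 : T1 ≤ V := (le_max_left _ _).trans hVm
  have hVT2 : T2 ≤ V := ((le_max_left _ _).trans (le_max_right _ _)).trans hVm
  have hVT3 : T3 ≤ V := ((le_max_right _ _).trans (le_max_right _ _)).trans hVm
  have hVe : Real.exp (K / δ) ≤ V := (le_max_right _ _).trans hV
  have hV0 : 0 < V := by linarith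
  set L := Real.log V with hL
  have hL1 : 1 ≤ L := by
    rw [hL, Real.le_log_iff_exp_le hV0]
    have := Real.exp_one_lt_d9
    linarith
  have hL0 : 0 < L := by linarith
  have hLK : K ≤ δ * L := by
    have h1 : K / δ ≤ L := by
      rw [hL, Real.le_log_iff_exp_le hV0]; exact hVe
    rw [div_le_iff₀ hδ] at h1
    linarith
  have hlogV2 : 2 * L ≤ V := by
    have h1 : L = 2 * Real.log (Real.sqrt V) := by
      rw [Real.log_sqrt hV0.le]; ring
    have h2 := Real.log_le_sub_one_of_pos (Real.sqrt_pos.2 hV0)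
    have h3 : Real.sqrt V * Real.sqrt V = V := Real.mul_self_sqrt hV0.le
    nlinarith [sq_nonneg (Real.sqrt V - 2)]
  have hm1 : min b0' (1 / 2) ≤ b0' := min_le_left _ _
  have hm2 : min b0' (1 / 2) ≤ 1 / 2 := min_le_right _ _
  have hu1' : (1 - b0') * L ≤ u := by
    refine le_trans ?_ hu1
    apply mul_le_mul_of_nonneg_right _ hL0.le
    linarith
  have hu3 : 1 / 2 * L ≤ u := by
    refine le_trans ?_ hu1
    apply mul_le_mul_of_nonneg_right _ hL0.le
    linarith
  have hu0 : 0 ≤ u := by linarith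
  have hX0 : 0 ≤ X V := by
    unfold X
    have : 0 ≤ V * Real.log V := mul_nonneg hV0.le hL0.le
    positivity
  have hPP := PPair_kG_nonneg b u hb (Zb U1 U2) mz
  set g : ℝ := 3 / 2 - max 1 (u / L) - δ / 8 with hg
  have hmax1 : 1 ≤ max 1 (u / L) := le_max_left _ _
  by_cases hg0 : 0 ≤ g
  · have hg2 : g ≤ 1 / 2 := by rw [hg]; linarith
    have h1 := hT1 V u hVT1 hu1' hu2
    have h2 := hT2 (2 * V) V u (by linarith) (by norm_num) le_rfl hu3 (by linarith)
    set IA := ∫ t in (V + Real.log V)..(2 * V - Real.log V), ‖AAt b (Real.exp u) t‖ ^ 2 with hIA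
    set M0 := ∫ t in (V + Real.log V)..(2 * V - Real.log V), ‖GGb b u t (Z0 (2 * V)) mz‖ ^ 2
      with hM0
    obtain ⟨hint, hpg⟩ := pair_gauss b u hb (Zb U1 U2) mz
    have hGc : Continuous (fun t => ‖GGb b u t (Zb U1 U2) mz‖ ^ 2) :=
      ((GGb_cont b u (Zb U1 U2) mz).norm).pow 2
    have hGc0 : Continuous (fun t => ‖GGb b u t (Z0 (2 * V)) mz‖ ^ 2) :=
      ((GGb_cont b u (Z0 (2 * V)) mz).norm).pow 2
    set I1 := ∫ t : ℝ, ‖GGb b u t (Zb U1 U2) mz‖ ^ 2 with hI1
    have hle : V + Real.log V ≤ 2 * V - Real.log V := by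
      show V + L ≤ 2 * V - L
      linarith
    have h3 : M0 ≤ (1 + η) * I1 + (1 + 1 / η) * V := by
      have hpt : ∀ t ∈ Set.Icc (V + Real.log V) (2 * V - Real.log V),
          ‖GGb b u t (Z0 (2 * V)) mz‖ ^ 2 ≤
          (1 + η) * ‖GGb b u t (Zb U1 U2) mz‖ ^ 2 + (1 + 1 / η) := by
        intro t ht
        have hz : ‖GGb b u t (Z0 (2 * V)) mz - AAb b riemannZeta U1 U2 u t‖ ≤ 1 := by
          refine hzb (2 * V) V U1 U2 u t (by linarith) (by norm_num) le_rfl hR1 hR2 hR3 hR4 hu0
            ?_ ht.1 ht.2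
          have : Real.log V ≤ Real.log (2 * V) := Real.log_le_log hV0 (by linarith)
          linarith
        rw [Blk.AAb_eq b U1 U2 u t (by linarith)] at hz
        set a := ‖GGb b u t (Z0 (2 * V)) mz‖ with ha
        set c := ‖GGb b u t (Zb U1 U2) mz‖ with hc
        have ha0 : 0 ≤ a := norm_nonneg _
        have hc0 : 0 ≤ c := norm_nonneg _
        have hac : a ≤ c + 1 := by
          have := norm_le_norm_add_norm_sub (GGb b u t (Zb U1 U2) mz) (GGb b u t (Z0 (2 * V)) mz)
          rw [norm_sub_rev] at this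
          linarith
        have e4 : (1 + η) * c ^ 2 + (1 + 1 / η) - (c + 1) ^ 2 = (η * c - 1) ^ 2 / η := by
          field_simp; ring
        have e5 : 0 ≤ (η * c - 1) ^ 2 / η := by positivity
        have e6 : a ^ 2 ≤ (c + 1) ^ 2 := by gcongr
        linarith
      have hmono : M0 ≤ ∫ t in (V + Real.log V)..(2 * V - Real.log V),
          ((1 + η) * ‖GGb b u t (Zb U1 U2) mz‖ ^ 2 + (1 + 1 / η)) :=
        intervalIntegral.integral_mono_on (μ := volume) hle
        (hGc0.intervalIntegrable _ _)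
        (((continuous_const.mul hGc).add continuous_const).intervalIntegrable _ _) hpt
      have e8 : ∫ t in (V + Real.log V)..(2 * V - Real.log V),
          ((1 + η) * ‖GGb b u t (Zb U1 U2) mz‖ ^ 2 + (1 + 1 / η)) =
          (1 + η) * (∫ t in (V + Real.log V)..(2 * V - Real.log V),
            ‖GGb b u t (Zb U1 U2) mz‖ ^ 2) +
          (2 * V - Real.log V - (V + Real.log V)) * (1 + 1 / η) := by
        rw [intervalIntegral.integral_add
          (f := fun t => (1 + η) * ‖GGb b u t (Zb U1 U2) mz‖ ^ 2) (g := fun _ => 1 + 1 / η)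
          ((continuous_const.mul hGc).intervalIntegrable _ _)
          (continuous_const.intervalIntegrable _ _), intervalIntegral.integral_const_mul,
          intervalIntegral.integral_const, smul_eq_mul]
      refine hmono.trans ?_
      rw [e8]
      have h4 : ∫ t in (V + Real.log V)..(2 * V - Real.log V), ‖GGb b u t (Zb U1 U2) mz‖ ^ 2 ≤
          I1 := by
        rw [intervalIntegral.integral_of_le hle]
        exact setIntegral_le_integral hint (Filter.Eventually.of_forall fun t => by positivity)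
      have h5 : (2 * V - Real.log V - (V + Real.log V)) * (1 + 1 / η) ≤ (1 + 1 / η) * V := by
        have h6 : 0 ≤ 1 + 1 / η := by positivity
        have h7 : 2 * V - Real.log V - (V + Real.log V) ≤ V := by
          show 2 * V - L - (V + L) ≤ V
          linarith
        nlinarith
      have h8 : (1 + η) * ∫ t in (V + Real.log V)..(2 * V - Real.log V),
          ‖GGb b u t (Zb U1 U2) mz‖ ^ 2 ≤ (1 + η) * I1 :=
        mul_le_mul_of_nonneg_left h4 (by positivity)
      linarith
    have hcore := Blk.core b η C g IA V L I1 M0 hb hη0 hC hV0 hL0 hg0 hg2 h1 h2 h3 δ hδ hLK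
    rw [hpg, Complex.ofReal_re]
    refine le_trans ?_ hcore
    unfold X
    apply mul_le_mul_of_nonneg_right _ hX0
    rw [hg, hη]
    linarith
  · push Not at hg0
    refine le_trans ?_ hPP
    apply mul_nonpos_of_nonpos_of_nonneg _ hX0
    have : g < 0 := hg0
    rw [hg] at this
    linarith

end H332B
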