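import Pool.Agent.H332B.Defs

open Complex Filter Topology Set MeasureTheory
open scoped BigOperators

namespace H332B.Heat

lemma gauss_int (c : ℝ) (hc : 0 < c) (z : ℂ) :
    Integrable (fun a : ℝ => ((Real.exp (-a ^ 2 / c) : ℝ) : ℂ) * cexp (a * z)) ∧
    ∫ a : ℝ, ((Real.exp (-a ^ 2 / c) : ℝ) : ℂ) * cexp (a * z) =
      ((Real.sqrt (Real.pi * c) : ℝ) : ℂ) * cexp (c * z ^ 2 / 4) := by
  have hc0 : (c : ℂ) ≠ 0 := by exact_mod_cast hc.ne'
  have hbre : (-(((c⁻¹ : ℝ)) : ℂ)).re < 0 := by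
    have : 0 < c⁻¹ := inv_pos.mpr hc
    simpa using this
  have e : (fun a : ℝ => ((Real.exp (-a ^ 2 / c) : ℝ) : ℂ) * cexp (a * z)) =
      fun a : ℝ => cexp ((-(((c⁻¹ : ℝ)) : ℂ)) * (a : ℂ) ^ 2 + z * (a : ℂ) + 0) := by
    funext a
    push_cast
    rw [← Complex.exp_add]
    congr 1
    field_simp
    ring
  rw [e]
  refine ⟨integrable_cexp_quadratic' hbre _ _, ?_⟩
  rw [integral_cexp_quadratic hbre, neg_neg]
  congr 1
  · rw [Real.sqrt_eq_rpow, Complex.ofReal_cpow (by positivity)]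
    congr 1
    · push_cast
      field_simp
    · push_cast
      rfl
  · congr 1
    push_cast
    field_simp
    ring

theorem heat_aux : S_HEAT := by
  intro b u A hb hb1 hA Z m
  have hc : 0 < 1 - b := by linarith
  have hI1 : Integrable (fun a : ℝ => ((Real.exp (-a ^ 2 / (1 - b)) : ℝ) : ℂ) *
        H343.PPair (H343.kG b) (u + a) Z m) ∧
        ∫ a : ℝ, ((Real.exp (-a ^ 2 / (1 - b)) : ℝ) : ℂ) * H343.PPair (H343.kG b) (u + a) Z m =
        ((Real.sqrt (Real.pi * (1 - b)) : ℝ) : ℂ) * H343.PPair (H343.kG 1) u Z m := by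
    have e : (fun a : ℝ => ((Real.exp (-a ^ 2 / (1 - b)) : ℝ) : ℂ) *
          H343.PPair (H343.kG b) (u + a) Z m) = fun a : ℝ => ∑ s ∈ Z, ∑ s' ∈ Z,
          (((m s * m s' : ℝ) : ℂ) * (cexp (u * (s + (starRingEnd ℂ) s' - 1)) *
            H343.kG b (s + (starRingEnd ℂ) s' - 1))) *
            (((Real.exp (-a ^ 2 / (1 - b)) : ℝ) : ℂ) *
            cexp (a * (s + (starRingEnd ℂ) s' - 1))) := by
      funext a
      unfold H343.PPair
      rw [Finset.mul_sum]
      refine Finset.sum_congr rfl fun s _ => ?_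
      rw [Finset.mul_sum]
      refine Finset.sum_congr rfl fun s' _ => ?_
      have : cexp (((u + a : ℝ) : ℂ) * (s + (starRingEnd ℂ) s' - 1)) =
          cexp (u * (s + (starRingEnd ℂ) s' - 1)) *
            cexp (a * (s + (starRingEnd ℂ) s' - 1)) := by
        rw [← Complex.exp_add]
        congr 1
        push_cast
        ring
      rw [this]
      ring
    have ht : ∀ s s' : ℂ, Integrable (fun a : ℝ =>
          (((m s * m s' : ℝ) : ℂ) * (cexp (u * (s + (starRingEnd ℂ) s' - 1)) *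
            H343.kG b (s + (starRingEnd ℂ) s' - 1))) *
            (((Real.exp (-a ^ 2 / (1 - b)) : ℝ) : ℂ) *
            cexp (a * (s + (starRingEnd ℂ) s' - 1)))) := by
      intro s s'
      exact (gauss_int (1 - b) hc _).1.const_mul _
    rw [e]
    refine ⟨integrable_finsetSum _ fun s _ => integrable_finsetSum _ fun s' _ => ht s s', ?_⟩
    rw [integral_finsetSum _ fun s _ => integrable_finsetSum _ fun s' _ => ht s s']
    unfold H343.PPair
    rw [Finset.mul_sum]
    refine Finset.sum_congr rfl fun s _ => ?_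
    rw [integral_finsetSum _ fun s' _ => ht s s', Finset.mul_sum]
    refine Finset.sum_congr rfl fun s' _ => ?_
    rw [integral_const_mul, (gauss_int (1 - b) hc _).2]
    have : H343.kG 1 (s + (starRingEnd ℂ) s' - 1) =
        H343.kG b (s + (starRingEnd ℂ) s' - 1) *
          cexp (((1 - b : ℝ) : ℂ) * (s + (starRingEnd ℂ) s' - 1) ^ 2 / 4) := by
      unfold H343.kG
      rw [← Complex.exp_add]
      congr 1
      push_cast
      ring
    rw [this]
    ring
  -- real parts
  have hR : Integrable (fun a : ℝ => Real.exp (-a ^ 2 / (1 - b)) *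
      (H343.PPair (H343.kG b) (u + a) Z m).re) := by
    have := hI1.1.re
    refine this.congr (Filter.Eventually.of_forall fun a => ?_)
    exact Complex.re_ofReal_mul _ _
  have hRe : ∫ a : ℝ, Real.exp (-a ^ 2 / (1 - b)) *
      (H343.PPair (H343.kG b) (u + a) Z m).re =
      Real.sqrt (Real.pi * (1 - b)) * (H343.PPair (H343.kG 1) u Z m).re := by
    have h1 := congrArg Complex.re hI1.2
    rw [Complex.re_ofReal_mul] at h1
    rw [← h1]
    have h2 := integral_re (𝕜 := ℂ) hI1.1
    rw [show (∫ a : ℝ, ((Real.exp (-a ^ 2 / (1 - b)) : ℝ) : ℂ) *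
      H343.PPair (H343.kG b) (u + a) Z m).re = RCLike.re (∫ a : ℝ,
      ((Real.exp (-a ^ 2 / (1 - b)) : ℝ) : ℂ) * H343.PPair (H343.kG b) (u + a) Z m) from rfl,
      ← h2]
    refine integral_congr_ae (Filter.Eventually.of_forall fun a => ?_)
    exact (Complex.re_ofReal_mul _ _).symm
  have hcut : ∫ a in (-A)..A, Real.exp (-a ^ 2 / (1 - b)) *
      (H343.PPair (H343.kG b) (u + a) Z m).re ≤
      ∫ a : ℝ, Real.exp (-a ^ 2 / (1 - b)) * (H343.PPair (H343.kG b) (u + a) Z m).re := by
    rw [intervalIntegral.integral_of_le (by linarith)]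
    refine setIntegral_le_integral hR (Filter.Eventually.of_forall fun a => ?_)
    exact mul_nonneg (Real.exp_pos _).le (H343.PPair_kG_nonneg b (u + a) hb Z m)
  rw [hRe] at hcut
  have hs : 0 < Real.sqrt (Real.pi * (1 - b)) := Real.sqrt_pos.mpr (by positivity)
  calc (Real.sqrt (Real.pi * (1 - b)))⁻¹ * ∫ a in (-A)..A,
      Real.exp (-a ^ 2 / (1 - b)) * (H343.PPair (H343.kG b) (u + a) Z m).re
      ≤ (Real.sqrt (Real.pi * (1 - b)))⁻¹ *
        (Real.sqrt (Real.pi * (1 - b)) * (H343.PPair (H343.kG 1) u Z m).re) := by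
        exact mul_le_mul_of_nonneg_left hcut (inv_nonneg.mpr hs.le)
    _ = _ := by
        rw [← mul_assoc, inv_mul_cancel₀ hs.ne', one_mul]

end H332B.Heat

namespace H332B

theorem heat : S_HEAT := Heat.heat_aux

end H332B
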