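import Pool.Agent.H332B.Defs

open Complex Filter Topology Set MeasureTheory
open scoped BigOperators

namespace H332B

namespace JP

lemma AA_GGb (U1 U2 u : ℝ) (hU : 1 ≤ U1) (t : ℝ) :
    H370.AA riemannZeta U1 U2 u t = H343.GGb 1 u t (Zb U1 U2) H343.ZSide.mz := by
  rw [H370.AA_eq H370.good_zeta hU]
  unfold H343.GGb Zb
  refine Finset.sum_congr rfl fun s _ => ?_
  unfold H343.hhb H370.hh H343.ZSide.mz
  push_cast
  rw [one_mul]

end JP

theorem jp : S_JP := by
  intro V U1 U2 u hV hR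
  have hU : 1 ≤ U1 := le_trans hV hR.1
  have h1 := (H343.pair_gauss 1 u one_pos (Zb U1 U2) H343.ZSide.mz).2
  rw [h1, Complex.ofReal_re]
  unfold Jb H370.JJ
  simp_rw [JP.AA_GGb U1 U2 u hU]
  rw [← mul_assoc, ← Real.sqrt_mul Real.pi_pos.le, mul_one_div, div_self Real.pi_pos.ne',
    Real.sqrt_one, one_mul]

end H332B
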