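import Pool.Agent.H332B.Num

open Complex Filter Topology Set MeasureTheory
open scoped BigOperators

namespace H332B

theorem mass : S_MASS := by
  intro δ c hδ hc
  have hfun : (fun a : ℝ => Real.exp (-a ^ 2 / c)) = fun a : ℝ => Real.exp (-(1 / c) * a ^ 2) := by
    funext a
    congr 1
    field_simp
  have hint : Integrable (fun a : ℝ => Real.exp (-a ^ 2 / c)) := by
    rw [hfun]
    exact integrable_exp_neg_mul_sq (by positivity)
  have hval : ∫ a : ℝ, Real.exp (-a ^ 2 / c) = Real.sqrt (Real.pi * c) := by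
    rw [hfun, integral_gaussian]
    congr 1
    field_simp
  have hlim := intervalIntegral_tendsto_integral hint tendsto_neg_atTop_atBot
    (tendsto_id : Tendsto (id : ℝ → ℝ) atTop atTop)
  rw [hval] at hlim
  have hs : 0 < Real.sqrt (Real.pi * c) := Real.sqrt_pos.2 (by positivity)
  have hlim2 := hlim.const_mul (Real.sqrt (Real.pi * c))⁻¹
  rw [inv_mul_cancel₀ hs.ne'] at hlim2
  have h1 := hlim2.eventually (eventually_ge_nhds (show 1 - δ < 1 by linarith))
  obtain ⟨A, hA, hA0⟩ := (h1.and (eventually_gt_atTop (0 : ℝ))).exists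
  exact ⟨A, hA0, hA⟩

end H332B
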