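import Pool.Agent.H332B.Defs
import Pool.Agent.H332B.Blk
import Pool.Agent.H332B.Heat
import Pool.Agent.H332B.Mass
import Pool.Agent.H332B.JP

open Complex Filter Topology Set MeasureTheory
open scoped BigOperators

namespace H332B

namespace Low

theorem cont (b u : ℝ) (Z : Finset ℂ) (m : ℂ → ℝ) :
    Continuous fun a : ℝ => (H343.PPair (H343.kG b) (u + a) Z m).re := by
  unfold H343.PPair H343.kG
  fun_prop

end Low

theorem low : S_LOW := by
  intro δ hδ
  set d : ℝ := min δ 1 with hd
  have hd0 : 0 < d := lt_min hδ one_pos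
  have hd1 : d ≤ 1 := min_le_right _ _
  have hdδ : d ≤ δ := min_le_left _ _
  obtain ⟨b0, hb0, hblk⟩ := blk (d / 8) (by positivity)
  set b : ℝ := min b0 (1 / 2) with hb
  have hbpos : 0 < b := lt_min hb0 (by norm_num)
  have hbb0 : b ≤ b0 := min_le_left _ _
  have hb1 : b < 1 := lt_of_le_of_lt (min_le_right _ _) (by norm_num)
  obtain ⟨V1, hV1, hblk1⟩ := hblk b hbpos hbb0
  obtain ⟨A, hA, hmass⟩ := mass (d / 8) (1 - b) (by positivity) (by linarith)
  refine ⟨max (max V1 10) (max (Real.exp (8 * A / d)) (Real.exp (A / b0))),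
    le_trans (le_max_right _ _) (le_max_left _ _), ?_⟩
  intro V U1 U2 u hV hR hu1 hu2
  have hVV1 : V1 ≤ V := le_trans (le_trans (le_max_left _ _) (le_max_left _ _)) hV
  have hV10 : (10 : ℝ) ≤ V := le_trans (le_trans (le_max_right _ _) (le_max_left _ _)) hV
  have hVe1 : Real.exp (8 * A / d) ≤ V :=
    le_trans (le_trans (le_max_left _ _) (le_max_right _ _)) hV
  have hVe2 : Real.exp (A / b0) ≤ V :=
    le_trans (le_trans (le_max_right _ _) (le_max_right _ _)) hV
  have hVpos : 0 < V := by linarith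
  have hL1 : 8 * A / d ≤ Real.log V := (Real.le_log_iff_exp_le hVpos).2 hVe1
  have hL2 : A / b0 ≤ Real.log V := (Real.le_log_iff_exp_le hVpos).2 hVe2
  have hL0 : 0 < Real.log V := Real.log_pos (by linarith)
  set L : ℝ := Real.log V with hL
  have hX0 : 0 ≤ X V := by
    unfold X
    rw [← hL]
    positivity
  have hAL : A / L ≤ d / 8 := by
    rw [div_le_iff₀ hL0]
    rw [div_le_iff₀ hd0] at hL1
    linarith
  have hAb : A ≤ b0 * L := by
    rw [div_le_iff₀ hb0] at hL2
    linarith
  have huL : 1 ≤ u / L := by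
    rw [le_div_iff₀ hL0]
    linarith
  set q : ℝ := (3 / 2 - u / L - d / 4) * X V with hq
  -- the claim on [-A, A]
  have hclaim : ∀ a : ℝ, -A ≤ a → a ≤ A →
      q ≤ (H343.PPair (H343.kG b) (u + a) (Zb U1 U2) H343.ZSide.mz).re := by
    intro a ha1 ha2
    have hnn := H343.PPair_kG_nonneg b (u + a) hbpos (Zb U1 U2) H343.ZSide.mz
    by_cases hc : u + a ≤ 3 / 2 * L
    · have h1 := hblk1 V U1 U2 (u + a) hVV1 hR (by rw [← hL]; nlinarith) (by rw [← hL]; exact hc)
      rw [← hL] at h1
      refine le_trans ?_ h1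
      rw [hq]
      refine mul_le_mul_of_nonneg_right ?_ hX0
      have h2 : (u + a) / L ≤ u / L + d / 8 := by
        rw [add_div]
        have : a / L ≤ A / L := div_le_div_of_nonneg_right ha2 hL0.le
        linarith
      have h3 : max 1 ((u + a) / L) ≤ u / L + d / 8 := max_le (by linarith) h2
      linarith
    · rw [not_le] at hc
      refine le_trans ?_ hnn
      rw [hq]
      refine mul_nonpos_of_nonpos_of_nonneg ?_ hX0
      have h2 : 3 / 2 < (u + a) / L := by
        rw [lt_div_iff₀ hL0]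
        exact hc
      rw [add_div] at h2
      have : a / L ≤ A / L := div_le_div_of_nonneg_right ha2 hL0.le
      linarith
  have hheat := heat b u A hbpos hb1 hA.le (Zb U1 U2) H343.ZSide.mz
  have hjp := jp V U1 U2 u (by linarith) hR
  have hnn1 := H343.PPair_kG_nonneg 1 u one_pos (Zb U1 U2) H343.ZSide.mz
  set P : ℝ := (H343.PPair (H343.kG 1) u (Zb U1 U2) H343.ZSide.mz).re with hP
  rw [hjp]
  refine mul_le_mul_of_nonneg_left ?_ (Real.sqrt_nonneg _)
  -- it remains to bound P
  have hqle : (3 / 2 - u / L - δ) * X V ≤ (3 / 2 - u / L - d) * X V :=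
    mul_le_mul_of_nonneg_right (by linarith) hX0
  refine hqle.trans ?_
  by_cases hq0 : q ≤ 0
  · have h1 : (3 / 2 - u / L - d) * X V ≤ q := by
      rw [hq]
      exact mul_le_mul_of_nonneg_right (by linarith) hX0
    linarith
  · rw [not_le] at hq0
    have hcont1 : Continuous fun a : ℝ => Real.exp (-a ^ 2 / (1 - b)) := by fun_prop
    have hcont2 : Continuous fun a : ℝ => Real.exp (-a ^ 2 / (1 - b)) *
        (H343.PPair (H343.kG b) (u + a) (Zb U1 U2) H343.ZSide.mz).re :=
      hcont1.mul (Low.cont b u _ _)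
    have h1 : q * ∫ a in (-A)..A, Real.exp (-a ^ 2 / (1 - b)) ≤
        ∫ a in (-A)..A, Real.exp (-a ^ 2 / (1 - b)) *
          (H343.PPair (H343.kG b) (u + a) (Zb U1 U2) H343.ZSide.mz).re := by
      rw [← intervalIntegral.integral_const_mul]
      refine intervalIntegral.integral_mono_on (by linarith)
        ((hcont1.const_mul q).intervalIntegrable _ _) (hcont2.intervalIntegrable _ _) ?_
      intro a ha
      rw [mul_comm]
      exact mul_le_mul_of_nonneg_left (hclaim a ha.1 ha.2) (Real.exp_pos _).le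
    have hs0 : 0 ≤ (Real.sqrt (Real.pi * (1 - b)))⁻¹ := by positivity
    have h2 : q * (1 - d / 8) ≤ P := by
      refine le_trans ?_ hheat
      calc q * (1 - d / 8) ≤ q * ((Real.sqrt (Real.pi * (1 - b)))⁻¹ *
            ∫ a in (-A)..A, Real.exp (-a ^ 2 / (1 - b))) :=
            mul_le_mul_of_nonneg_left hmass hq0.le
        _ = (Real.sqrt (Real.pi * (1 - b)))⁻¹ *
            (q * ∫ a in (-A)..A, Real.exp (-a ^ 2 / (1 - b))) := by ring
        _ ≤ _ := mul_le_mul_of_nonneg_left h1 hs0
    have h3 : q ≤ 1 / 2 * X V := by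
      rw [hq]
      exact mul_le_mul_of_nonneg_right (by linarith) hX0
    have h4 : (3 / 2 - u / L - d) * X V ≤ q * (1 - d / 8) := by
      have h5 : q * (1 - d / 8) = q - d / 8 * q := by ring
      have h6 : d / 8 * q ≤ d / 8 * (1 / 2 * X V) :=
        mul_le_mul_of_nonneg_left h3 (by positivity)
      have h7 : q = (3 / 2 - u / L - d) * X V + 3 * d / 4 * X V := by rw [hq]; ring
      have h8 : 0 ≤ d * X V := mul_nonneg hd0.le hX0
      rw [h5]
      nlinarith
    linarith

end H332B
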