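import Pool.Agent.H332B.Num
import Pool.Agent.H332B.QN

open Complex Filter Topology Set MeasureTheory
open scoped BigOperators

namespace H332B

namespace Max

/-- crude lower bound for the polynomial -/
theorem Qp_ge (w : ℝ) (h0 : 0 ≤ w) (h1 : w ≤ 1414 / 100) : -120 ≤ Qp w := by
  have p2 : 0 ≤ w ^ 2 := by positivity
  have p6 : 0 ≤ w ^ 6 := by positivity
  have p3 : w ^ 3 ≤ (1414 / 100) ^ 3 := pow_le_pow_left₀ h0 h1 3
  have p4 : w ^ 4 ≤ (1414 / 100) ^ 4 := pow_le_pow_left₀ h0 h1 4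
  have p5 : w ^ 5 ≤ (1414 / 100) ^ 5 := pow_le_pow_left₀ h0 h1 5
  have p7 : w ^ 7 ≤ (1414 / 100) ^ 7 := pow_le_pow_left₀ h0 h1 7
  norm_num at p3 p4 p5 p7
  unfold Qp
  linarith

theorem exp_small (x : ℝ) (h : 3 ≤ x) : Real.exp (-x) ≤ 1 / 16 := by
  have h1 : (2.7 : ℝ) < Real.exp 1 := by
    have := Real.exp_one_gt_d9
    linarith
  have h2 : (16 : ℝ) ≤ Real.exp 3 := by
    have h3 : Real.exp 3 = Real.exp 1 ^ 3 := by
      rw [← Real.exp_nat_mul]; norm_num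
    rw [h3]
    have h4 : (2.7 : ℝ) ^ 3 ≤ Real.exp 1 ^ 3 := pow_le_pow_left₀ (by norm_num) h1.le 3
    norm_num at h4 ⊢
    linarith
  rw [Real.exp_neg, one_div]
  exact inv_anti₀ (by norm_num) (h2.trans (Real.exp_le_exp.2 h))

end Max

theorem max_ : S_MAX := by
  have hpi1 := Real.pi_gt_d4
  have hpi2 := Real.pi_lt_d4
  constructor
  · intro α hα
    have hw : 6283 / 1000 ≤ 2 * Real.pi * α ^ 2 := by
      have : 1 ≤ α ^ 2 := by nlinarith
      nlinarith
    have h := qn _ hw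
    unfold rh
    exact mul_nonpos_of_nonpos_of_nonneg h (Real.exp_pos _).le
  · intro α h1 h2
    have ha1 : 1 ≤ α ^ 2 := by nlinarith
    have ha2 : α ^ 2 ≤ 9 / 4 := by nlinarith
    have hw0 : 0 ≤ 2 * Real.pi * α ^ 2 := by positivity
    have hw1 : 2 * Real.pi * α ^ 2 ≤ 1414 / 100 := by nlinarith
    have hx : 3 ≤ Real.pi * α ^ 2 := by nlinarith
    have hQ := Max.Qp_ge _ hw0 hw1
    have hE := Max.exp_small _ hx
    have hE0 := Real.exp_pos (-(Real.pi * α ^ 2))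
    unfold rh
    nlinarith

end H332B
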