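import Pool.Agent.H332B.Defs
import Pool.Agent.H332B.Rrr

open Complex Filter Topology Set MeasureTheory
open scoped BigOperators

namespace H332B

namespace PF

lemma zb_re (hRH : RiemannHypothesis) {U1 U2 : ℝ} (hU : 1 ≤ U1) {s : ℂ} (hs : s ∈ Zb U1 U2) :
    s.re = 1 / 2 := by
  unfold Zb at hs
  rw [H370.mem_Zf H370.good_zeta hU] at hs
  obtain ⟨h1, h2, h3, h4, h5⟩ := hs
  refine hRH s h5 ?_ ?_
  · rintro ⟨n, hn⟩
    rw [hn] at h3
    simp at h3
    linarith
  · rintro rfl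
    simp at h3
    linarith

/-- `Jb` as a cosine sum -/
lemma Jb_cos (hRH : RiemannHypothesis) {U1 U2 : ℝ} (hU : 1 ≤ U1) (u : ℝ) :
    Jb U1 U2 u = Real.sqrt Real.pi * ∑ s ∈ Zb U1 U2, ∑ s' ∈ Zb U1 U2,
      H343.ZSide.mz s * H343.ZSide.mz s' *
        (Real.cos (u * (s.im - s'.im)) * Real.exp (-(s.im - s'.im) ^ 2 / 4)) := by
  have h := H370.JJ_eq (F := riemannZeta) (U1 := U1) (U2 := U2) H370.good_zeta hU u
  have h2 := congrArg Complex.re h
  rw [Complex.ofReal_re, Complex.re_ofReal_mul, Complex.re_sum] at h2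
  unfold Jb
  rw [h2]
  congr 1
  apply Finset.sum_congr rfl
  intro s hs
  rw [Complex.re_sum]
  apply Finset.sum_congr rfl
  intro s' hs'
  have hz : ∀ z ∈ Zb U1 U2, H370.zz z = (z.im : ℂ) := by
    intro z hz
    apply Complex.ext
    · rw [H370.zz_re]; simp
    · rw [H370.zz_im, zb_re hRH hU hz]; simp
  rw [hz s hs, hz s' hs']
  have e : (H370.mult riemannZeta s : ℂ) * (H370.mult riemannZeta s' : ℂ) *
      (cexp (I * u * ((s.im : ℂ) - (s'.im : ℂ))) * cexp (-((s.im : ℂ) - (s'.im : ℂ)) ^ 2 / 4)) =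
      ((H343.ZSide.mz s * H343.ZSide.mz s' * Real.exp (-(s.im - s'.im) ^ 2 / 4) : ℝ) : ℂ) *
        cexp ((u * (s.im - s'.im) : ℝ) * I) := by
    unfold H343.ZSide.mz
    push_cast
    ring_nf
  rw [e, Complex.re_ofReal_mul, Complex.exp_ofReal_mul_I_re]
  ring

lemma rh_cont : Continuous rh := by
  unfold rh Qp
  fun_prop

end PF

theorem pf : S_PF := by
  intro hRH V U1 U2 Λ hV hR
  have hU : 1 ≤ U1 := hV.trans hR.1
  obtain ⟨hri, hrr⟩ := rrr
  have hcos : ∀ c : ℝ, Integrable (fun α : ℝ => rh α * Real.cos (c * α)) := by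
    intro c
    refine hri.norm.mono' ((PF.rh_cont.mul (by fun_prop)).aestronglyMeasurable)
      (Eventually.of_forall fun α => ?_)
    rw [norm_mul]
    have : ‖Real.cos (c * α)‖ ≤ 1 := by
      rw [Real.norm_eq_abs]
      exact Real.abs_cos_le_one _
    calc ‖rh α‖ * ‖Real.cos (c * α)‖ ≤ ‖rh α‖ * 1 := by gcongr
      _ = _ := mul_one _
  set G : ℝ → ℝ := fun α => rh α * Jb U1 U2 (Λ * α) with hG
  have hGeq : ∀ α, G α = Real.sqrt Real.pi * ∑ s ∈ Zb U1 U2, ∑ s' ∈ Zb U1 U2,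
      (H343.ZSide.mz s * H343.ZSide.mz s' * Real.exp (-(s.im - s'.im) ^ 2 / 4)) *
        (rh α * Real.cos ((Λ * (s.im - s'.im)) * α)) := by
    intro α
    simp only [hG]
    rw [PF.Jb_cos hRH hU, mul_left_comm]
    congr 1
    rw [Finset.mul_sum]
    apply Finset.sum_congr rfl
    intro s _
    rw [Finset.mul_sum]
    apply Finset.sum_congr rfl
    intro s' _
    rw [show Λ * α * (s.im - s'.im) = Λ * (s.im - s'.im) * α by ring]
    ring
  have hGi : Integrable G := by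
    have e : G = fun α => Real.sqrt Real.pi * ∑ s ∈ Zb U1 U2, ∑ s' ∈ Zb U1 U2,
      (H343.ZSide.mz s * H343.ZSide.mz s' * Real.exp (-(s.im - s'.im) ^ 2 / 4)) *
        (rh α * Real.cos ((Λ * (s.im - s'.im)) * α)) := funext hGeq
    rw [e]
    apply Integrable.const_mul
    exact integrable_finsetSum _ fun s _ => integrable_finsetSum _ fun s' _ =>
      (hcos _).const_mul _
  have hGint : ∫ α, G α = Real.sqrt Real.pi * ∑ s ∈ Zb U1 U2, ∑ s' ∈ Zb U1 U2,
      (H343.ZSide.mz s * H343.ZSide.mz s' * Real.exp (-(s.im - s'.im) ^ 2 / 4)) *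
        rr (Λ * (s.im - s'.im) / (2 * Real.pi)) := by
    simp_rw [hGeq]
    rw [integral_const_mul]
    congr 1
    rw [integral_finsetSum _ fun s _ => integrable_finsetSum _ fun s' _ => (hcos _).const_mul _]
    apply Finset.sum_congr rfl
    intro s _
    rw [integral_finsetSum _ fun s' _ => (hcos _).const_mul _]
    apply Finset.sum_congr rfl
    intro s' _
    rw [integral_const_mul, hrr]
    congr 2
    funext α
    have hπ := Real.pi_ne_zero
    congr 2
    field_simp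
  have hGeven : ∀ α, G (-α) = G α := by
    intro α
    rw [hGeq, hGeq]
    have : rh (-α) = rh α := by unfold rh; rw [neg_sq]
    simp only [this, mul_neg, Real.cos_neg]
  have hhalf : ∫ α, G α = 2 * ∫ α in Set.Ioi (0 : ℝ), G α := by
    have h1 : ∫ α, G α = ∫ α, G |α| := by
      congr 1
      funext α
      rcases abs_choice α with h | h
      · rw [h]
      · rw [h, hGeven]
    rw [h1, integral_comp_abs]
  refine ⟨hGi.integrableOn, ?_⟩
  have hπ : 0 < Real.sqrt Real.pi := Real.sqrt_pos.2 Real.pi_pos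
  have e1 : ∫ α in Set.Ioi (0 : ℝ), rh α * Jb U1 U2 (Λ * α) = ∫ α in Set.Ioi (0 : ℝ), G α := rfl
  rw [e1]
  have e2 : 2 / Real.sqrt Real.pi * ∫ α in Set.Ioi (0 : ℝ), G α =
      (1 / Real.sqrt Real.pi) * ∫ α, G α := by
    rw [hhalf]; ring
  rw [e2, hGint, ← mul_assoc, one_div, inv_mul_cancel₀ hπ.ne', one_mul]
  apply Finset.sum_congr rfl
  intro s _
  apply Finset.sum_congr rfl
  intro s' _
  ring

end H332B
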