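import Pool.Agent.H332B.Num

set_option maxRecDepth 4000

namespace H332B

namespace QM

theorem c0 (x y : ℝ) (hx : 0 ≤ x) (hy : 0 ≤ y) (h : x + y = (1571 / 250 : ℝ)) : 0 ≤ (Qp ((0 : ℝ) + x) / 2 - Qd ((0 : ℝ) + x)) := by
  have hy2 : y = (1571 / 250 : ℝ) - x := by linarith
  have e : (Qp ((0 : ℝ) + x) / 2 - Qd ((0 : ℝ) + x)) = (911345549934255859375 / 773897119592138705433100288 : ℝ) * (x ^ 0 * y ^ 7) + (2969621577309243765625 / 386948559796069352716550144 : ℝ) * (x ^ 1 * y ^ 6) + (9760177398487862233375 / 386948559796069352716550144 : ℝ) * (x ^ 2 * y ^ 5) + (29100855966979942703329 / 580422839694104029074825216 : ℝ) * (x ^ 3 * y ^ 4) + (4482301213455523184296849 / 72552854961763003634353152000 : ℝ) * (x ^ 4 * y ^ 3) + (39642184788785173561988147 / 906910687022037545429414400000 : ℝ) * (x ^ 5 * y ^ 2) + (26403661263888171219876690127 / 1700457538166320397680152000000000 : ℝ) * (x ^ 6 * y ^ 1) + (7574451578474600272824562900129 / 3719750864738825869925332500000000000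 : ℝ) * (x ^ 7 * y ^ 0) := by
    unfold Qp Qd
    rw [hy2]
    ring
  rw [e]
  positivity

theorem main (w : ℝ) (h0 : (0 : ℝ) ≤ w) (h1 : w ≤ (1571 / 250 : ℝ)) : 0 ≤ (Qp w / 2 - Qd w) := by
  have := c0 (w - (0 : ℝ)) ((1571 / 250 : ℝ) - w) (by linarith) (by linarith) (by ring)
  rw [show (0 : ℝ) + (w - (0 : ℝ)) = w by ring] at this
  exact this

end QM

theorem qm : S_QM := fun w hw hw1 => by
  have := QM.main w hw (by linarith)
  linarith

end H332B
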