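import Pool.Agent.H332B.Num
import Pool.Agent.H332B.QN
import Pool.Agent.H332B.QM

open Complex Filter Topology Set MeasureTheory
open scoped BigOperators

namespace H332B

namespace TRR

theorem hasDerivAt_Qp (w : ℝ) : HasDerivAt Qp (Qd w) w := by
  unfold Qp Qd
  have h1 := (hasDerivAt_id w)
  have h := ((((((((hasDerivAt_const w (513709738020047 / 512000000000000 : ℝ)).add
    (h1.const_mul (11775204113427 / 256000000000000 : ℝ))).add
    ((h1.pow 2).const_mul (742681256161 / 25600000000000 : ℝ))).add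
    ((h1.pow 3).const_mul (-(1521488134961 / 192000000000000) : ℝ))).add
    ((h1.pow 4).const_mul (-(17280350137 / 96000000000000) : ℝ))).add
    ((h1.pow 5).const_mul (-(6172383419 / 80000000000000) : ℝ))).add
    ((h1.pow 6).const_mul (3967491371 / 360000000000000 : ℝ))).add
    ((h1.pow 7).const_mul (-(375315371 / 1260000000000000) : ℝ)))
  refine (h.congr_deriv ?_).congr_of_eventuallyEq (Eventually.of_forall fun x => ?_)
  · simp only [id]
    norm_num
    ring
  · simp only [Pi.add_apply, Pi.pow_apply, id]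

theorem continuous_Qp : Continuous Qp := by
  unfold Qp
  fun_prop

theorem continuous_Qd : Continuous Qd := by
  unfold Qd
  fun_prop

/-- the derivative of `rh` -/
noncomputable def rd (a : ℝ) : ℝ :=
  4 * Real.pi * a * (Qd (2 * Real.pi * a ^ 2) - Qp (2 * Real.pi * a ^ 2) / 2) *
    Real.exp (-(Real.pi * a ^ 2))

theorem continuous_rd : Continuous rd := by
  unfold rd
  have h1 := continuous_Qp
  have h2 := continuous_Qd
  fun_prop

theorem hasDerivAt_rh (a : ℝ) : HasDerivAt rh (rd a) a := by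
  have h1 : HasDerivAt (fun x : ℝ => 2 * Real.pi * x ^ 2) (4 * Real.pi * a) a := by
    refine ((hasDerivAt_pow 2 a).const_mul (2 * Real.pi)).congr_deriv ?_
    norm_num
    ring
  have h2 : HasDerivAt (fun x : ℝ => -(Real.pi * x ^ 2)) (-(2 * Real.pi * a)) a := by
    refine (((hasDerivAt_pow 2 a).const_mul Real.pi).neg).congr_deriv ?_
    norm_num
    ring
  have h3 := (hasDerivAt_Qp (2 * Real.pi * a ^ 2)).comp a h1
  have h4 := h3.mul h2.exp
  refine (h4.congr_deriv ?_).congr_of_eventuallyEq (Eventually.of_forall fun x => ?_)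
  · unfold rd
    simp only [Function.comp_apply]
    ring
  · rfl

theorem RR_zero (a : ℝ) (ha : 1 ≤ a ^ 2) : RR a = 0 := by
  unfold RR
  apply max_eq_right
  unfold rh
  have hpi := Real.pi_gt_d4
  have hw : (6283 / 1000 : ℝ) ≤ 2 * Real.pi * a ^ 2 := by
    nlinarith [hpi, ha]
  exact mul_nonpos_of_nonpos_of_nonneg (qn _ hw) (Real.exp_pos _).le

theorem rh_anti : AntitoneOn rh (Set.Icc 0 1) := by
  apply antitoneOn_of_deriv_nonpos (convex_Icc 0 1)
  · exact fun x _ => (hasDerivAt_rh x).continuousAt.continuousWithinAt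
  · exact fun x _ => (hasDerivAt_rh x).differentiableAt.differentiableWithinAt
  · intro x hx
    rw [interior_Icc] at hx
    rw [(hasDerivAt_rh x).deriv]
    unfold rd
    have hpi := Real.pi_lt_d4
    have hpi0 := Real.pi_pos
    have hx2 : x ^ 2 ≤ 1 := by nlinarith [hx.1, hx.2]
    have hw0 : 0 ≤ 2 * Real.pi * x ^ 2 := by positivity
    have hw : 2 * Real.pi * x ^ 2 ≤ 6284 / 1000 := by
      have h1 : 2 * Real.pi * x ^ 2 ≤ 2 * Real.pi * 1 :=
        mul_le_mul_of_nonneg_left hx2 (by positivity)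
      linarith
    have h2 := qm _ hw0 hw
    have h3 : 0 ≤ 4 * Real.pi * x := by
      have := hx.1
      positivity
    exact mul_nonpos_of_nonpos_of_nonneg
      (mul_nonpos_of_nonneg_of_nonpos h3 (by linarith)) (Real.exp_pos _).le

theorem rh_lip : ∃ K : ℝ, 0 < K ∧ ∀ x ∈ Set.Icc (-1 : ℝ) 1, ∀ y ∈ Set.Icc (-1 : ℝ) 1,
    |rh x - rh y| ≤ K * |x - y| := by
  obtain ⟨K, hK⟩ := (isCompact_Icc (a := (-1 : ℝ)) (b := 1)).exists_bound_of_continuousOn
    continuous_rd.continuousOn
  refine ⟨max K 1, lt_max_of_lt_right one_pos, ?_⟩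
  intro x hx y hy
  have h := Convex.norm_image_sub_le_of_norm_hasDerivWithin_le (f := rh) (f' := rd)
    (C := max K 1) (s := Set.Icc (-1 : ℝ) 1) (x := y) (y := x)
    (fun z _ => (hasDerivAt_rh z).hasDerivWithinAt)
    (fun z hz => (hK z hz).trans (le_max_left _ _)) (convex_Icc _ _) hy hx
  simpa only [Real.norm_eq_abs] using h

theorem RR_clamp (x : ℝ) : RR x = RR (max (min x 1) (-1)) := by
  rcases le_total x (-1) with h | h
  · have h1 : max (min x 1) (-1) = -1 := by
      rw [min_eq_left (by linarith), max_eq_right h]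
    rw [h1, RR_zero x (by nlinarith), RR_zero (-1) (by norm_num)]
  · rcases le_total x 1 with h' | h'
    · rw [min_eq_left h', max_eq_left h]
    · have h1 : max (min x 1) (-1) = 1 := by
        rw [min_eq_right h', max_eq_left (by norm_num)]
      rw [h1, RR_zero x (by nlinarith), RR_zero 1 (by norm_num)]

end TRR

theorem trr : S_TR := by
  refine ⟨fun a => le_max_right _ _, ?_, ?_, ?_⟩
  · intro a ha b hb hab
    rw [Set.mem_Ici] at ha hb
    rcases le_total b 1 with h | h
    · exact max_le_max (TRR.rh_anti ⟨ha, hab.trans h⟩ ⟨hb, h⟩ hab) le_rfl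
    · rw [TRR.RR_zero b (by nlinarith)]
      exact le_max_right _ _
  · obtain ⟨K, hK0, hK⟩ := TRR.rh_lip
    refine ⟨K, hK0, fun x y => ?_⟩
    rw [TRR.RR_clamp x, TRR.RR_clamp y]
    have hmem : ∀ z : ℝ, max (min z 1) (-1) ∈ Set.Icc (-1 : ℝ) 1 := fun z =>
      ⟨le_max_right _ _, max_le (min_le_right _ _) (by norm_num)⟩
    have h1 : |max (min x 1) (-1) - max (min y 1) (-1)| ≤ |x - y| :=
      (abs_max_sub_max_le_abs _ _ _).trans (abs_inf_sub_inf_le_abs x y 1)
    have h2 : |RR (max (min x 1) (-1)) - RR (max (min y 1) (-1))| ≤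
        |rh (max (min x 1) (-1)) - rh (max (min y 1) (-1))| :=
      abs_max_sub_max_le_abs _ _ _
    refine h2.trans ((hK _ (hmem x) _ (hmem y)).trans ?_)
    exact mul_le_mul_of_nonneg_left h1 hK0.le
  · intro a ha
    exact TRR.RR_zero a (by nlinarith)

end H332B
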