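import Pool.Agent.H332B.Up
import Pool.Agent.H332B.Low
import Pool.Agent.H332B.PF
import Pool.Agent.H332B.TRR
import Pool.Agent.H332B.J1
import Pool.Agent.H332B.J2
import Pool.Agent.H332B.Max

open Complex Filter Topology Set MeasureTheory
open scoped BigOperators

namespace H332B

namespace MB

lemma rh_cont : Continuous rh := by
  unfold rh Qp
  fun_prop

lemma RR_cont : Continuous RR := by
  unfold RR
  exact rh_cont.max continuous_const

lemma Jb_nonneg (U1 U2 u : ℝ) : 0 ≤ Jb U1 U2 u := by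
  unfold Jb H370.JJ
  exact integral_nonneg fun t => by positivity

lemma Jb_cont {U1 : ℝ} (hU : 1 ≤ U1) (U2 : ℝ) : Continuous (fun u => Jb U1 U2 u) :=
  H370.JJ_cont H370.good_zeta hU

lemma RR0 : RR 0 ≤ 10033394 / 10000000 := by
  unfold RR rh Qp
  norm_num

/-- the integral over `(0, ∞)` is at most the sum of the two relevant pieces -/
lemma split {f : ℝ → ℝ} (hf : IntegrableOn f (Set.Ioi 0)) (c : ℝ) (hc1 : 1 ≤ c) (hc : c ≤ 3 / 2)
    (hneg : ∀ α : ℝ, 1 ≤ α → f α ≤ 0) :
    ∫ α in Set.Ioi (0 : ℝ), f α ≤ (∫ α in (0 : ℝ)..1, f α) + ∫ α in c..(3 / 2), f α := by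
  have h1 : IntegrableOn f (Set.Ioc 0 1) := hf.mono_set fun x hx => hx.1
  have h2 : IntegrableOn f (Set.Ioi 1) := hf.mono_set fun x hx => Set.mem_Ioi.2 (lt_trans one_pos (Set.mem_Ioi.1 hx))
  have e1 : ∫ α in Set.Ioi (0 : ℝ), f α = (∫ α in Set.Ioc (0 : ℝ) 1, f α) +
      ∫ α in Set.Ioi (1 : ℝ), f α := by
    rw [← setIntegral_union (Set.Ioc_disjoint_Ioi le_rfl) measurableSet_Ioi h1 h2,
      Set.Ioc_union_Ioi_eq_Ioi zero_le_one]
  rw [e1, intervalIntegral.integral_of_le zero_le_one, intervalIntegral.integral_of_le hc]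
  have h3 : ∫ α in Set.Ioi (1 : ℝ), f α ≤ ∫ α in Set.Ioc c (3 / 2), f α := by
    have h4 : IntegrableOn (fun α => -f α) (Set.Ioi 1) := h2.neg
    have h5 : ∫ α in Set.Ioc c (3 / 2), -f α ≤ ∫ α in Set.Ioi (1 : ℝ), -f α := by
      apply setIntegral_mono_set h4
      · refine (ae_restrict_iff' measurableSet_Ioi).2 (Eventually.of_forall fun α hα => ?_)
        have := hneg α (le_of_lt hα)
        simp only [Pi.zero_apply]
        linarith
      · exact Eventually.of_forall fun α hα => lt_of_le_of_lt hc1 hα.1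
    rw [integral_neg, integral_neg] at h5
    linarith
  linarith

end MB

theorem mb : S_MB := by
  intro hRH
  obtain ⟨ε, hε⟩ : ∃ ε : ℝ, ε = 1 / 10000000 := ⟨_, rfl⟩
  obtain ⟨T0, hT0, hup⟩ := up RR trr ε ε (by norm_num [hε]) (by norm_num [hε]) (by norm_num [hε])
  obtain ⟨V0, hV0, hlow⟩ := low ε (by norm_num [hε])
  refine ⟨ε, max T0 V0, by norm_num [hε], by norm_num [hε], hT0.trans (le_max_left _ _), ?_⟩
  intro V hV
  have hVT : T0 ≤ V := (le_max_left _ _).trans hV
  have hVV : V0 ≤ V := (le_max_right _ _).trans hV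
  obtain ⟨U1, U2, hR, hup'⟩ := hup V hVT
  refine ⟨U1, U2, hR, ?_⟩
  have hV10 : 10 ≤ V := hV0.trans hVV
  have hV1 : 1 ≤ V := by linarith
  have hU1 : 1 ≤ U1 := hV1.trans hR.1
  set L := Real.log V with hL
  have hL0 : 0 < L := Real.log_pos (by linarith)
  have hX : 0 < X V := by
    unfold X
    have := Real.pi_pos
    positivity
  obtain ⟨hint, hpf⟩ := pf hRH V U1 U2 ((1 - ε) * L) hV1 hR
  rw [hpf]
  set sp := Real.sqrt Real.pi with hsp
  have hsp0 : 0 < sp := Real.sqrt_pos.2 Real.pi_pos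
  obtain ⟨c, hc⟩ : ∃ c : ℝ, c = 1 / (1 - ε) := ⟨_, rfl⟩
  have hc1 : 1 ≤ c := by rw [hc, hε]; norm_num
  have hc2 : c ≤ 1 + 2 / 10000000 := by rw [hc, hε]; norm_num
  have hc32 : c ≤ 3 / 2 := by linarith
  obtain ⟨hmax1, hmax2⟩ := max_
  set f : ℝ → ℝ := fun α => rh α * Jb U1 U2 ((1 - ε) * L * α) with hf
  have hneg : ∀ α : ℝ, 1 ≤ α → f α ≤ 0 := fun α hα =>
    mul_nonpos_of_nonpos_of_nonneg (hmax1 α hα) (MB.Jb_nonneg _ _ _)
  have hsplit := MB.split hint c hc1 hc32 hneg
  have hJc : Continuous (fun α : ℝ => Jb U1 U2 ((1 - ε) * L * α)) :=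
    (MB.Jb_cont hU1 U2).comp (by fun_prop)
  have hfc : Continuous f := MB.rh_cont.mul hJc
  -- the first piece
  have h1 : ∫ α in (0 : ℝ)..1, f α ≤ ∫ α in (0 : ℝ)..1, RR α * Jb U1 U2 ((1 - ε) * L * α) := by
    apply intervalIntegral.integral_mono_on zero_le_one (hfc.intervalIntegrable _ _)
      ((MB.RR_cont.mul hJc).intervalIntegrable _ _)
    intro α _
    apply mul_le_mul_of_nonneg_right (le_max_left _ _) (MB.Jb_nonneg _ _ _)
  -- the second piece
  have hε0 : 0 < 1 - ε := by rw [hε]; norm_num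
  have h2 : ∫ α in c..(3 / 2), f α ≤
      ∫ α in c..(3 / 2), sp * X V * (rh α * (3 / 2 - α - ε)) := by
    apply intervalIntegral.integral_mono_on hc32 (hfc.intervalIntegrable _ _)
    · have := MB.rh_cont
      exact (by fun_prop : Continuous fun α => sp * X V * (rh α * (3 / 2 - α - ε))).intervalIntegrable _ _
    · intro α hα
      have hα1 : 1 ≤ α := hc1.trans hα.1
      have ha : L ≤ (1 - ε) * L * α := by
        have : 1 ≤ (1 - ε) * α := by
          have h := hα.1
          rw [hc, div_le_iff₀ hε0] at h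
          linarith
        nlinarith
      have hb : (1 - ε) * L * α ≤ 3 / 2 * L := by
        have : (1 - ε) * α ≤ 3 / 2 := by
          have : (1 - ε) * α ≤ 1 * (3 / 2) := by
            apply mul_le_mul (by rw [hε]; norm_num) hα.2 (by linarith) zero_le_one
          linarith
        nlinarith
      have hl := hlow V U1 U2 ((1 - ε) * L * α) hVV hR ha hb
      have e1 : (1 - ε) * L * α / Real.log V = (1 - ε) * α := by
        rw [← hL]; field_simp
      rw [e1] at hl
      have h3 : sp * ((3 / 2 - α - ε) * X V) ≤ Jb U1 U2 ((1 - ε) * L * α) := by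
        refine le_trans ?_ hl
        have : (3 / 2 - α - ε) ≤ (3 / 2 - (1 - ε) * α - ε) := by
          have : 0 ≤ ε * α := by positivity
          linarith
        gcongr
      have h4 := mul_le_mul_of_nonpos_left h3 (hmax1 α hα1)
      calc f α = rh α * Jb U1 U2 ((1 - ε) * L * α) := rfl
        _ ≤ rh α * (sp * ((3 / 2 - α - ε) * X V)) := h4
        _ = _ := by ring
  have h3 : ∫ α in c..(3 / 2), rh α * (3 / 2 - α - ε) ≤
      (∫ α in (1 : ℝ)..(3 / 2), (3 / 2 - α) * rh α) + 10 * (c - 1) + 10 * ε := by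
    have hr := MB.rh_cont
    have hi : ∀ a b : ℝ, IntervalIntegrable (fun α => rh α * (3 / 2 - α - ε)) volume a b :=
      fun a b => (by fun_prop : Continuous fun α => rh α * (3 / 2 - α - ε)).intervalIntegrable _ _
    have hi2 : ∀ a b : ℝ, IntervalIntegrable (fun α => (3 / 2 - α) * rh α) volume a b :=
      fun a b => (by fun_prop : Continuous fun α => (3 / 2 - α) * rh α).intervalIntegrable _ _
    have hA : ∫ α in c..(3 / 2), rh α * (3 / 2 - α - ε) ≤
        ∫ α in c..(3 / 2), ((3 / 2 - α) * rh α + 10 * ε) := by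
      apply intervalIntegral.integral_mono_on hc32 (hi _ _)
        ((hi2 _ _).add (intervalIntegrable_const))
      intro α hα
      have hα1 : 1 ≤ α := hc1.trans hα.1
      have := hmax2 α hα1 hα.2
      have : 0 < ε := by rw [hε]; norm_num
      nlinarith
    have hB : ∫ α in c..(3 / 2), ((3 / 2 - α) * rh α + 10 * ε) =
        (∫ α in c..(3 / 2), (3 / 2 - α) * rh α) + (3 / 2 - c) * (10 * ε) := by
      rw [intervalIntegral.integral_add (hi2 _ _) intervalIntegrable_const,
        intervalIntegral.integral_const, smul_eq_mul]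
    have hC : (∫ α in (1 : ℝ)..c, (3 / 2 - α) * rh α) + (∫ α in c..(3 / 2), (3 / 2 - α) * rh α) =
        ∫ α in (1 : ℝ)..(3 / 2), (3 / 2 - α) * rh α :=
      intervalIntegral.integral_add_adjacent_intervals (hi2 _ _) (hi2 _ _)
    have hD : ∫ α in (1 : ℝ)..c, (-10 : ℝ) ≤ ∫ α in (1 : ℝ)..c, (3 / 2 - α) * rh α := by
      apply intervalIntegral.integral_mono_on hc1 intervalIntegrable_const (hi2 _ _)
      intro α hα
      have h5 := hmax2 α hα.1 (hα.2.trans hc32)
      have h6 := hmax1 α hα.1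
      have h7 : 0 ≤ 3 / 2 - α := by linarith [hα.2]
      have h8 : 3 / 2 - α ≤ 1 := by linarith [hα.1]
      nlinarith
    rw [intervalIntegral.integral_const, smul_eq_mul] at hD
    have h9 : (3 / 2 - c) * (10 * ε) ≤ 10 * ε := by
      have : 0 < ε := by rw [hε]; norm_num
      nlinarith
    linarith
  have h4 : ∫ α in c..(3 / 2), f α ≤ sp * X V * (-(326 / 100000) + 10 * (c - 1) + 10 * ε) := by
    refine h2.trans ?_
    rw [intervalIntegral.integral_const_mul]
    apply mul_le_mul_of_nonneg_left _ (by positivity)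
    have := j2
    unfold S_J2 at this
    linarith
  have h5 : 2 / sp * ∫ α in Set.Ioi (0 : ℝ), f α ≤
      2 / sp * (∫ α in (0 : ℝ)..1, RR α * Jb U1 U2 ((1 - ε) * L * α)) +
      2 / sp * (sp * X V * (-(326 / 100000) + 10 * (c - 1) + 10 * ε)) := by
    rw [← mul_add]
    apply mul_le_mul_of_nonneg_left _ (by positivity)
    linarith
  refine h5.trans ?_
  have h6 : 2 / sp * (sp * X V * (-(326 / 100000) + 10 * (c - 1) + 10 * ε)) =
      X V * (2 * (-(326 / 100000) + 10 * (c - 1) + 10 * ε)) := by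
    field_simp
  rw [h6]
  have hj1 := j1
  unfold S_J1 at hj1
  have hRR0 := MB.RR0
  have h7 : RR 0 / (1 - ε) + 2 * (1 - ε) * (∫ α in (0 : ℝ)..1, α * RR α) + ε +
      2 * (-(326 / 100000) + 10 * (c - 1) + 10 * ε) ≤ 13166 / 10000 := by
    have h8 : RR 0 / (1 - ε) ≤ (10033394 / 10000000) / (1 - ε) := by gcongr
    have h9 : 2 * (1 - ε) * (∫ α in (0 : ℝ)..1, α * RR α) ≤ 319764 / 1000000 := by
      have h10 : 0 ≤ ∫ α in (0 : ℝ)..1, α * RR α := by
        apply intervalIntegral.integral_nonneg zero_le_one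
        intro α hα
        exact mul_nonneg hα.1 (trr.nonneg α)
      have : (1 - ε) ≤ 1 := by rw [hε]; norm_num
      nlinarith
    have h10 : (10033394 / 10000000 : ℝ) / (1 - ε) ≤ 10033396 / 10000000 := by
      rw [hε]; norm_num
    have h11 : ε = 1 / 10000000 := hε
    linarith
  calc _ ≤ X V * (RR 0 / (1 - ε) + 2 * (1 - ε) * (∫ α in (0 : ℝ)..1, α * RR α) + ε) +
      X V * (2 * (-(326 / 100000) + 10 * (c - 1) + 10 * ε)) := by
        gcongr
    _ = X V * (RR 0 / (1 - ε) + 2 * (1 - ε) * (∫ α in (0 : ℝ)..1, α * RR α) + ε +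
      2 * (-(326 / 100000) + 10 * (c - 1) + 10 * ε)) := by ring
    _ ≤ X V * (13166 / 10000) := by gcongr
    _ = _ := by ring

end H332B
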