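import Pool.Agent.H332B.Defs2
import Pool.Agent.H332B.Lam
import Pool.Agent.H370R2.PC

open Complex Filter Topology Set MeasureTheory
open scoped BigOperators

namespace H332B

open H370

namespace Up2

open Lam

lemma a1_aux {R : ℝ → ℝ} (hR : TR R) (b : ℝ) (hb : 0 < b) :
    ∫ α in (0 : ℝ)..1, R α * Real.exp (-(b * α) ^ 2) ≤ R 0 * (Real.sqrt Real.pi / (2 * b)) := by
  have hRc := (g_cont hR)
  have hR0 : 0 ≤ R 0 := hR.nonneg 0
  calc ∫ α in (0 : ℝ)..1, R α * Real.exp (-(b * α) ^ 2) ≤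
      ∫ α in (0 : ℝ)..1, R 0 * Real.exp (-(b ^ 2) * α ^ 2) := by
        refine intervalIntegral.integral_mono_on zero_le_one
          ((by fun_prop : Continuous fun α : ℝ =>
            R α * Real.exp (-(b * α) ^ 2)).intervalIntegrable _ _)
          ((by fun_prop : Continuous fun α : ℝ =>
            R 0 * Real.exp (-(b ^ 2) * α ^ 2)).intervalIntegrable _ _) fun α hα => ?_
        have h1 := g_le hR α hα.1
        have h2 : -(b * α) ^ 2 = -(b ^ 2) * α ^ 2 := by ring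
        rw [h2]
        gcongr
    _ = R 0 * ∫ α in (0 : ℝ)..1, Real.exp (-(b ^ 2) * α ^ 2) :=
        intervalIntegral.integral_const_mul _ _
    _ ≤ R 0 * (Real.sqrt (Real.pi / b ^ 2) / 2) := by
        gcongr
        exact gauss01 (b ^ 2) (by positivity)
    _ = _ := by
        rw [Real.sqrt_div Real.pi_pos.le, Real.sqrt_sq hb.le]
        field_simp

lemma a2_aux {R : ℝ → ℝ} (hR : TR R) (b : ℝ) (hb : 0 < b) :
    ∫ α in (0 : ℝ)..1, R α * Real.exp (2 * (b * α) - (b * α) ^ 2 / 2) ≤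
        R 0 * (Real.exp 4 * Real.sqrt Real.pi) / b := by
  have hRc := (g_cont hR)
  have hR0 : 0 ≤ R 0 := hR.nonneg 0
  calc ∫ α in (0 : ℝ)..1, R α * Real.exp (2 * (b * α) - (b * α) ^ 2 / 2) ≤
      ∫ α in (0 : ℝ)..1, R 0 * Real.exp 4 * Real.exp (-(b ^ 2 / 4) * α ^ 2) := by
        refine intervalIntegral.integral_mono_on zero_le_one
          ((by fun_prop : Continuous fun α : ℝ =>
            R α * Real.exp (2 * (b * α) - (b * α) ^ 2 / 2)).intervalIntegrable _ _)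
          ((by fun_prop : Continuous fun α : ℝ =>
            R 0 * Real.exp 4 * Real.exp (-(b ^ 2 / 4) * α ^ 2)).intervalIntegrable _ _)
          fun α hα => ?_
        have h1 := g_le hR α hα.1
        have h2 := exp_aux b α
        calc R α * Real.exp (2 * (b * α) - (b * α) ^ 2 / 2) ≤
            R 0 * (Real.exp 4 * Real.exp (-(b ^ 2 / 4) * α ^ 2)) := by gcongr
          _ = _ := by ring
    _ = R 0 * Real.exp 4 * ∫ α in (0 : ℝ)..1, Real.exp (-(b ^ 2 / 4) * α ^ 2) :=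
        intervalIntegral.integral_const_mul _ _
    _ ≤ R 0 * Real.exp 4 * (Real.sqrt (Real.pi / (b ^ 2 / 4)) / 2) := by
        gcongr
        exact gauss01 (b ^ 2 / 4) (by positivity)
    _ = _ := by
        have : b ^ 2 / 4 = (b / 2) ^ 2 := by ring
        rw [this, Real.sqrt_div Real.pi_pos.le, Real.sqrt_sq (by positivity)]
        field_simp

lemma a3_aux {R : ℝ → ℝ} (hR : TR R) : ∃ C : ℝ, 0 < C ∧ ∀ b : ℝ, 1 ≤ b →
    ∫ α in (0 : ℝ)..1, R α * VV (b * α) ≤
      Real.sqrt Real.pi * b * (∫ α in (0 : ℝ)..1, α * R α) + C := by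
  obtain ⟨C4, hC4, hlam⟩ := lam_gen hR
  refine ⟨C4, hC4, fun b hb => ?_⟩
  have hb0 : 0 < b := by linarith
  have h1 := hlam b hb
  have h2 : ∫ α in (0 : ℝ)..1, R α * VV (b * α) =
      b⁻¹ * ∫ u in (0 : ℝ)..b, R (u / b) * VV u := by
    have h3 := intervalIntegral.integral_comp_mul_left (a := (0 : ℝ)) (b := 1)
      (fun u => R (u / b) * VV u) (c := b) hb0.ne'
    rw [mul_zero, mul_one, smul_eq_mul] at h3
    rw [← h3]
    refine intervalIntegral.integral_congr fun α _ => ?_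
    show R α * VV (b * α) = R (b * α / b) * VV (b * α)
    rw [mul_div_cancel_left₀ _ hb0.ne']
  rw [h2]
  set I1 := ∫ α in (0 : ℝ)..1, α * R α
  calc b⁻¹ * ∫ u in (0 : ℝ)..b, R (u / b) * VV u ≤
      b⁻¹ * (Real.sqrt Real.pi * b ^ 2 * I1 + C4 * b) := by
        gcongr
        exact h1
    _ = _ := by field_simp

theorem up_aux {R : ℝ → ℝ} (hR : TR R) (ε η : ℝ) (hε : 0 < ε) (hε1 : ε < 1 / 2)
    (hη : 0 < η) : ∃ T0 : ℝ, 10 ≤ T0 ∧ ∀ T : ℝ, T0 ≤ T →
    ∃ U1 U2 : ℝ, T ≤ U1 ∧ U1 ≤ T + 1 ∧ 2 * T - 1 ≤ U2 ∧ U2 ≤ 2 * T ∧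
      ∀ Λ : ℝ, 1 / 2 * Real.log T ≤ Λ → Λ ≤ (1 - ε) * Real.log T →
      2 / Real.sqrt Real.pi * ∫ α in (0 : ℝ)..1, R α * JJ riemannZeta U1 U2 (Λ * α) ≤
        (T * Real.log T / (2 * Real.pi)) *
        (R 0 * (Real.log T / Λ) + 2 * (Λ / Real.log T) * (∫ α in (0 : ℝ)..1, α * R α) + η) := by
  set I1 := ∫ α in (0 : ℝ)..1, α * R α with hI1
  have hI10 : 0 ≤ I1 := intervalIntegral.integral_nonneg zero_le_one fun α hα =>
    mul_nonneg hα.1 (hR.nonneg α)
  have hR0 : 0 ≤ R 0 := hR.nonneg 0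
  have hε2 : 0 < 1 - ε := by linarith
  set Q0 := 2 * R 0 + 2 * I1 with hQ0
  have hQ00 : 0 ≤ Q0 := by positivity
  -- choose η'
  set θ : ℝ := min 1 (η / (14 * (Q0 + 1))) with hθ
  have hθ0 : 0 < θ := lt_min one_pos (by positivity)
  have hθ1 : θ ≤ 1 := min_le_left _ _
  have hθ2 : 7 * θ * Q0 ≤ η / 2 := by
    have h1 : θ ≤ η / (14 * (Q0 + 1)) := min_le_right _ _
    rw [le_div_iff₀ (by positivity)] at h1
    nlinarith
  obtain ⟨K1, K2, T0, hK1, hK2, hT0, hJ⟩ := JJ_bound good_zeta ε θ hε hε1 hθ0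
  obtain ⟨C4, hC4, ha3'⟩ := a3_aux hR
  -- the constant K5
  set spi := Real.sqrt Real.pi with hspi
  have hspi0 : 0 < spi := Real.sqrt_pos.mpr Real.pi_pos
  set K5 : ℝ := 2 / spi * ((1 + θ) / (2 * Real.pi) * (K1 * (R 0 * (Real.exp 4 * spi)) * 2 +
    (1 + θ) ^ 2 * C4) + K2 * R 0) with hK5
  have hK50 : 0 ≤ K5 := by positivity
  have evL : ∀ᶠ T : ℝ in atTop, 4 * Real.pi * K5 / η ≤ Real.log T ∧
      2 ≤ Real.log T :=
    (Real.tendsto_log_atTop.eventually_ge_atTop _).and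
        (Real.tendsto_log_atTop.eventually_ge_atTop _)
  obtain ⟨T6, hT6⟩ := evL.exists_forall_of_atTop
  refine ⟨max T0 T6, hT0.trans (le_max_left _ _), fun T hT => ?_⟩
  have hTT0 : T0 ≤ T := (le_max_left _ _).trans hT
  obtain ⟨hL5, hL2⟩ := hT6 T ((le_max_right _ _).trans hT)
  obtain ⟨U1, U2, hU1, hU1', hU2', hU2, hJb⟩ := hJ T hTT0
  have hT10 : 10 ≤ T := hT0.trans hTT0
  have hTpos : 0 < T := by linarith
  have hU : 1 ≤ U1 := by linarith
  set L := Real.log T with hL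
  have hLpos : 0 < L := by linarith
  refine ⟨U1, U2, hU1, hU1', hU2', hU2, ?_⟩
  · intro Λ hΛa hΛb
    have hΛ1 : 1 ≤ Λ := by linarith
    have hΛ0 : 0 < Λ := by linarith
    -- bound the integral
    have hRc := (g_cont hR)
    have hVc : ContinuousOn (fun α : ℝ => VV (Λ * α)) (Set.uIcc 0 1) := by
      refine (VV_cont Λ).comp (by fun_prop) ?_
      intro α hα
      rw [Set.uIcc_of_le zero_le_one] at hα
      simp only [Set.mem_Iic]
      nlinarith [hα.2]
    have hint1 : IntervalIntegrable (fun α : ℝ => R α * Real.exp (-(Λ * α) ^ 2)) volume 0 1 :=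
      (by fun_prop : Continuous fun α : ℝ => R α * Real.exp (-(Λ * α) ^ 2)).intervalIntegrable _ _
    have hint2 : IntervalIntegrable (fun α : ℝ => R α * Real.exp (2 * (Λ * α) - (Λ * α) ^ 2 / 2))
        volume 0 1 :=
      (by fun_prop : Continuous fun α : ℝ =>
        R α * Real.exp (2 * (Λ * α) - (Λ * α) ^ 2 / 2)).intervalIntegrable _ _
    have hint3 : IntervalIntegrable (fun α : ℝ => R α * VV (Λ * α)) volume 0 1 :=
      (hRc.continuousOn.mul hVc).intervalIntegrable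
    have hint4 : IntervalIntegrable R volume 0 1 := hRc.intervalIntegrable _ _
    have hb : ∫ α in (0 : ℝ)..1, R α * JJ riemannZeta U1 U2 (Λ * α) ≤
        ∫ α in (0 : ℝ)..1, ((1 + θ) / (2 * Real.pi) * (T * L ^ 2) * (R α * Real.exp (-(Λ * α) ^ 2)) +
          (1 + θ) / (2 * Real.pi) * (K1 * (T * L)) *
            (R α * Real.exp (2 * (Λ * α) - (Λ * α) ^ 2 / 2)) +
          (1 + θ) / (2 * Real.pi) * ((1 + θ) ^ 2 * T) * (R α * VV (Λ * α)) + K2 * T * R α) := by
      refine intervalIntegral.integral_mono_on zero_le_one ?_ ?_ fun α hα => ?_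
      · exact (hRc.mul ((JJ_cont good_zeta hU).comp (by fun_prop))).intervalIntegrable _ _
      · exact (((hint1.const_mul _).add (hint2.const_mul _)).add (hint3.const_mul _)).add
          (hint4.const_mul _)
      · have h1 := hJb (Λ * α) (by have := hα.1; positivity) (by
          calc Λ * α ≤ Λ * 1 := by gcongr; exact hα.2
            _ ≤ (1 - ε) * L := by linarith)
        have h2 := mul_le_mul_of_nonneg_left h1 (hR.nonneg α)
        refine h2.trans (le_of_eq ?_)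
        ring
    have hsplit : ∫ α in (0 : ℝ)..1, ((1 + θ) / (2 * Real.pi) * (T * L ^ 2) *
          (R α * Real.exp (-(Λ * α) ^ 2)) +
          (1 + θ) / (2 * Real.pi) * (K1 * (T * L)) *
            (R α * Real.exp (2 * (Λ * α) - (Λ * α) ^ 2 / 2)) +
          (1 + θ) / (2 * Real.pi) * ((1 + θ) ^ 2 * T) * (R α * VV (Λ * α)) + K2 * T * R α) =
        (1 + θ) / (2 * Real.pi) * (T * L ^ 2) * (∫ α in (0 : ℝ)..1, R α * Real.exp (-(Λ * α) ^ 2)) +
          (1 + θ) / (2 * Real.pi) * (K1 * (T * L)) *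
            (∫ α in (0 : ℝ)..1, R α * Real.exp (2 * (Λ * α) - (Λ * α) ^ 2 / 2)) +
          (1 + θ) / (2 * Real.pi) * ((1 + θ) ^ 2 * T) * (∫ α in (0 : ℝ)..1, R α * VV (Λ * α)) +
          K2 * T * ∫ α in (0 : ℝ)..1, R α := by
      rw [intervalIntegral.integral_add (((hint1.const_mul _).add (hint2.const_mul _)).add
          (hint3.const_mul _)) (hint4.const_mul _),
        intervalIntegral.integral_add ((hint1.const_mul _).add (hint2.const_mul _))
          (hint3.const_mul _),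
        intervalIntegral.integral_add (hint1.const_mul _) (hint2.const_mul _),
        intervalIntegral.integral_const_mul, intervalIntegral.integral_const_mul,
        intervalIntegral.integral_const_mul, intervalIntegral.integral_const_mul]
    -- individual bounds
    have ha1 := a1_aux hR Λ hΛ0
    have ha2 := a2_aux hR Λ hΛ0
    have ha3 := ha3' Λ hΛ1
    have ha4 : ∫ α in (0 : ℝ)..1, R α ≤ R 0 := by
      calc ∫ α in (0 : ℝ)..1, R α ≤ ∫ α in (0 : ℝ)..1, R 0 := by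
            refine intervalIntegral.integral_mono_on zero_le_one hint4
              (continuous_const.intervalIntegrable _ _) fun α hα => g_le hR α hα.1
        _ = R 0 := by simp
    have hθp : 0 ≤ (1 + θ) / (2 * Real.pi) := by positivity
    have hLΛ : L / Λ ≤ 2 := by
      rw [div_le_iff₀ hΛ0]; linarith
    have hLΛ0 : 0 ≤ L / Λ := by positivity
    have hΛL : Λ / L ≤ 1 := by
      rw [div_le_iff₀ hLpos]; nlinarith
    have hΛL0 : 0 ≤ Λ / L := by positivity
    have htot : 2 / spi * ∫ α in (0 : ℝ)..1, R α * JJ riemannZeta U1 U2 (Λ * α) ≤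
        2 / spi * ((1 + θ) / (2 * Real.pi) * (T * L ^ 2) * (R 0 * (spi / (2 * Λ))) +
          (1 + θ) / (2 * Real.pi) * (K1 * (T * L)) * (R 0 * (Real.exp 4 * spi) / Λ) +
          (1 + θ) / (2 * Real.pi) * ((1 + θ) ^ 2 * T) * (spi * Λ * I1 + C4) +
          K2 * T * R 0) := by
      refine mul_le_mul_of_nonneg_left ?_ (by positivity)
      refine hb.trans ?_
      rw [hsplit]
      gcongr
    refine htot.trans ?_
    -- algebra
    set q : ℝ := R 0 * (L / Λ) + 2 * (Λ / L) * I1 with hq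
    have hq0 : 0 ≤ q := by positivity
    have hqQ : q ≤ Q0 := by
      rw [hq, hQ0]
      have e1 : R 0 * (L / Λ) ≤ R 0 * 2 := by gcongr
      have e2 : 2 * (Λ / L) * I1 ≤ 2 * 1 * I1 := by gcongr
      linarith
    have halg : 2 / spi * ((1 + θ) / (2 * Real.pi) * (T * L ^ 2) * (R 0 * (spi / (2 * Λ))) +
          (1 + θ) / (2 * Real.pi) * (K1 * (T * L)) * (R 0 * (Real.exp 4 * spi) / Λ) +
          (1 + θ) / (2 * Real.pi) * ((1 + θ) ^ 2 * T) * (spi * Λ * I1 + C4) +
          K2 * T * R 0) =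
        (T * L / (2 * Real.pi)) * ((1 + θ) * (R 0 * (L / Λ)) +
          (1 + θ) ^ 3 * (2 * (Λ / L) * I1)) +
        T * (2 / spi * ((1 + θ) / (2 * Real.pi) * (K1 * (R 0 * (Real.exp 4 * spi)) * (L / Λ) +
    (1 + θ) ^ 2 * C4) + K2 * R 0)) := by
      field_simp
      ring
    rw [halg]
    have hcube : (1 + θ) ^ 3 ≤ 1 + 7 * θ := cube_aux θ hθ0.le hθ1
    have h1 : (1 + θ) * (R 0 * (L / Λ)) + (1 + θ) ^ 3 * (2 * (Λ / L) * I1) ≤
        (1 + 7 * θ) * q := by
      rw [hq, mul_add]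
      have e1 : 0 ≤ R 0 * (L / Λ) := by positivity
      have e2 : 0 ≤ 2 * (Λ / L) * I1 := by positivity
      gcongr
      linarith
    have hK5' : T * (2 / spi * ((1 + θ) / (2 * Real.pi) * (K1 * (R 0 * (Real.exp 4 * spi)) * (L / Λ) +
        (1 + θ) ^ 2 * C4) + K2 * R 0)) ≤ T * K5 := by
      rw [hK5]
      gcongr
    have h2 : T * K5 ≤ (T * L / (2 * Real.pi)) * (η / 2) := by
      rw [div_le_iff₀ hη] at hL5
      have e3 : (T * L / (2 * Real.pi)) * (η / 2) = T * (L * η) / (4 * Real.pi) := by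
        field_simp; ring
      rw [e3, le_div_iff₀ (by positivity)]
      nlinarith
    have h3 : 0 ≤ T * L / (2 * Real.pi) := by positivity
    have h4 : 7 * θ * q ≤ η / 2 := by
      refine le_trans ?_ hθ2
      gcongr
    calc (T * L / (2 * Real.pi)) * ((1 + θ) * (R 0 * (L / Λ)) +
          (1 + θ) ^ 3 * (2 * (Λ / L) * I1)) +
        T * (2 / spi * ((1 + θ) / (2 * Real.pi) * (K1 * (R 0 * (Real.exp 4 * spi)) * (L / Λ) +
    (1 + θ) ^ 2 * C4) + K2 * R 0)) ≤
        (T * L / (2 * Real.pi)) * ((1 + 7 * θ) * q) + (T * L / (2 * Real.pi)) * (η / 2) := by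
          refine add_le_add ?_ (hK5'.trans h2)
          gcongr
      _ = (T * L / (2 * Real.pi)) * (q + 7 * θ * q + η / 2) := by ring
      _ ≤ (T * L / (2 * Real.pi)) * (q + η) := by
          refine mul_le_mul_of_nonneg_left ?_ h3
          linarith only [h4]


end Up2

theorem up2 : S_UP2 := by
  intro R hR ε η hε hε1 hη
  obtain ⟨T0, hT0, h⟩ := Up2.up_aux hR ε η hε hε1 hη
  refine ⟨T0, hT0, fun T hT => ?_⟩
  obtain ⟨U1, U2, h1, h2, h3, h4, h5⟩ := h T hT
  exact ⟨U1, U2, ⟨h1, h2, h3, h4⟩, h5⟩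

end H332B
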