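import Pool.Agent.H332B.Defs2
import Pool.Agent.H332B.Up2
import Pool.Agent.H332B.MB

open Complex Filter Topology Set MeasureTheory
open scoped BigOperators

namespace H332B

theorem mb2 : S_MB2 := by
  intro hRH
  obtain ⟨ε, hε⟩ : ∃ ε : ℝ, ε = 1 / 10000000 := ⟨_, rfl⟩
  obtain ⟨T0, hT0, hup⟩ := up2 RR trr ε ε (by norm_num [hε]) (by norm_num [hε]) (by norm_num [hε])
  obtain ⟨V0, hV0, hlow⟩ := low ε (by norm_num [hε])
  refine ⟨max T0 V0, hT0.trans (le_max_left _ _), ?_⟩
  intro V hV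
  have hVT : T0 ≤ V := (le_max_left _ _).trans hV
  have hVV : V0 ≤ V := (le_max_right _ _).trans hV
  obtain ⟨U1, U2, hR, hup'⟩ := hup V hVT
  refine ⟨U1, U2, hR, ?_⟩
  intro Λ hΛa hΛb
  have hV10 : 10 ≤ V := hV0.trans hVV
  have hV1 : 1 ≤ V := by linarith
  have hU1 : 1 ≤ U1 := hV1.trans hR.1
  set L := Real.log V with hL
  have hL0 : 0 < L := Real.log_pos (by linarith)
  have hX : 0 < X V := by
    unfold X
    have := Real.pi_pos
    positivity
  have hΛ0 : 0 < Λ := by nlinarith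
  have hΛb' : Λ ≤ (1 - ε) * L := by rw [hε]; linarith
  have hΛa' : 1 / 2 * L ≤ Λ := by nlinarith
  have hupΛ := hup' Λ hΛa' hΛb'
  obtain ⟨hint, hpf⟩ := pf hRH V U1 U2 Λ hV1 hR
  unfold KB kg
  rw [hpf]
  set sp := Real.sqrt Real.pi with hsp
  have hsp0 : 0 < sp := Real.sqrt_pos.2 Real.pi_pos
  obtain ⟨c, hc⟩ : ∃ c : ℝ, c = L / Λ := ⟨_, rfl⟩
  have hΛL : Λ ≤ L := by nlinarith
  have hc1 : 1 ≤ c := by rw [hc, le_div_iff₀ hΛ0]; linarith
  have hc2 : c ≤ 1 + 3 / 10000000 := by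
    rw [hc, div_le_iff₀ hΛ0]
    nlinarith
  have hc32 : c ≤ 3 / 2 := by linarith
  obtain ⟨hmax1, hmax2⟩ := max_
  set f : ℝ → ℝ := fun α => rh α * Jb U1 U2 (Λ * α) with hf
  have hneg : ∀ α : ℝ, 1 ≤ α → f α ≤ 0 := fun α hα =>
    mul_nonpos_of_nonpos_of_nonneg (hmax1 α hα) (MB.Jb_nonneg _ _ _)
  have hsplit := MB.split hint c hc1 hc32 hneg
  have hJc : Continuous (fun α : ℝ => Jb U1 U2 (Λ * α)) :=
    (MB.Jb_cont hU1 U2).comp (by fun_prop)
  have hfc : Continuous f := MB.rh_cont.mul hJc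
  -- the first piece
  have h1 : ∫ α in (0 : ℝ)..1, f α ≤ ∫ α in (0 : ℝ)..1, RR α * Jb U1 U2 (Λ * α) := by
    apply intervalIntegral.integral_mono_on zero_le_one (hfc.intervalIntegrable _ _)
      ((MB.RR_cont.mul hJc).intervalIntegrable _ _)
    intro α _
    apply mul_le_mul_of_nonneg_right (le_max_left _ _) (MB.Jb_nonneg _ _ _)
  -- the second piece
  have hε0 : 0 < 1 - ε := by rw [hε]; norm_num
  have h2 : ∫ α in c..(3 / 2), f α ≤
      ∫ α in c..(3 / 2), sp * X V * (rh α * (3 / 2 - α - ε)) := by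
    apply intervalIntegral.integral_mono_on hc32 (hfc.intervalIntegrable _ _)
    · have := MB.rh_cont
      exact (by fun_prop : Continuous fun α => sp * X V * (rh α * (3 / 2 - α - ε))).intervalIntegrable _ _
    · intro α hα
      have hα1 : 1 ≤ α := hc1.trans hα.1
      have ha : L ≤ Λ * α := by
        have h := hα.1
        rw [hc, div_le_iff₀ hΛ0] at h
        linarith
      have hb : Λ * α ≤ 3 / 2 * L := by
        have h := hα.2
        calc Λ * α ≤ L * (3 / 2) := by gcongr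
          _ = 3 / 2 * L := by ring
      have hl := hlow V U1 U2 (Λ * α) hVV hR ha hb
      have e1 : Λ * α / Real.log V ≤ α := by
        rw [← hL, div_le_iff₀ hL0]
        nlinarith
      have h3 : sp * ((3 / 2 - α - ε) * X V) ≤ Jb U1 U2 (Λ * α) := by
        refine le_trans ?_ hl
        gcongr
      have h4 := mul_le_mul_of_nonpos_left h3 (hmax1 α hα1)
      calc f α = rh α * Jb U1 U2 (Λ * α) := rfl
        _ ≤ rh α * (sp * ((3 / 2 - α - ε) * X V)) := h4
        _ = _ := by ring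
  have h3 : ∫ α in c..(3 / 2), rh α * (3 / 2 - α - ε) ≤
      (∫ α in (1 : ℝ)..(3 / 2), (3 / 2 - α) * rh α) + 10 * (c - 1) + 10 * ε := by
    have hr := MB.rh_cont
    have hi : ∀ a b : ℝ, IntervalIntegrable (fun α => rh α * (3 / 2 - α - ε)) volume a b :=
      fun a b => (by fun_prop : Continuous fun α => rh α * (3 / 2 - α - ε)).intervalIntegrable _ _
    have hi2 : ∀ a b : ℝ, IntervalIntegrable (fun α => (3 / 2 - α) * rh α) volume a b :=
      fun a b => (by fun_prop : Continuous fun α => (3 / 2 - α) * rh α).intervalIntegrable _ _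
    have hA : ∫ α in c..(3 / 2), rh α * (3 / 2 - α - ε) ≤
        ∫ α in c..(3 / 2), ((3 / 2 - α) * rh α + 10 * ε) := by
      apply intervalIntegral.integral_mono_on hc32 (hi _ _)
        ((hi2 _ _).add (intervalIntegrable_const))
      intro α hα
      have hα1 : 1 ≤ α := hc1.trans hα.1
      have := hmax2 α hα1 hα.2
      have : 0 < ε := by rw [hε]; norm_num
      nlinarith
    have hB : ∫ α in c..(3 / 2), ((3 / 2 - α) * rh α + 10 * ε) =
        (∫ α in c..(3 / 2), (3 / 2 - α) * rh α) + (3 / 2 - c) * (10 * ε) := by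
      rw [intervalIntegral.integral_add (hi2 _ _) intervalIntegrable_const,
        intervalIntegral.integral_const, smul_eq_mul]
    have hC : (∫ α in (1 : ℝ)..c, (3 / 2 - α) * rh α) + (∫ α in c..(3 / 2), (3 / 2 - α) * rh α) =
        ∫ α in (1 : ℝ)..(3 / 2), (3 / 2 - α) * rh α :=
      intervalIntegral.integral_add_adjacent_intervals (hi2 _ _) (hi2 _ _)
    have hD : ∫ α in (1 : ℝ)..c, (-10 : ℝ) ≤ ∫ α in (1 : ℝ)..c, (3 / 2 - α) * rh α := by
      apply intervalIntegral.integral_mono_on hc1 intervalIntegrable_const (hi2 _ _)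
      intro α hα
      have h5 := hmax2 α hα.1 (hα.2.trans hc32)
      have h6 := hmax1 α hα.1
      have h7 : 0 ≤ 3 / 2 - α := by linarith [hα.2]
      have h8 : 3 / 2 - α ≤ 1 := by linarith [hα.1]
      nlinarith
    rw [intervalIntegral.integral_const, smul_eq_mul] at hD
    have h9 : (3 / 2 - c) * (10 * ε) ≤ 10 * ε := by
      have : 0 < ε := by rw [hε]; norm_num
      nlinarith
    linarith
  have h4 : ∫ α in c..(3 / 2), f α ≤ sp * X V * (-(326 / 100000) + 10 * (c - 1) + 10 * ε) := by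
    refine h2.trans ?_
    rw [intervalIntegral.integral_const_mul]
    apply mul_le_mul_of_nonneg_left _ (by positivity)
    have := j2
    unfold S_J2 at this
    linarith
  have h5 : 2 / sp * ∫ α in Set.Ioi (0 : ℝ), f α ≤
      2 / sp * (∫ α in (0 : ℝ)..1, RR α * Jb U1 U2 (Λ * α)) +
      2 / sp * (sp * X V * (-(326 / 100000) + 10 * (c - 1) + 10 * ε)) := by
    rw [← mul_add]
    apply mul_le_mul_of_nonneg_left _ (by positivity)
    linarith
  refine h5.trans ?_
  have h6 : 2 / sp * (sp * X V * (-(326 / 100000) + 10 * (c - 1) + 10 * ε)) =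
      X V * (2 * (-(326 / 100000) + 10 * (c - 1) + 10 * ε)) := by
    field_simp
  rw [h6]
  have hj1 := j1
  unfold S_J1 at hj1
  have hRR0 := MB.RR0
  have h7 : RR 0 * (L / Λ) + 2 * (Λ / L) * (∫ α in (0 : ℝ)..1, α * RR α) + ε +
      2 * (-(326 / 100000) + 10 * (c - 1) + 10 * ε) ≤ 13166 / 10000 := by
    have h8 : RR 0 * (L / Λ) ≤ (10033394 / 10000000) * (L / Λ) := by
      have : 0 ≤ L / Λ := by positivity
      gcongr
    have h9 : 2 * (Λ / L) * (∫ α in (0 : ℝ)..1, α * RR α) ≤ 319764 / 1000000 := by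
      have h10 : 0 ≤ ∫ α in (0 : ℝ)..1, α * RR α := by
        apply intervalIntegral.integral_nonneg zero_le_one
        intro α hα
        exact mul_nonneg hα.1 (trr.nonneg α)
      have : Λ / L ≤ 1 := by rw [div_le_one hL0]; exact hΛL
      nlinarith
    rw [← hc] at h8
    have h11 : ε = 1 / 10000000 := hε
    rw [← hc]
    linarith
  calc _ ≤ X V * (RR 0 * (L / Λ) + 2 * (Λ / L) * (∫ α in (0 : ℝ)..1, α * RR α) + ε) +
      X V * (2 * (-(326 / 100000) + 10 * (c - 1) + 10 * ε)) := by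
        gcongr
    _ = X V * (RR 0 * (L / Λ) + 2 * (Λ / L) * (∫ α in (0 : ℝ)..1, α * RR α) + ε +
      2 * (-(326 / 100000) + 10 * (c - 1) + 10 * ε)) := by ring
    _ ≤ X V * (13166 / 10000) := by gcongr
    _ = _ := by ring

end H332B
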