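import Pool.Agent.H332B.Defs2
import Pool.Agent.H332B.WC

/-!
# Crude counts of zeros up to height `T` (task NT of project H332B)
-/

open Complex Filter Topology Set MeasureTheory
open scoped BigOperators

namespace H332B

namespace NTb

theorem core (Z : ℝ → Finset ℂ) (m : ℂ → ℝ) (hm : ∀ s, 0 ≤ m s) (P : ℂ → Prop)
    (hZ : ∀ T s, s ∈ Z T ↔ P s ∧ 0 < s.im ∧ s.im ≤ T) (C T0 : ℝ) (hC : 0 < C) (hT0 : 10 ≤ T0)
    (wc : ∀ T a b : ℝ, T0 ≤ T → 10 ≤ a → b ≤ a + 4 → b ≤ T →
      ∑ s ∈ (Z T).filter (fun s => a < s.im ∧ s.im ≤ b), m s ≤ C * Real.log T) :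
    ∃ C' : ℝ, 0 < C' ∧ ∀ T : ℝ, T0 ≤ T →
      (∑ s ∈ (Z T).filter (fun s => 0 < s.im ∧ s.im ≤ T), m s ≤ C' * (T * Real.log T)) ∧
      (∑ s ∈ Z T, ∑ s' ∈ Z T, if |s.im - s'.im| ≤ 1 then m s * m s' else 0) ≤
        C' * (T * (Real.log T) ^ 2) := by
  set c : ℝ := ∑ s ∈ Z 14, m s with hc
  have hc0 : 0 ≤ c := Finset.sum_nonneg fun s _ => hm s
  -- induction on the windows
  have ind : ∀ T : ℝ, T0 ≤ T → ∀ n : ℕ,
      ∑ s ∈ (Z T).filter (fun s => s.im ≤ 10 + 4 * (n : ℝ)), m s ≤ c + n * (C * Real.log T) := by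
    intro T hT n
    induction n with
    | zero =>
      have hsub : (Z T).filter (fun s => s.im ≤ 10 + 4 * ((0 : ℕ) : ℝ)) ⊆ Z 14 := by
        intro s hs
        rw [Finset.mem_filter] at hs
        obtain ⟨h1, h2⟩ := hs
        rw [hZ] at h1 ⊢
        push_cast at h2
        exact ⟨h1.1, h1.2.1, by linarith⟩
      have := Finset.sum_le_sum_of_subset_of_nonneg hsub (fun s _ _ => hm s)
      push_cast at this ⊢
      linarith
    | succ n ih =>
      have hw := wc T (10 + 4 * (n : ℝ)) (min (14 + 4 * (n : ℝ)) T) hT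
        (by have := Nat.cast_nonneg (α := ℝ) n; linarith)
        ((min_le_left _ _).trans (by linarith)) (min_le_right _ _)
      have hsub : (Z T).filter (fun s => s.im ≤ 10 + 4 * ((n + 1 : ℕ) : ℝ)) ⊆
          (Z T).filter (fun s => s.im ≤ 10 + 4 * (n : ℝ)) ∪
          (Z T).filter (fun s => 10 + 4 * (n : ℝ) < s.im ∧ s.im ≤ min (14 + 4 * (n : ℝ)) T) := by
        intro s hs
        rw [Finset.mem_filter] at hs
        obtain ⟨h1, h2⟩ := hs
        push_cast at h2
        rw [Finset.mem_union, Finset.mem_filter, Finset.mem_filter]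
        rcases le_or_gt s.im (10 + 4 * (n : ℝ)) with h3 | h3
        · exact Or.inl ⟨h1, h3⟩
        · have h4 := (hZ T s).1 h1
          exact Or.inr ⟨h1, h3, le_min (by linarith) h4.2.2⟩
      have h5 := Finset.sum_le_sum_of_subset_of_nonneg hsub (fun s _ _ => hm s)
      have h6 := Finset.sum_union_inter
        (s₁ := (Z T).filter (fun s => s.im ≤ 10 + 4 * (n : ℝ)))
        (s₂ := (Z T).filter (fun s => 10 + 4 * (n : ℝ) < s.im ∧ s.im ≤ min (14 + 4 * (n : ℝ)) T))
        (f := m)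
      have h7 : 0 ≤ ∑ s ∈ (Z T).filter (fun s => s.im ≤ 10 + 4 * (n : ℝ)) ∩
          (Z T).filter (fun s => 10 + 4 * (n : ℝ) < s.im ∧ s.im ≤ min (14 + 4 * (n : ℝ)) T), m s :=
        Finset.sum_nonneg fun s _ => hm s
      push_cast at h5 ⊢
      linarith
  refine ⟨(c + 2 * C) * (1 + C + c), by positivity, fun T hT => ?_⟩
  have hT10 : 10 ≤ T := hT0.trans hT
  have hL : 1 ≤ Real.log T := by
    rw [Real.le_log_iff_exp_le (by linarith)]
    have := Real.exp_one_lt_d9
    linarith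
  have hTL : 1 ≤ T * Real.log T := by nlinarith
  have hW : ∑ s ∈ Z T, m s ≤ (c + 2 * C) * (T * Real.log T) := by
    have h1 := ind T hT ⌈T⌉₊
    have h2 : (Z T).filter (fun s => s.im ≤ 10 + 4 * ((⌈T⌉₊ : ℕ) : ℝ)) = Z T := by
      apply Finset.filter_true_of_mem
      intro s hs
      have h3 := ((hZ T s).1 hs).2.2
      have h4 := Nat.le_ceil T
      linarith
    rw [h2] at h1
    have h3 : (⌈T⌉₊ : ℝ) ≤ 2 * T := by
      have := Nat.ceil_lt_add_one (by linarith : 0 ≤ T)
      linarith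
    have h4 : (⌈T⌉₊ : ℝ) * (C * Real.log T) ≤ 2 * T * (C * Real.log T) :=
      mul_le_mul_of_nonneg_right h3 (by positivity)
    have h5 : c ≤ c * (T * Real.log T) := le_mul_of_one_le_right hc0 hTL
    calc ∑ s ∈ Z T, m s ≤ c + ⌈T⌉₊ * (C * Real.log T) := h1
      _ ≤ c * (T * Real.log T) + 2 * T * (C * Real.log T) := by linarith
      _ = _ := by ring
  have hC1 : (c + 2 * C) * (T * Real.log T) ≤ (c + 2 * C) * (1 + C + c) * (T * Real.log T) := by
    apply mul_le_mul_of_nonneg_right _ (by linarith)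
    exact le_mul_of_one_le_right (by positivity) (by linarith)
  refine ⟨?_, ?_⟩
  · refine le_trans ?_ (hW.trans hC1)
    exact Finset.sum_le_sum_of_subset_of_nonneg (Finset.filter_subset _ _) (fun s _ _ => hm s)
  · have inner : ∀ s ∈ Z T, (∑ s' ∈ Z T, if |s.im - s'.im| ≤ 1 then m s * m s' else 0) ≤
        m s * ((C + c) * Real.log T) := by
      intro s hs
      have e1 : (∑ s' ∈ Z T, if |s.im - s'.im| ≤ 1 then m s * m s' else 0) =
          m s * ∑ s' ∈ (Z T).filter (fun s' => |s.im - s'.im| ≤ 1), m s' := by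
        rw [Finset.mul_sum, Finset.sum_filter]
      rw [e1]
      apply mul_le_mul_of_nonneg_left _ (hm s)
      rcases le_or_gt 12 s.im with h12 | h12
      · have hw := wc T (s.im - 2) (min (s.im + 1) T) hT (by linarith)
          ((min_le_left _ _).trans (by linarith)) (min_le_right _ _)
        have hsub : (Z T).filter (fun s' => |s.im - s'.im| ≤ 1) ⊆
            (Z T).filter (fun s' => s.im - 2 < s'.im ∧ s'.im ≤ min (s.im + 1) T) := by
          intro s' hs'
          rw [Finset.mem_filter] at hs' ⊢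
          obtain ⟨h1, h2⟩ := hs'
          rw [abs_le] at h2
          exact ⟨h1, by linarith, le_min (by linarith) ((hZ T s').1 h1).2.2⟩
        have h3 := Finset.sum_le_sum_of_subset_of_nonneg hsub (fun s _ _ => hm s)
        have h4 : 0 ≤ c * Real.log T := by positivity
        linarith
      · have hsub : (Z T).filter (fun s' => |s.im - s'.im| ≤ 1) ⊆ Z 14 := by
          intro s' hs'
          rw [Finset.mem_filter] at hs'
          obtain ⟨h1, h2⟩ := hs'
          rw [abs_le] at h2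
          have h3 := (hZ T s').1 h1
          rw [hZ]
          exact ⟨h3.1, h3.2.1, by linarith⟩
        have h3 := Finset.sum_le_sum_of_subset_of_nonneg hsub (fun s _ _ => hm s)
        have h4 : 0 ≤ C * Real.log T := by positivity
        have h5 : c ≤ c * Real.log T := le_mul_of_one_le_right hc0 hL
        linarith
    have h1 := Finset.sum_le_sum inner
    rw [← Finset.sum_mul] at h1
    refine h1.trans ?_
    have h2 : (∑ s ∈ Z T, m s) * ((C + c) * Real.log T) ≤
        (c + 2 * C) * (T * Real.log T) * ((C + c) * Real.log T) :=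
      mul_le_mul_of_nonneg_right hW (by positivity)
    refine h2.trans ?_
    have h3 : 0 ≤ (c + 2 * C) * (T * (Real.log T) ^ 2) := by positivity
    nlinarith

theorem mem_Z0 (T : ℝ) (s : ℂ) : s ∈ H343.ZSide.Z0 T ↔
    (0 < s.re ∧ s.re < 1 ∧ riemannZeta s = 0) ∧ 0 < s.im ∧ s.im ≤ T := by
  unfold H343.ZSide.Z0
  rw [Set.Finite.mem_toFinset]
  constructor
  · rintro ⟨h1, h2, h3, h4, h5⟩
    exact ⟨⟨h1, h2, h5⟩, h3, h4⟩
  · rintro ⟨⟨h1, h2, h5⟩, h3, h4⟩
    exact ⟨h1, h2, h3, h4, h5⟩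

end NTb

theorem ntb : S_NT := by
  obtain ⟨C, T0, hC, hT0, hwc⟩ := wc
  obtain ⟨C', hC', h⟩ := NTb.core H343.ZSide.Z0 H343.ZSide.mz (fun s => Nat.cast_nonneg _) _
    NTb.mem_Z0 C T0 hC hT0 (fun T a b h1 h2 h3 h4 => by
      have := hwc T a b h1 h2 h3 h4
      unfold Wc at this
      convert this)
  refine ⟨C', T0, hC', hT0, fun T hT => ?_⟩
  obtain ⟨h1, h2⟩ := h T hT
  refine ⟨?_, ?_⟩
  · unfold Wc
    convert h1
  · unfold N2
    convert h2

end H332B
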