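import Pool.Agent.H332B.Defs2
import Pool.Agent.H332B.RB
import Pool.Agent.H332B.MB2
import Pool.Agent.H332B.WC
import Pool.Agent.H332B.NTb
import Pool.Agent.H332B.KIter
import Pool.Agent.H332B.KStep

open Complex Filter Topology Set MeasureTheory
open scoped BigOperators

namespace H332B

namespace G2x

theorem decay (C κ : ℝ) (hC : 0 < C) (hκ : 0 < κ) : ∃ l0 : ℝ, 1 ≤ l0 ∧ ∀ l : ℝ, l0 ≤ l →
    C * Real.exp (-(κ * l ^ 2)) ≤ Real.exp (-(2 * l)) := by
  refine ⟨max 1 ((C + 2) / κ), le_max_left _ _, fun l hl => ?_⟩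
  have h1 : 1 ≤ l := (le_max_left _ _).trans hl
  have h2 : (C + 2) / κ ≤ l := (le_max_right _ _).trans hl
  rw [div_le_iff₀ hκ] at h2
  have h3 : C ≤ Real.exp C := by
    have := Real.add_one_le_exp C
    linarith
  calc C * Real.exp (-(κ * l ^ 2)) ≤ Real.exp C * Real.exp (-(κ * l ^ 2)) :=
        mul_le_mul_of_nonneg_right h3 (Real.exp_pos _).le
    _ = Real.exp (C - κ * l ^ 2) := by
        rw [← Real.exp_add]
        congr 1
    _ ≤ Real.exp (-(2 * l)) := by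
        apply Real.exp_le_exp.2
        nlinarith

theorem exp_log_two (T : ℝ) (hT : 0 < T) : Real.exp (-(2 * Real.log T)) = 1 / T ^ 2 := by
  rw [Real.exp_neg, two_mul, Real.exp_add, Real.exp_log hT, one_div, sq]

/-- decay of `rr (kap log T x / 2π)` for `|x| ≥ 1/10` -/
theorem far (hrb : S_RB) : ∃ T0 : ℝ, 10 ≤ T0 ∧ ∀ T x : ℝ, T0 ≤ T → 1 / 10 ≤ |x| →
    rr (kap * Real.log T * x / (2 * Real.pi)) ≤ 1 / T ^ 2 := by
  obtain ⟨-, C, hC, h⟩ := hrb
  have hk : (0 : ℝ) < kap := by unfold kap; norm_num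
  have hpi := Real.pi_pos
  obtain ⟨l0, hl0, hd⟩ := decay C ((kap / (2 * Real.pi)) ^ 2 * (1 / 100)) hC (by positivity)
  refine ⟨max 10 (Real.exp l0), le_max_left _ _, fun T x hT hx => ?_⟩
  have hT10 : 10 ≤ T := (le_max_left _ _).trans hT
  have hl : l0 ≤ Real.log T := by
    rw [Real.le_log_iff_exp_le (by linarith)]
    exact (le_max_right _ _).trans hT
  have h1 := (h (kap * Real.log T * x / (2 * Real.pi))).1
  refine h1.trans ?_
  rw [← exp_log_two T (by linarith)]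
  refine le_trans ?_ (hd _ hl)
  apply mul_le_mul_of_nonneg_left _ hC.le
  apply Real.exp_le_exp.2
  have hx2 : 1 / 100 ≤ x ^ 2 := by
    rw [← sq_abs]
    have := pow_le_pow_left₀ (by norm_num) hx 2
    refine le_trans (by norm_num) this
  have e : (kap * Real.log T * x / (2 * Real.pi)) ^ 2 =
      (kap / (2 * Real.pi)) ^ 2 * x ^ 2 * Real.log T ^ 2 := by ring
  rw [e]
  have h5 : 0 ≤ (kap / (2 * Real.pi)) ^ 2 * Real.log T ^ 2 := by positivity
  nlinarith

theorem near (x : ℝ) (hx : |x| ≤ 1 / 10) :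
    4 / (4 + x ^ 2) ≤ 10001 / 10000 * Real.exp (-x ^ 2 / 4) := by
  have hx2 : x ^ 2 ≤ 1 / 100 := by
    rw [← sq_abs]
    have := pow_le_pow_left₀ (abs_nonneg x) hx 2
    refine le_trans this (by norm_num)
  have hx0 := sq_nonneg x
  set y := x ^ 2 / 4 with hy
  have hy0 : 0 ≤ y := by positivity
  have hy1 : y ≤ 1 / 400 := by rw [hy]; linarith
  have e1 : -x ^ 2 / 4 = -y := by rw [hy]; ring
  have e2 : 4 / (4 + x ^ 2) = 1 / (1 + y) := by
    rw [hy]
    field_simp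
  rw [e1, e2, Real.exp_neg]
  have h1 : Real.exp y ≤ 1 + y + y ^ 2 := by
    have h2 := Real.abs_exp_sub_one_sub_id_le (x := y) (by rw [abs_of_nonneg hy0]; linarith)
    have h3 := (abs_le.1 h2).2
    linarith
  have h2 : Real.exp y ≤ 10001 / 10000 * (1 + y) := by nlinarith
  rw [div_le_iff₀ (by positivity)]
  have h4 := Real.exp_pos y
  calc (1 : ℝ) = Real.exp y * (Real.exp y)⁻¹ := by field_simp
    _ ≤ 10001 / 10000 * (1 + y) * (Real.exp y)⁻¹ :=
        mul_le_mul_of_nonneg_right h2 (by positivity)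
    _ = 10001 / 10000 * (Real.exp y)⁻¹ * (1 + y) := by ring

theorem kg_nonneg (hrb : S_RB) (L x : ℝ) : 0 ≤ kg L x :=
  mul_nonneg (hrb.1 _).1 (Real.exp_pos _).le

theorem exp_le_one' (x : ℝ) : Real.exp (-x ^ 2 / 4) ≤ 1 := by
  apply Real.exp_le_one_iff.2
  have := sq_nonneg x
  linarith

theorem kg_le (hrb : S_RB) (L x : ℝ) : kg L x ≤ rr (L * x / (2 * Real.pi)) := by
  unfold kg
  have := mul_le_mul_of_nonneg_left (exp_le_one' x) (hrb.1 (L * x / (2 * Real.pi))).1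
  rwa [mul_one] at this

theorem kw_le (hrb : S_RB) (L x : ℝ) : kw L x ≤ rr (L * x / (2 * Real.pi)) := by
  unfold kw
  have h1 : 4 / (4 + x ^ 2) ≤ 1 := by
    rw [div_le_one (by positivity)]
    have := sq_nonneg x
    linarith
  have := mul_le_mul_of_nonneg_left h1 (hrb.1 (L * x / (2 * Real.pi))).1
  rwa [mul_one] at this

/-- `kw` against `kg` -/
theorem kw_kg (hrb : S_RB) : ∃ T0 : ℝ, 10 ≤ T0 ∧ ∀ T x : ℝ, T0 ≤ T →
    kw (kap * Real.log T) x ≤ 10001 / 10000 * kg (kap * Real.log T) x + 1 / T ^ 2 := by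
  obtain ⟨T0, h10, h⟩ := far hrb
  refine ⟨T0, h10, fun T x hT => ?_⟩
  have hT2 : 0 ≤ 1 / T ^ 2 := by positivity
  have hkg := kg_nonneg hrb (kap * Real.log T) x
  rcases le_total |x| (1 / 10) with hx | hx
  · have h1 := mul_le_mul_of_nonneg_left (near x hx)
      (hrb.1 (kap * Real.log T * x / (2 * Real.pi))).1
    have e : rr (kap * Real.log T * x / (2 * Real.pi)) *
        (10001 / 10000 * Real.exp (-x ^ 2 / 4)) =
        10001 / 10000 * kg (kap * Real.log T) x := by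
      unfold kg
      ring
    rw [e] at h1
    have e2 : kw (kap * Real.log T) x =
      rr (kap * Real.log T * x / (2 * Real.pi)) * (4 / (4 + x ^ 2)) := rfl
    rw [e2]
    linarith
  · have h1 := (kw_le hrb (kap * Real.log T) x).trans (h T x hT hx)
    linarith

/-- the error term is small -/
theorem small (C : ℝ) (hC : 0 < C) : ∃ T0 : ℝ, 10 ≤ T0 ∧ ∀ T : ℝ, T0 ≤ T →
    1 / T ^ 2 * (C * (T * Real.log T)) ^ 2 ≤ 5 / 100000 * X T := by
  have hpi := Real.pi_pos
  set D : ℝ := C ^ 2 * (2 * Real.pi) / (5 / 100000) with hD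
  have hDp : 0 < D := by positivity
  refine ⟨max 10 ((2 * D) ^ 2), le_max_left _ _, fun T hT => ?_⟩
  have hT10 : 10 ≤ T := (le_max_left _ _).trans hT
  have hTD : (2 * D) ^ 2 ≤ T := (le_max_right _ _).trans hT
  have hl0 : 0 ≤ Real.log T := Real.log_nonneg (by linarith)
  have hsq : 2 * D ≤ Real.sqrt T := Real.le_sqrt_of_sq_le hTD
  have hlog : Real.log T ≤ 2 * Real.sqrt T := by
    have h1 : Real.log (Real.sqrt T) = Real.log T / 2 := Real.log_sqrt (by linarith)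
    have h2 := Real.log_le_sub_one_of_pos (Real.sqrt_pos.2 (by linarith : 0 < T))
    linarith
  have h1 : D * Real.log T ≤ T := by
    have h2 : D * Real.log T ≤ D * (2 * Real.sqrt T) := mul_le_mul_of_nonneg_left hlog hDp.le
    have h3 : D * (2 * Real.sqrt T) ≤ Real.sqrt T * Real.sqrt T := by
      have := mul_le_mul_of_nonneg_right hsq (Real.sqrt_nonneg T)
      linarith
    rw [Real.mul_self_sqrt (by linarith)] at h3
    linarith
  have e1 : 1 / T ^ 2 * (C * (T * Real.log T)) ^ 2 = C ^ 2 * Real.log T ^ 2 := by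
    have : T ≠ 0 := by linarith
    field_simp
  rw [e1]
  unfold X
  have h2 : C ^ 2 * (2 * Real.pi) = D * (5 / 100000) := by
    rw [hD]
    field_simp
  rw [← sub_nonneg]
  have e3 : 5 / 100000 * (T * Real.log T / (2 * Real.pi)) - C ^ 2 * Real.log T ^ 2 =
      (5 / 100000 * T * Real.log T - C ^ 2 * (2 * Real.pi) * Real.log T ^ 2) / (2 * Real.pi) := by
    field_simp
  rw [e3, h2]
  apply div_nonneg _ (by positivity)
  nlinarith [mul_le_mul_of_nonneg_right h1 hl0]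

/-- admissible dilations -/
theorem dil (T V : ℝ) (hT : 10 ≤ T) (h1 : T ^ (1 - (25 / 10 ^ 9 : ℝ)) ≤ V) (h2 : 2 * V ≤ T) :
    (1 - 2 / 10 ^ 7) * Real.log V ≤ kap * Real.log T ∧
      kap * Real.log T ≤ (1 - 1 / 10 ^ 7) * Real.log V ∧ 1 / 2 * Real.log T ≤ Real.log V := by
  have hT0 : 0 < T := by linarith
  have hV0 : 0 < V := lt_of_lt_of_le (Real.rpow_pos_of_pos hT0 _) h1
  have hl0 : 0 ≤ Real.log T := Real.log_nonneg (by linarith)
  have a1 : Real.log V ≤ Real.log T := Real.log_le_log hV0 (by linarith)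
  have a2 : (1 - (25 / 10 ^ 9 : ℝ)) * Real.log T ≤ Real.log V := by
    rw [← Real.log_rpow hT0]
    exact Real.log_le_log (Real.rpow_pos_of_pos hT0 _) h1
  unfold kap
  norm_num at a2 ⊢
  refine ⟨by linarith, by linarith, by linarith⟩

theorem mem_Z0 (T : ℝ) (s : ℂ) : s ∈ H343.ZSide.Z0 T ↔
    0 < s.re ∧ s.re < 1 ∧ 0 < s.im ∧ s.im ≤ T ∧ riemannZeta s = 0 := by
  unfold H343.ZSide.Z0
  rw [Set.Finite.mem_toFinset]
  rfl

theorem mz_nonneg (s : ℂ) : 0 ≤ H343.ZSide.mz s := by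
  unfold H343.ZSide.mz
  exact Nat.cast_nonneg _

theorem Wc_all (T : ℝ) : Wc T 0 T = ∑ s ∈ H343.ZSide.Z0 T, H343.ZSide.mz s := by
  unfold Wc
  rw [Finset.filter_true_of_mem]
  intro s hs
  obtain ⟨-, -, a, b, -⟩ := (mem_Z0 T s).1 hs
  exact ⟨a, b⟩

theorem K2_le (T : ℝ) (k k' : ℝ → ℝ) (c d : ℝ) (h : ∀ x, k x ≤ c * k' x + d) :
    K2 T k ≤ c * K2 T k' + d * (Wc T 0 T) ^ 2 := by
  rw [Wc_all]
  unfold K2
  rw [sq, Finset.sum_mul_sum, Finset.mul_sum, Finset.mul_sum, ← Finset.sum_add_distrib]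
  apply Finset.sum_le_sum
  intro s _
  rw [Finset.mul_sum, Finset.mul_sum, ← Finset.sum_add_distrib]
  apply Finset.sum_le_sum
  intro s' _
  have := mul_le_mul_of_nonneg_left (h (s.im - s'.im)) (mul_nonneg (mz_nonneg s) (mz_nonneg s'))
  linarith

end G2x

open G2x in
theorem g2_of (hkiter : S_KITER) (hwc : S_WC) (hntb : S_NT) (hkstep : S_KSTEP)
    (hmb2 : S_MB2) (hrb : S_RB) : S_G2 := by
  intro hRH
  obtain ⟨V0, hV0, hMB⟩ := hmb2 hRH
  obtain ⟨Tf, hTf, hfar⟩ := G2x.far hrb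
  obtain ⟨Tk, hTk, hkk⟩ := G2x.kw_kg hrb
  have hntb' := hntb
  obtain ⟨C, Tn, hC, hTn, hNT⟩ := hntb
  obtain ⟨Ts, hTs, hsm⟩ := G2x.small C hC
  obtain ⟨T1, hT1⟩ := hkiter hwc hntb' hkstep (fun T x => kg (kap * Real.log T) x)
    (13166 / 10000) (25 / 10 ^ 9) (max Tf (V0 ^ 2)) (by norm_num) (by norm_num) (by norm_num)
    (fun T x hT => ⟨G2x.kg_nonneg hrb _ _, (G2x.kg_le hrb _ _).trans (hrb.1 _).2, fun hx =>
      (G2x.kg_le hrb _ _).trans (hfar T x ((le_max_left _ _).trans hT) (by linarith))⟩)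
    (fun T V hT h1 h2 => by
      have hT10 : 10 ≤ T := hTf.trans ((le_max_left _ _).trans hT)
      have hTV : V0 ^ 2 ≤ T := (le_max_right _ _).trans hT
      have hV : 0 < V := lt_of_lt_of_le (Real.rpow_pos_of_pos (by linarith) _) h1
      obtain ⟨d1, d2, d3⟩ := G2x.dil T V hT10 h1 h2
      have hVV : V0 ≤ V := by
        have h3 : Real.log (V0 ^ 2) ≤ Real.log T := Real.log_le_log (by positivity) hTV
        rw [Real.log_pow] at h3
        push_cast at h3
        rw [← Real.log_le_log_iff (by linarith) hV]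
        linarith
      obtain ⟨U1, U2, hR, hK⟩ := hMB V hVV
      exact ⟨U1, U2, hR, hK _ d1 d2⟩) (1 / 100000) (by norm_num)
  refine ⟨max (max T1 Tk) (max Tn Ts), fun T hT => ?_⟩
  have t1 : T1 ≤ T := (le_max_left _ _).trans ((le_max_left _ _).trans hT)
  have t2 : Tk ≤ T := (le_max_right _ _).trans ((le_max_left _ _).trans hT)
  have t3 : Tn ≤ T := (le_max_left _ _).trans ((le_max_right _ _).trans hT)
  have t4 : Ts ≤ T := (le_max_right _ _).trans ((le_max_right _ _).trans hT)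
  have a1 := hT1 T t1
  have a2 := G2x.K2_le T (kw (kap * Real.log T)) (kg (kap * Real.log T)) (10001 / 10000)
    (1 / T ^ 2) (fun x => hkk T x t2)
  have a3 := (hNT T t3).1
  have hW : 0 ≤ Wc T 0 T := by
    rw [G2x.Wc_all]
    exact Finset.sum_nonneg (fun s _ => G2x.mz_nonneg s)
  have a4 : (Wc T 0 T) ^ 2 ≤ (C * (T * Real.log T)) ^ 2 := pow_le_pow_left₀ hW a3 2
  have a5 : 1 / T ^ 2 * (Wc T 0 T) ^ 2 ≤ 5 / 100000 * X T :=
    (mul_le_mul_of_nonneg_left a4 (by positivity)).trans (hsm T t4)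
  have hX : 0 ≤ X T := by
    unfold X
    have : 0 ≤ Real.log T := Real.log_nonneg (by linarith)
    have := Real.pi_pos
    have : 0 ≤ T := by linarith
    positivity
  have a1' : K2 T (kg (kap * Real.log T)) ≤ (13166 / 10000 + 1 / 100000) * X T := a1
  nlinarith [a1', a2, a5, hX]

theorem g2 : S_G2 := g2_of kiter wc ntb kstep mb2 rb

end H332B
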