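import Pool.Agent.H332B.Defs2
import Pool.Agent.H332B.WPC
import Pool.Agent.H332B.F2
import Pool.Agent.H332B.G2
import Pool.Agent.H332B.BD
import Pool.Agent.H332B.Edge
import Pool.Agent.H332B.RB

open Complex Filter Topology Set MeasureTheory
open scoped BigOperators

namespace H332B

namespace Avg

lemma W_nonneg (T u : ℝ) : 0 ≤ Wp T u := by
  have hZ : ∀ s ∈ H343.ZSide.Z0 T, 0 < s.re ∧ s.re < 1 := by
    intro s hs
    unfold H343.ZSide.Z0 at hs
    rw [Set.Finite.mem_toFinset] at hs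
    exact ⟨hs.1, hs.2.1⟩
  have h := (H343.pair_W 1 u 0 one_pos le_rfl (H343.ZSide.Z0 T) H343.ZSide.mz hZ).2
  simp only [neg_zero, intervalIntegral.integral_same, mul_zero] at h
  exact h

lemma W_cont (hW : S_WPC) (hRH : RiemannHypothesis) (T L : ℝ) :
    Continuous (fun α : ℝ => Wp T (α * L)) := by
  have h : (fun α : ℝ => Wp T (α * L)) = fun α : ℝ =>
      ∑ s ∈ H343.ZSide.Z0 T, ∑ s' ∈ H343.ZSide.Z0 T, H343.ZSide.mz s * H343.ZSide.mz s' *
        (4 / (4 + (s.im - s'.im) ^ 2) * Real.cos (α * L * (s.im - s'.im))) := by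
    funext α
    rw [hW hRH]
    rfl
  rw [h]
  refine continuous_finsetSum _ (fun s _ => continuous_finsetSum _ (fun s' _ => ?_))
  fun_prop

lemma W_bound (hW : S_WPC) (hRH : RiemannHypothesis) (T : ℝ) : ∃ M : ℝ, 0 ≤ M ∧
    ∀ u, |Wp T u| ≤ M := by
  have hmz : ∀ s, 0 ≤ H343.ZSide.mz s := fun s => Nat.cast_nonneg _
  refine ⟨∑ s ∈ H343.ZSide.Z0 T, ∑ s' ∈ H343.ZSide.Z0 T, H343.ZSide.mz s * H343.ZSide.mz s',
    Finset.sum_nonneg (fun s _ => Finset.sum_nonneg (fun s' _ => mul_nonneg (hmz s) (hmz s'))),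
    fun u => ?_⟩
  rw [hW hRH]
  unfold K2
  refine (Finset.abs_sum_le_sum_abs _ _).trans (Finset.sum_le_sum (fun s _ => ?_))
  refine (Finset.abs_sum_le_sum_abs _ _).trans (Finset.sum_le_sum (fun s' _ => ?_))
  rw [abs_mul, abs_of_nonneg (mul_nonneg (hmz s) (hmz s'))]
  refine mul_le_of_le_one_right (mul_nonneg (hmz s) (hmz s')) ?_
  rw [abs_mul]
  have h1 : |4 / (4 + (s.im - s'.im) ^ 2)| ≤ 1 := by
    rw [abs_of_nonneg (by positivity), div_le_one (by positivity)]
    nlinarith [sq_nonneg (s.im - s'.im)]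
  calc |4 / (4 + (s.im - s'.im) ^ 2)| * |Real.cos (u * (s.im - s'.im))| ≤ 1 * 1 :=
        mul_le_mul h1 (Real.abs_cos_le_one _) (abs_nonneg _) (by norm_num)
    _ = 1 := one_mul _

lemma kap_pos : 0 < kap := by unfold kap; norm_num

lemma kap_le : kap ≤ 1 := by unfold kap; norm_num

lemma hk_cont : Continuous hk := by
  have h1 : Continuous rh := by
    unfold rh Qp
    fun_prop
  unfold hk
  have h2 : Continuous (fun t : ℝ => t / kap) := continuous_id.div_const _
  exact continuous_const.mul (h1.comp h2)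

lemma hk_bound (hRB : S_RB) : ∃ C : ℝ, 0 < C ∧ ∀ t, |hk t| ≤ C * Real.exp (-(2 * t ^ 2)) := by
  obtain ⟨-, C, hC, hb⟩ := hRB
  refine ⟨kap⁻¹ * C, mul_pos (inv_pos.2 kap_pos) hC, fun t => ?_⟩
  unfold hk
  rw [abs_mul, abs_of_pos (inv_pos.2 kap_pos), mul_assoc]
  refine mul_le_mul_of_nonneg_left ?_ (inv_pos.2 kap_pos).le
  refine (hb (t / kap)).2.trans (mul_le_mul_of_nonneg_left ?_ hC.le)
  refine Real.exp_le_exp.2 ?_
  have h1 : t ^ 2 ≤ (t / kap) ^ 2 := by
    rw [div_pow, le_div_iff₀ (pow_pos kap_pos 2)]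
    have h2 : kap ^ 2 ≤ 1 := pow_le_one₀ kap_pos.le kap_le
    nlinarith [sq_nonneg t]
  linarith

end Avg

open Avg in
theorem avg_of (hW : S_WPC) (hF2 : S_F2) (hG2 : S_G2) (hBD : S_BD) (hE : S_EDGE) (hRB : S_RB) :
    S_AVG := by
  intro hRH
  obtain ⟨Tg, hg⟩ := hG2 hRH
  obtain ⟨Cb, Tb, hCb, hbd⟩ := hBD hRH
  obtain ⟨Ce, hCe, hedge⟩ := hE
  obtain ⟨Ck, hCk, hkb⟩ := hk_bound hRB
  refine ⟨3 * (Ce * Cb), max (max Tg Tb) 2, by positivity, fun T b ℓ hT hℓ => ?_⟩
  have hTg : Tg ≤ T := le_trans (le_trans (le_max_left _ _) (le_max_left _ _)) hT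
  have hTb : Tb ≤ T := le_trans (le_trans (le_max_right _ _) (le_max_left _ _)) hT
  have hT2 : (2 : ℝ) ≤ T := le_trans (le_max_right _ _) hT
  set L := Real.log T with hL
  have hX0 : 0 ≤ X T := by
    unfold X
    have : 0 ≤ Real.log T := Real.log_nonneg (by linarith)
    have := Real.pi_pos
    positivity
  obtain ⟨M, hM0, hM⟩ := W_bound hW hRH T
  have hWc := W_cont hW hRH T L
  have hWn : ∀ α, 0 ≤ Wp T (α * L) := fun α => W_nonneg T _
  -- Fubini
  have hint : Integrable (Function.uncurry fun α c : ℝ => hk (α - c) * Wp T (α * L))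
      ((volume : Measure ℝ).prod (volume.restrict (Ioc b (b + ℓ)))) := by
    have h1 : Integrable (fun α : ℝ => (Ck * M) * Real.exp (-(1 : ℝ) * (α - b) ^ 2)) :=
      ((integrable_exp_neg_mul_sq (by norm_num : (0 : ℝ) < 1)).comp_sub_right b).const_mul _
    have h2 : Integrable (fun c : ℝ => Real.exp (2 * (c - b) ^ 2))
        (volume.restrict (Ioc b (b + ℓ))) :=
      (by fun_prop : Continuous fun c : ℝ => Real.exp (2 * (c - b) ^ 2)).integrableOn_Ioc
    refine Integrable.mono' (h1.mul_prod h2) ?_ ?_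
    · refine Continuous.aestronglyMeasurable ?_
      have e1 : Continuous fun p : ℝ × ℝ => hk (p.1 - p.2) :=
        hk_cont.comp (continuous_fst.sub continuous_snd)
      exact e1.mul (hWc.comp continuous_fst)
    · refine Eventually.of_forall (fun p => ?_)
      obtain ⟨α, c⟩ := p
      show ‖hk (α - c) * Wp T (α * L)‖ ≤ (Ck * M) * Real.exp (-(1 : ℝ) * (α - b) ^ 2) *
        Real.exp (2 * (c - b) ^ 2)
      rw [Real.norm_eq_abs, abs_mul]
      have e1 := hkb (α - c)
      have e2 := hM (α * L)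
      have e3 : Real.exp (-(2 * (α - c) ^ 2)) ≤
          Real.exp (-(1 : ℝ) * (α - b) ^ 2) * Real.exp (2 * (c - b) ^ 2) := by
        rw [← Real.exp_add]
        refine Real.exp_le_exp.2 ?_
        nlinarith [sq_nonneg ((α - c) - (c - b))]
      calc |hk (α - c)| * |Wp T (α * L)|
          ≤ (Ck * Real.exp (-(2 * (α - c) ^ 2))) * M :=
            mul_le_mul e1 e2 (abs_nonneg _) (by positivity)
        _ = (Ck * M) * Real.exp (-(2 * (α - c) ^ 2)) := by ring
        _ ≤ (Ck * M) * (Real.exp (-(1 : ℝ) * (α - b) ^ 2) * Real.exp (2 * (c - b) ^ 2)) :=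
            mul_le_mul_of_nonneg_left e3 (by positivity)
        _ = _ := by ring
  have hswap := integral_integral_swap hint
  have hinner : ∀ α : ℝ, ∫ c in Ioc b (b + ℓ), hk (α - c) * Wp T (α * L) =
      (∫ c in b..(b + ℓ), hk (α - c)) * Wp T (α * L) := by
    intro α
    rw [MeasureTheory.integral_mul_const, intervalIntegral.integral_of_le (by linarith)]
  have hIE : Integrable (fun α : ℝ => (∫ c in b..(b + ℓ), hk (α - c)) * Wp T (α * L)) := by
    have := hint.integral_prod_left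
    refine this.congr (Eventually.of_forall (fun α => ?_))
    exact hinner α
  have hIEle : ∫ α : ℝ, (∫ c in b..(b + ℓ), hk (α - c)) * Wp T (α * L) ≤
      ℓ * (13168 / 10000 * X T) := by
    have e1 : ∫ α : ℝ, (∫ c in b..(b + ℓ), hk (α - c)) * Wp T (α * L) =
        ∫ α : ℝ, ∫ c in Ioc b (b + ℓ), hk (α - c) * Wp T (α * L) := by
      congr 1
      funext α
      exact (hinner α).symm
    rw [e1, hswap]
    have e2 : ∫ c in Ioc b (b + ℓ), (∫ α : ℝ, hk (α - c) * Wp T (α * L)) ≤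
        ∫ _c in Ioc b (b + ℓ), (13168 / 10000 * X T) := by
      refine integral_mono hint.integral_prod_right ?_ (fun c => ?_)
      · exact integrable_const _
      · exact ((hF2 hRH T c hT2).2).trans (hg T hTg)
    refine e2.trans (le_of_eq ?_)
    rw [MeasureTheory.setIntegral_const]
    simp [measureReal_def, Real.volume_Ioc, hℓ]
  -- final comparison
  obtain ⟨hi1, hb1⟩ := hbd T b hTb
  obtain ⟨hi2, hb2⟩ := hbd T (b + ℓ) hTb
  have hsm : Integrable (fun α : ℝ => Real.exp (-(α - b) ^ 2) * Wp T (α * L) +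
      Real.exp (-(α - (b + ℓ)) ^ 2) * Wp T (α * L)) := hi1.add hi2
  have hsmC : Integrable (fun α : ℝ => Ce * (Real.exp (-(α - b) ^ 2) * Wp T (α * L) +
      Real.exp (-(α - (b + ℓ)) ^ 2) * Wp T (α * L))) := hsm.const_mul Ce
  have hmono : ∫ α : ℝ, (Icc b (b + ℓ)).indicator (fun α => 999999 / 1000000 * Wp T (α * L)) α ≤
      ∫ α : ℝ, ((∫ c in b..(b + ℓ), hk (α - c)) * Wp T (α * L) +
        Ce * (Real.exp (-(α - b) ^ 2) * Wp T (α * L) +
          Real.exp (-(α - (b + ℓ)) ^ 2) * Wp T (α * L))) := by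
    refine integral_mono ?_ (hIE.add hsmC) (fun α => ?_)
    · rw [integrable_indicator_iff measurableSet_Icc]
      exact (continuous_const.mul hWc).integrableOn_Icc
    · have e1 := mul_le_mul_of_nonneg_right (hedge b ℓ α hℓ) (hWn α)
      have e2 : (Icc b (b + ℓ)).indicator (fun α => 999999 / 1000000 * Wp T (α * L)) α =
          (if b ≤ α ∧ α ≤ b + ℓ then 999999 / 1000000 else 0) * Wp T (α * L) := by
        by_cases h : b ≤ α ∧ α ≤ b + ℓ
        · rw [Set.indicator_of_mem (show α ∈ Icc b (b + ℓ) from h), if_pos h]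
        · rw [Set.indicator_of_notMem (show α ∉ Icc b (b + ℓ) from h), if_neg h, zero_mul]
      show (Icc b (b + ℓ)).indicator (fun α => 999999 / 1000000 * Wp T (α * L)) α ≤
        (∫ c in b..(b + ℓ), hk (α - c)) * Wp T (α * L) +
        Ce * (Real.exp (-(α - b) ^ 2) * Wp T (α * L) +
          Real.exp (-(α - (b + ℓ)) ^ 2) * Wp T (α * L))
      rw [e2]
      refine e1.trans (le_of_eq ?_)
      ring
  rw [integral_indicator measurableSet_Icc, MeasureTheory.integral_const_mul,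
    integral_Icc_eq_integral_Ioc, ← intervalIntegral.integral_of_le (by linarith : b ≤ b + ℓ),
    integral_add hIE hsmC, MeasureTheory.integral_const_mul] at hmono
  have hadd : ∫ α : ℝ, (Real.exp (-(α - b) ^ 2) * Wp T (α * L) +
      Real.exp (-(α - (b + ℓ)) ^ 2) * Wp T (α * L)) ≤ 2 * (Cb * X T) := by
    rw [integral_add hi1 hi2]
    linarith
  have h5 : Ce * ∫ α : ℝ, (Real.exp (-(α - b) ^ 2) * Wp T (α * L) +
      Real.exp (-(α - (b + ℓ)) ^ 2) * Wp T (α * L)) ≤ Ce * (2 * (Cb * X T)) :=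
    mul_le_mul_of_nonneg_left hadd hCe.le
  have h6 : 0 ≤ ℓ * X T := mul_nonneg hℓ hX0
  have h7 : 0 ≤ Ce * Cb * X T := by positivity
  nlinarith

theorem avg : S_AVG := avg_of wpc f2 g2 bd edge rb

end H332B
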