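import Pool.Agent.H332B.Num

open Complex Filter Topology Set MeasureTheory
open scoped BigOperators

namespace H332B

theorem p1 : S_P1 := by
  intro x hx
  have hpi := Real.pi_lt_d2
  have hpi0 := Real.pi_pos
  have hx2 : x ^ 2 ≤ (1 / 200) ^ 2 := by
    rw [← sq_abs]
    gcongr
  set w : ℝ := 2 * Real.pi * x ^ 2 with hw
  have hw0 : 0 ≤ w := by positivity
  have hw1 : w ≤ 16 / 100000 := by
    rw [hw]
    have : 2 * Real.pi * x ^ 2 ≤ 2 * 3.15 * (1 / 200) ^ 2 := by gcongr
    norm_num at this ⊢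
    linarith
  have hP : 999999 / 1000000 ≤ Pp w := by
    unfold Pp
    have h2 : w ^ 2 ≤ 1 := by nlinarith
    have h3 : 0 ≤ w ^ 3 := by positivity
    have h5 : 0 ≤ w ^ 5 := by positivity
    have h7 : 0 ≤ w ^ 7 := by positivity
    have h4 : w ^ 4 ≤ w * 1 := by
      have : w ^ 3 ≤ 1 := by
        have : w ^ 3 ≤ 1 ^ 3 := by gcongr; linarith
        simpa using this
      calc w ^ 4 = w * w ^ 3 := by ring
        _ ≤ w * 1 := by gcongr
    have h6 : w ^ 6 ≤ w * 1 := by
      have : w ^ 5 ≤ 1 := by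
        have : w ^ 5 ≤ 1 ^ 5 := by gcongr; linarith
        simpa using this
      calc w ^ 6 = w * w ^ 5 := by ring
        _ ≤ w * 1 := by gcongr
    have h2' : w ^ 2 ≤ w * 1 := by
      calc w ^ 2 = w * w := by ring
        _ ≤ w * 1 := by gcongr; linarith
    linarith
  have hE : 99992 / 100000 ≤ Real.exp (-(Real.pi * x ^ 2)) := by
    have h1 := Real.add_one_le_exp (-(Real.pi * x ^ 2))
    have h2 : Real.pi * x ^ 2 = w / 2 := by rw [hw]; ring
    rw [h2] at h1 ⊢
    linarith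
  have : rr x = Pp w * Real.exp (-(Real.pi * x ^ 2)) := rfl
  rw [this]
  calc (9999 / 10000 : ℝ) ≤ 999999 / 1000000 * (99992 / 100000) := by norm_num
    _ ≤ _ := by gcongr

end H332B
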