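import Pool.Agent.H332B.Defs
import Pool.Agent.H332B.MB
import Pool.Agent.H332B.P0
import Pool.Agent.H332B.P1

open Complex Filter Topology Set MeasureTheory
open scoped BigOperators

namespace H332B

theorem bpm_of (hmb : S_MB) (h0 : S_P0) (h1 : S_P1) : S_BP := by
  classical
  intro hRH
  obtain ⟨ε, V0, hε, hε2, hV0, hb⟩ := hmb hRH
  refine ⟨V0, hV0, fun V hV => ?_⟩
  obtain ⟨U1, U2, hR, hsum⟩ := hb V hV
  refine ⟨U1, U2, hR, fun w hw hwl => ?_⟩
  have hmz : ∀ s, 0 ≤ H343.ZSide.mz s := fun s => Nat.cast_nonneg _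
  have hV10 : (10 : ℝ) ≤ V := le_trans hV0 hV
  have hlog : 2 ≤ Real.log V := by
    have h8 : Real.log 8 ≤ Real.log V := Real.log_le_log (by norm_num) (by linarith)
    have h82 : Real.log 8 = 3 * Real.log 2 := by
      rw [show (8 : ℝ) = 2 ^ 3 by norm_num, Real.log_pow]
      norm_num
    have := Real.log_two_gt_d9
    linarith
  have hpi := Real.pi_pos
  have hpi2 : Real.pi < 3.15 := Real.pi_lt_d2
  have hwb : w ≤ 0.01575 := by nlinarith
  have hw2 : w ^ 2 / 4 ≤ 0.000063 := by nlinarith
  have hrr0 : ∀ x, 0 ≤ rr x := fun x => mul_nonneg (h0 _ (by positivity)) (Real.exp_pos _).le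
  have key : ∀ s s' : ℂ,
      0.99983 * (if |s.im - s'.im| ≤ w then H343.ZSide.mz s * H343.ZSide.mz s' else 0) ≤
      H343.ZSide.mz s * H343.ZSide.mz s' *
      (rr ((1 - ε) * Real.log V * (s.im - s'.im) / (2 * Real.pi)) *
        Real.exp (-(s.im - s'.im) ^ 2 / 4)) := by
    intro s s'
    have hmm : 0 ≤ H343.ZSide.mz s * H343.ZSide.mz s' := mul_nonneg (hmz s) (hmz s')
    split_ifs with h
    · have hx : |(1 - ε) * Real.log V * (s.im - s'.im) / (2 * Real.pi)| ≤ 1 / 200 := by
        rw [abs_div, abs_mul, abs_mul, abs_of_pos (show 0 < 1 - ε by linarith),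
          abs_of_pos (show 0 < Real.log V by linarith), abs_of_pos (show 0 < 2 * Real.pi by linarith),
          div_le_iff₀ (by linarith)]
        have h3 : Real.log V * |s.im - s'.im| ≤ Real.log V * w := by gcongr
        have h4 : 0 ≤ Real.log V * |s.im - s'.im| := by positivity
        have h5 : (1 - ε) * (Real.log V * |s.im - s'.im|) ≤ 1 * (Real.log V * |s.im - s'.im|) := by
          refine mul_le_mul_of_nonneg_right (by linarith) h4
        calc (1 - ε) * Real.log V * |s.im - s'.im|
            = (1 - ε) * (Real.log V * |s.im - s'.im|) := by ring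
          _ ≤ Real.pi / 100 := by linarith
          _ = 1 / 200 * (2 * Real.pi) := by ring
      have hr := h1 _ hx
      have he : 0.999937 ≤ Real.exp (-(s.im - s'.im) ^ 2 / 4) := by
        have h6 := Real.add_one_le_exp (-(s.im - s'.im) ^ 2 / 4)
        have h7 : (s.im - s'.im) ^ 2 ≤ w ^ 2 := by
          rw [← sq_abs (s.im - s'.im)]
          exact pow_le_pow_left₀ (abs_nonneg _) h 2
        linarith
      have hre : 0.99983 ≤ rr ((1 - ε) * Real.log V * (s.im - s'.im) / (2 * Real.pi)) *
          Real.exp (-(s.im - s'.im) ^ 2 / 4) := by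
        calc (0.99983 : ℝ) ≤ 9999 / 10000 * 0.999937 := by norm_num
          _ ≤ _ := mul_le_mul hr he (by norm_num) (le_trans (by norm_num) hr)
      calc 0.99983 * (H343.ZSide.mz s * H343.ZSide.mz s')
          = H343.ZSide.mz s * H343.ZSide.mz s' * 0.99983 := by ring
        _ ≤ _ := mul_le_mul_of_nonneg_left hre hmm
    · rw [mul_zero]
      exact mul_nonneg hmm (mul_nonneg (hrr0 _) (Real.exp_pos _).le)
  have hBP : 0.99983 * BP U1 U2 w ≤ 13166 / 10000 * X V := by
    refine le_trans ?_ hsum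
    unfold BP
    rw [Finset.mul_sum]
    refine Finset.sum_le_sum (fun s _ => ?_)
    rw [Finset.mul_sum]
    exact Finset.sum_le_sum (fun s' _ => key s s')
  have hX : 0 ≤ X V := by
    unfold X
    have : 0 ≤ Real.log V := by linarith
    positivity
  nlinarith

theorem bpm : S_BP := bpm_of mb p0 p1

end H332B
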