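import Mathlib

/-! # Pair correlation: an explicit test function (MP_103a5c_nt); the analytic part

Statements (`S_...`) of the tasks. Every task: prove `theorem xxx : S_XXX`. -/

open Complex Filter Topology Set MeasureTheory
open scoped BigOperators

namespace H332B

/-! ### the test function -/

/-- polynomial of the test function -/
noncomputable def Pp (w : ℝ) : ℝ :=
  (511999999999801 / 512000000000000 : ℝ) +
    (43800072559933 / 256000000000000 : ℝ) * w +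
    (-(10195850894461 / 128000000000000) : ℝ) * w ^ 2 +
    (527288203537 / 192000000000000 : ℝ) * w ^ 3 +
    (-(67544825119 / 96000000000000) : ℝ) * w ^ 4 +
    (3908528143 / 16000000000000 : ℝ) * w ^ 5 +
    (-(231628331 / 14400000000000) : ℝ) * w ^ 6 +
    (375315371 / 1260000000000000 : ℝ) * w ^ 7

/-- polynomial of its Fourier transform -/
noncomputable def Qp (w : ℝ) : ℝ :=
  (513709738020047 / 512000000000000 : ℝ) +
    (11775204113427 / 256000000000000 : ℝ) * w +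
    (742681256161 / 25600000000000 : ℝ) * w ^ 2 +
    (-(1521488134961 / 192000000000000) : ℝ) * w ^ 3 +
    (-(17280350137 / 96000000000000) : ℝ) * w ^ 4 +
    (-(6172383419 / 80000000000000) : ℝ) * w ^ 5 +
    (3967491371 / 360000000000000 : ℝ) * w ^ 6 +
    (-(375315371 / 1260000000000000) : ℝ) * w ^ 7

/-- derivative of `Qp` -/
noncomputable def Qd (w : ℝ) : ℝ :=
  (11775204113427 / 256000000000000 : ℝ) +
    (742681256161 / 12800000000000 : ℝ) * w +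
    (-(1521488134961 / 64000000000000) : ℝ) * w ^ 2 +
    (-(17280350137 / 24000000000000) : ℝ) * w ^ 3 +
    (-(6172383419 / 16000000000000) : ℝ) * w ^ 4 +
    (3967491371 / 60000000000000 : ℝ) * w ^ 5 +
    (-(375315371 / 180000000000000) : ℝ) * w ^ 6

/-- minorant -/
noncomputable def Bp (y : ℝ) : ℝ :=
  (1708781 / 1000000 : ℝ) +
    (-(1821547 / 1000000) : ℝ) * y +
    (3607 / 5000 : ℝ) * y ^ 2 +
    (-(111371 / 1000000) : ℝ) * y ^ 3

/-- the test function -/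
noncomputable def rr (x : ℝ) : ℝ := Pp (2 * Real.pi * x ^ 2) * Real.exp (-(Real.pi * x ^ 2))

/-- its Fourier transform -/
noncomputable def rh (α : ℝ) : ℝ := Qp (2 * Real.pi * α ^ 2) * Real.exp (-(Real.pi * α ^ 2))

/-- positive part -/
noncomputable def RR (α : ℝ) : ℝ := max (rh α) 0

/-- the weights allowed in the upper bound -/
structure TR (R : ℝ → ℝ) : Prop where
  nonneg : ∀ α, 0 ≤ R α
  anti : AntitoneOn R (Set.Ici 0)
  lip : ∃ K : ℝ, 0 < K ∧ ∀ x y, |R x - R y| ≤ K * |x - y|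
  zero : ∀ α, 1 < α → R α = 0

/-- Gaussian cosine moments -/
noncomputable def Cm (k : ℕ) (x : ℝ) : ℝ :=
  ∫ α : ℝ, α ^ (2 * k) * Real.exp (-(Real.pi * α ^ 2)) * Real.cos (2 * Real.pi * x * α)

/-- Gaussian sine moments -/
noncomputable def Sm (k : ℕ) (x : ℝ) : ℝ :=
  ∫ α : ℝ, α ^ (2 * k + 1) * Real.exp (-(Real.pi * α ^ 2)) * Real.sin (2 * Real.pi * x * α)

def S_MASS : Prop := ∀ δ c : ℝ, 0 < δ → 0 < c → ∃ A : ℝ, 0 < A ∧
    1 - δ ≤ (Real.sqrt (Real.pi * c))⁻¹ * ∫ a in (-A)..A, Real.exp (-a ^ 2 / c)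

def S_CINT : Prop := ∀ (n : ℕ), Integrable (fun α : ℝ => α ^ n * Real.exp (-(Real.pi * α ^ 2)))

def S_MOM : Prop := ∀ x : ℝ, Cm 0 x = Real.exp (-(Real.pi * x ^ 2)) ∧ Sm 0 x = x * Cm 0 x ∧
    ∀ k : ℕ, Sm (k + 1) x = x * Cm (k + 1) x + ((k : ℝ) + 1) / Real.pi * Sm k x ∧
      Cm (k + 1) x = (2 * (k : ℝ) + 1) / (2 * Real.pi) * Cm k x - x * Sm k x

def S_RR : Prop := Integrable rh ∧ ∀ x : ℝ, rr x = ∫ α : ℝ, rh α * Real.cos (2 * Real.pi * x * α)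

def S_P0 : Prop := ∀ w : ℝ, 0 ≤ w → 0 ≤ Pp w

def S_QN : Prop := ∀ w : ℝ, 6283 / 1000 ≤ w → Qp w ≤ 0

def S_QP : Prop := ∀ w : ℝ, 0 ≤ w → w ≤ 627 / 100 → 0 ≤ Qp w

def S_QM : Prop := ∀ w : ℝ, 0 ≤ w → w ≤ 6284 / 1000 → Qd w ≤ Qp w / 2

def S_BB : Prop := ∀ α : ℝ, 1 ≤ α → α ≤ 3 / 2 → α * Bp (α ^ 2) ≤ 3 / 2 - α

def S_P1 : Prop := ∀ x : ℝ, |x| ≤ 1 / 200 → 9999 / 10000 ≤ rr x

def S_TR : Prop := TR RR

def S_J1 : Prop := 2 * ∫ α in (0 : ℝ)..1, α * RR α ≤ 319764 / 1000000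

def S_J2 : Prop := 2 * ∫ α in (1 : ℝ)..(3 / 2), (3 / 2 - α) * rh α ≤ -(652 / 100000)

def S_MAX : Prop := (∀ α : ℝ, 1 ≤ α → rh α ≤ 0) ∧ ∀ α : ℝ, 1 ≤ α → α ≤ 3 / 2 → -10 ≤ rh α

end H332B
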