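import Pool.Agent.H370R2.PC4
import Pool.Agent.H343R2.ZeroSide
import Pool.Agent.H332B.Num

/-! # Pair correlation: an explicit test function (MP_103a5c_nt)

Statements (`S_...`) of the tasks. Every task: prove `theorem xxx : S_XXX`. -/

open Complex Filter Topology Set MeasureTheory
open scoped BigOperators

namespace H332B

/-! ### the zeros of a dyadic block -/

/-- zeros of `ζ` with ordinate in `(U1, U2]` (a finite set for `U1 ≥ 1`) -/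
noncomputable def Zb (U1 U2 : ℝ) : Finset ℂ := H370.Zf riemannZeta U1 U2

/-- the mean square of the zero sum of the block -/
noncomputable def Jb (U1 U2 u : ℝ) : ℝ := H370.JJ riemannZeta U1 U2 u

/-- admissible end points of the block of `V` -/
def Rng (V U1 U2 : ℝ) : Prop := V ≤ U1 ∧ U1 ≤ V + 1 ∧ 2 * V - 1 ≤ U2 ∧ U2 ≤ 2 * V

/-- the main term -/
noncomputable def X (V : ℝ) : ℝ := V * Real.log V / (2 * Real.pi)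

/-! ### pairs -/

/-- close pairs of the block -/
noncomputable def BP (U1 U2 w : ℝ) : ℝ := by
  classical
  exact ∑ s ∈ Zb U1 U2, ∑ s' ∈ Zb U1 U2,
    if |s.im - s'.im| ≤ w then H343.ZSide.mz s * H343.ZSide.mz s' else 0

/-- close pairs up to height `T` -/
noncomputable def N2 (T w : ℝ) : ℝ := by
  classical
  exact ∑ s ∈ H343.ZSide.Z0 T, ∑ s' ∈ H343.ZSide.Z0 T,
    if |s.im - s'.im| ≤ w then H343.ZSide.mz s * H343.ZSide.mz s' else 0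

/-- number of zeros (with multiplicity) with ordinate in `(a, b]`, `a ≥ 0` -/
noncomputable def Wc (T a b : ℝ) : ℝ := by
  classical
  exact ∑ s ∈ (H343.ZSide.Z0 T).filter (fun s => a < s.im ∧ s.im ≤ b), H343.ZSide.mz s

/-! ### A: upper bound (adaptations of `H370R2/NT.lean` and `H370R2/PC.lean`) -/

def S_LAM : Prop := ∀ R : ℝ → ℝ, TR R → ∃ C : ℝ, 0 < C ∧ ∀ Λ : ℝ, 1 ≤ Λ →
    ∫ u in (0 : ℝ)..Λ, R (u / Λ) * ∑' n : ℕ, (ArithmeticFunction.vonMangoldt n) ^ 2 / n *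
        Real.exp (-(u - Real.log n) ^ 2) ≤
      Real.sqrt Real.pi * Λ ^ 2 * (∫ α in (0 : ℝ)..1, α * R α) + C * Λ

def S_UP : Prop := ∀ R : ℝ → ℝ, TR R → ∀ ε η : ℝ, 0 < ε → ε < 1 / 2 → 0 < η →
    ∃ T0 : ℝ, 10 ≤ T0 ∧ ∀ T : ℝ, T0 ≤ T → ∃ U1 U2 : ℝ, Rng T U1 U2 ∧
    2 / Real.sqrt Real.pi * ∫ α in (0 : ℝ)..1, R α * Jb U1 U2 ((1 - ε) * Real.log T * α) ≤
      X T * (R 0 / (1 - ε) + 2 * (1 - ε) * (∫ α in (0 : ℝ)..1, α * R α) + η)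

/-! ### B: lower bound -/

def S_BLK : Prop := ∀ δ : ℝ, 0 < δ → ∃ b0 : ℝ, 0 < b0 ∧ ∀ b : ℝ, 0 < b → b ≤ b0 →
    ∃ V0 : ℝ, 10 ≤ V0 ∧ ∀ V U1 U2 u : ℝ, V0 ≤ V → Rng V U1 U2 →
    (1 - b0) * Real.log V ≤ u → u ≤ 3 / 2 * Real.log V →
    (3 / 2 - max 1 (u / Real.log V) - δ) * X V ≤
      (H343.PPair (H343.kG b) u (Zb U1 U2) H343.ZSide.mz).re

def S_HEAT : Prop := ∀ b u A : ℝ, 0 < b → b < 1 → 0 ≤ A → ∀ (Z : Finset ℂ) (m : ℂ → ℝ),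
    (Real.sqrt (Real.pi * (1 - b)))⁻¹ * ∫ a in (-A)..A,
      Real.exp (-a ^ 2 / (1 - b)) * (H343.PPair (H343.kG b) (u + a) Z m).re ≤
      (H343.PPair (H343.kG 1) u Z m).re

def S_JP : Prop := ∀ V U1 U2 u : ℝ, 1 ≤ V → Rng V U1 U2 →
    Jb U1 U2 u = Real.sqrt Real.pi * (H343.PPair (H343.kG 1) u (Zb U1 U2) H343.ZSide.mz).re

def S_LOW : Prop := ∀ δ : ℝ, 0 < δ → ∃ V0 : ℝ, 10 ≤ V0 ∧ ∀ V U1 U2 u : ℝ, V0 ≤ V →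
    Rng V U1 U2 → Real.log V ≤ u → u ≤ 3 / 2 * Real.log V →
    Real.sqrt Real.pi * ((3 / 2 - u / Real.log V - δ) * X V) ≤ Jb U1 U2 u

/-! ### C: Fourier analysis -/

def S_PF : Prop := RiemannHypothesis → ∀ V U1 U2 Λ : ℝ, 1 ≤ V → Rng V U1 U2 →
    IntegrableOn (fun α : ℝ => rh α * Jb U1 U2 (Λ * α)) (Set.Ioi 0) ∧
    ∑ s ∈ Zb U1 U2, ∑ s' ∈ Zb U1 U2, H343.ZSide.mz s * H343.ZSide.mz s' *
      (rr (Λ * (s.im - s'.im) / (2 * Real.pi)) * Real.exp (-(s.im - s'.im) ^ 2 / 4)) =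
    2 / Real.sqrt Real.pi * ∫ α in Set.Ioi (0 : ℝ), rh α * Jb U1 U2 (Λ * α)

/-! ### E: the block -/

def S_MB : Prop := RiemannHypothesis → ∃ ε V0 : ℝ, 0 < ε ∧ ε < 1 / 2 ∧ 10 ≤ V0 ∧
    ∀ V : ℝ, V0 ≤ V → ∃ U1 U2 : ℝ, Rng V U1 U2 ∧
    ∑ s ∈ Zb U1 U2, ∑ s' ∈ Zb U1 U2, H343.ZSide.mz s * H343.ZSide.mz s' *
      (rr ((1 - ε) * Real.log V * (s.im - s'.im) / (2 * Real.pi)) *
        Real.exp (-(s.im - s'.im) ^ 2 / 4)) ≤ 13166 / 10000 * X V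

def S_BP : Prop := RiemannHypothesis → ∃ V0 : ℝ, 10 ≤ V0 ∧ ∀ V : ℝ, V0 ≤ V →
    ∃ U1 U2 : ℝ, Rng V U1 U2 ∧ ∀ w : ℝ, 0 ≤ w → w * Real.log V ≤ Real.pi / 100 →
    BP U1 U2 w ≤ 13169 / 10000 * X V

/-! ### F: from the blocks to the height `T` -/

def S_WC : Prop := ∃ C T0 : ℝ, 0 < C ∧ 10 ≤ T0 ∧ ∀ T a b : ℝ, T0 ≤ T → 10 ≤ a → b ≤ a + 4 →
    b ≤ T → Wc T a b ≤ C * Real.log T

def S_STEP : Prop := ∀ T w U1 U2 : ℝ, 40 ≤ T → 0 ≤ w → w ≤ 1 → Rng (T / 2) U1 U2 →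
    N2 T w ≤ N2 (T / 2) w + BP U1 U2 w + (Wc T (T / 2 - 1) (T / 2 + 2)) ^ 2 +
      (Wc T (T - 2) T) ^ 2

def S_ITER : Prop := S_WC → S_STEP → ∀ (w : ℝ → ℝ) (K V0 : ℝ), 0 ≤ K → 10 ≤ V0 →
    (∀ T V : ℝ, V0 ≤ V → 2 * V ≤ T → 0 ≤ w T ∧ w T ≤ 1 ∧
      ∃ U1 U2 : ℝ, Rng V U1 U2 ∧ BP U1 U2 (w T) ≤ K * X V) →
    ∀ η : ℝ, 0 < η → ∃ T1 : ℝ, ∀ T : ℝ, T1 ≤ T → N2 T (w T) ≤ (K + η) * X T

/-! ### G: conclusion -/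

def S_FIN : Prop := RiemannHypothesis → ∃ T1 : ℝ, ∀ T : ℝ, T1 ≤ T →
    N2 T (Real.pi / (100 * Real.log T)) ≤ 1317 / 1000 * X T

end H332B
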