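import Pool.Agent.H332B.Defs

/-! # Part 2: averages of Montgomery's function over long intervals (MP_00e05b_nt)

Statements (`S_...`) of the tasks. Every task: prove `theorem xxx : S_XXX`. -/

open Complex Filter Topology Set MeasureTheory
open scoped BigOperators

namespace H332B

/-- numerator of Montgomery's function `F(α, T)` at `u = α log T` -/
noncomputable def Wp (T u : ℝ) : ℝ :=
  (H343.PPair H343.kW u (H343.ZSide.Z0 T) H343.ZSide.mz).re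

/-- pair sum up to height `T` with kernel `k` -/
noncomputable def K2 (T : ℝ) (k : ℝ → ℝ) : ℝ :=
  ∑ s ∈ H343.ZSide.Z0 T, ∑ s' ∈ H343.ZSide.Z0 T,
    H343.ZSide.mz s * H343.ZSide.mz s' * k (s.im - s'.im)

/-- pair sum of a block with kernel `k` -/
noncomputable def KB (U1 U2 : ℝ) (k : ℝ → ℝ) : ℝ :=
  ∑ s ∈ Zb U1 U2, ∑ s' ∈ Zb U1 U2, H343.ZSide.mz s * H343.ZSide.mz s' * k (s.im - s'.im)

/-- the dilation factor -/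
noncomputable def kap : ℝ := 1 - 175 / 10 ^ 9

/-- the dilated Fourier transform -/
noncomputable def hk (t : ℝ) : ℝ := kap⁻¹ * rh (t / kap)

/-- the kernels -/
noncomputable def kg (L x : ℝ) : ℝ := rr (L * x / (2 * Real.pi)) * Real.exp (-x ^ 2 / 4)

noncomputable def kw (L x : ℝ) : ℝ := rr (L * x / (2 * Real.pi)) * (4 / (4 + x ^ 2))

def S_UP2 : Prop := ∀ R : ℝ → ℝ, TR R → ∀ ε η : ℝ, 0 < ε → ε < 1 / 2 → 0 < η →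
    ∃ T0 : ℝ, 10 ≤ T0 ∧ ∀ T : ℝ, T0 ≤ T → ∃ U1 U2 : ℝ, Rng T U1 U2 ∧
    ∀ Λ : ℝ, 1 / 2 * Real.log T ≤ Λ → Λ ≤ (1 - ε) * Real.log T →
    2 / Real.sqrt Real.pi * ∫ α in (0 : ℝ)..1, R α * Jb U1 U2 (Λ * α) ≤
      X T * (R 0 * (Real.log T / Λ) + 2 * (Λ / Real.log T) * (∫ α in (0 : ℝ)..1, α * R α) + η)

def S_MB2 : Prop := RiemannHypothesis → ∃ V0 : ℝ, 10 ≤ V0 ∧
    ∀ V : ℝ, V0 ≤ V → ∃ U1 U2 : ℝ, Rng V U1 U2 ∧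
    ∀ Λ : ℝ, (1 - 2 / 10 ^ 7) * Real.log V ≤ Λ → Λ ≤ (1 - 1 / 10 ^ 7) * Real.log V →
    KB U1 U2 (kg Λ) ≤ 13166 / 10000 * X V

/-- `rr` is nonnegative, at most `2`, and decays -/
def S_RB : Prop := (∀ x : ℝ, 0 ≤ rr x ∧ rr x ≤ 2) ∧ ∃ C : ℝ, 0 < C ∧ ∀ x : ℝ,
    rr x ≤ C * Real.exp (-(x ^ 2)) ∧ |rh x| ≤ C * Real.exp (-(2 * x ^ 2))

def S_KSTEP : Prop := ∀ (T U1 U2 κ0 : ℝ) (k : ℝ → ℝ), 40 ≤ T → Rng (T / 2) U1 U2 → 0 ≤ κ0 →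
    (∀ x, 0 ≤ k x ∧ k x ≤ 2) → (∀ x, 1 ≤ |x| → k x ≤ κ0) →
    K2 T k ≤ K2 (T / 2) k + KB U1 U2 k + 2 * (Wc T (T / 2 - 1) (T / 2 + 2)) ^ 2 +
      2 * (Wc T (T - 2) T) ^ 2 + κ0 * (Wc T 0 T) ^ 2

/-- cells -/
def S_CELL : Prop := ∀ (Z : Finset ℂ) (m : ℂ → ℝ) (w : ℝ) (g : ℝ → ℝ), 0 < w →
    (∀ s, 0 ≤ m s) → (∀ x, 0 ≤ g x ∧ g x ≤ 1 / (1 + x ^ 2)) →
    ∑ s ∈ Z, ∑ s' ∈ Z, m s * m s' * g ((s.im - s'.im) / w) ≤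
      20 * ∑ s ∈ Z, ∑ s' ∈ Z, (if |s.im - s'.im| ≤ w then m s * m s' else 0)

/-- zeros up to height `T` -/
def S_NT : Prop := ∃ C T0 : ℝ, 0 < C ∧ 10 ≤ T0 ∧ ∀ T : ℝ, T0 ≤ T →
    Wc T 0 T ≤ C * (T * Real.log T) ∧ N2 T 1 ≤ C * (T * (Real.log T) ^ 2)

def S_KITER : Prop := S_WC → S_NT → S_KSTEP → ∀ (k : ℝ → ℝ → ℝ) (K ε T0 : ℝ), 0 ≤ K → 0 < ε →
    ε < 1 / 2 →
    (∀ T x : ℝ, T0 ≤ T → 0 ≤ k T x ∧ k T x ≤ 2 ∧ (1 ≤ |x| → k T x ≤ 1 / T ^ 2)) →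
    (∀ T V : ℝ, T0 ≤ T → T ^ (1 - ε) ≤ V → 2 * V ≤ T →
      ∃ U1 U2 : ℝ, Rng V U1 U2 ∧ KB U1 U2 (k T) ≤ K * X V) →
    ∀ η : ℝ, 0 < η → ∃ T1 : ℝ, ∀ T : ℝ, T1 ≤ T → K2 T (k T) ≤ (K + η) * X T

def S_G2 : Prop := RiemannHypothesis → ∃ T1 : ℝ, ∀ T : ℝ, T1 ≤ T →
    K2 T (kw (kap * Real.log T)) ≤ 13168 / 10000 * X T

/-- under RH `Wp` is a cosine sum -/
def S_WPC : Prop := RiemannHypothesis → ∀ T u : ℝ,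
    Wp T u = K2 T (fun x => 4 / (4 + x ^ 2) * Real.cos (u * x))

def S_F2 : Prop := RiemannHypothesis → ∀ T c : ℝ, 2 ≤ T →
    Integrable (fun α : ℝ => hk (α - c) * Wp T (α * Real.log T)) ∧
    ∫ α : ℝ, hk (α - c) * Wp T (α * Real.log T) ≤ K2 T (kw (kap * Real.log T))

def S_BD : Prop := RiemannHypothesis → ∃ C T1 : ℝ, 0 < C ∧ ∀ T c : ℝ, T1 ≤ T →
    Integrable (fun α : ℝ => Real.exp (-(α - c) ^ 2) * Wp T (α * Real.log T)) ∧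
    ∫ α : ℝ, Real.exp (-(α - c) ^ 2) * Wp T (α * Real.log T) ≤ C * X T

def S_EDGE : Prop := ∃ C : ℝ, 0 < C ∧ ∀ b ℓ α : ℝ, 0 ≤ ℓ →
    (if b ≤ α ∧ α ≤ b + ℓ then 999999 / 1000000 else 0) ≤ (∫ c in b..(b + ℓ), hk (α - c)) +
      C * (Real.exp (-(α - b) ^ 2) + Real.exp (-(α - (b + ℓ)) ^ 2))

def S_AVG : Prop := RiemannHypothesis → ∃ C T1 : ℝ, 0 < C ∧ ∀ T b ℓ : ℝ, T1 ≤ T → 0 ≤ ℓ →
    ∫ α in b..(b + ℓ), Wp T (α * Real.log T) ≤ (1317 / 1000 * ℓ + C) * X T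

end H332B
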