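import Pool.Agent.H332B.Num

set_option maxRecDepth 4000

namespace H332B

namespace QP

theorem c0 (x y : ℝ) (hx : 0 ≤ x) (hy : 0 ≤ y) (h : x + y = (627 / 100 : ℝ)) : 0 ≤ Qp ((0 : ℝ) + x) := by
  have hy2 : y = (627 / 100 : ℝ) - x := by linarith
  have e : Qp ((0 : ℝ) + x) = (12842743450501175 / 4876213982377385856384 : ℝ) * (x ^ 0 * y ^ 7) + (187181461286135179 / 9752427964754771712768 : ℝ) * (x ^ 1 * y ^ 6) + (2042968322503645003 / 32508093215849239042560 : ℝ) * (x ^ 2 * y ^ 5) + (2764295023213406833229 / 24381069911886929281920000 : ℝ) * (x ^ 3 * y ^ 4) + (141435303324035953234861 / 1219053495594346464096000000 : ℝ) * (x ^ 4 * y ^ 3) + (6266432884611974907120239 / 101587791299528872008000000000 : ℝ) * (x ^ 5 * y ^ 2) + (199311932384992839556577491 / 15238168694929330801200000000000 : ℝ) * (x ^ 6 * y ^ 1) + (129100877034218853187947893 / 5333359043225265780420000000000000 : ℝ) * (x ^ 7 * y ^ 0) := by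
    unfold Qp
    rw [hy2]
    ring
  rw [e]
  positivity

theorem main (w : ℝ) (h0 : (0 : ℝ) ≤ w) (h1 : w ≤ (627 / 100 : ℝ)) : 0 ≤ Qp w := by
  have := c0 (w - (0 : ℝ)) ((627 / 100 : ℝ) - w) (by linarith) (by linarith) (by ring)
  rw [show (0 : ℝ) + (w - (0 : ℝ)) = w by ring] at this
  exact this

end QP

theorem qp : S_QP := fun w hw hw1 => QP.main w hw hw1

end H332B
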